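import Pool.Agent.GT4.St2
import Pool.Agent.GT3.Lnk
import Pool.Agent.GT3.ODD

/-!
# GT4, module BAD (helper39): explicit reflex pairs and triples over the fields with less than 64 elements
-/

set_option autoImplicit false

namespace Pool.Agent.GT4

open Pool.Agent.GT2 Pool.Agent.GT3

namespace BADAux

/-- `N` is between the squares of `r` and `r + 1` -/
abbrev Ns (N r : ℤ) : Prop := 0 ≤ r ∧ r * r < N ∧ N < (r + 1) * (r + 1)

lemma Ns.not_sq {N r : ℤ} (h : Ns N r) : ¬ IsSquare N := by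
  rintro ⟨x, hx⟩
  obtain ⟨h0, h1, h2⟩ := h
  have h3 : r < |x| := by
    by_contra hc
    push Not at hc
    nlinarith [abs_mul_abs_self x, abs_nonneg x]
  have h4 : |x| < r + 1 := by
    by_contra hc
    push Not at hc
    nlinarith [abs_mul_abs_self x, abs_nonneg x]
  omega

/-- a member with a dihedral Galois group -/
abbrev Mb (q A B r s t : ℤ) : Prop :=
  0 ≤ B + 4 * q ∧ A * A ≤ 16 * q ∧ Ns (A * A - 4 * B) r ∧
    Ns ((B + 4 * q) * (B + 4 * q) - 4 * q * (A * A)) s ∧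
    Ns ((A * A - 4 * B) * ((B + 4 * q) * (B + 4 * q) - 4 * q * (A * A))) t ∧
    ¬ (q ∣ A * A ∧ q ∣ B)

lemma dd_eq (A B : ℤ) : DD A B = A * A - 4 * B := by
  unfold DD
  ring

lemma dp_eq (q : ℕ) (A B : ℤ) :
    DP q A B = (B + 4 * (q : ℤ)) * (B + 4 * (q : ℤ)) - 4 * (q : ℤ) * (A * A) := by
  unfold DP
  ring

lemma Mb.w {q : ℕ} {A B r s t : ℤ} (h : Mb q A B r s t) : W2 q A B := by
  obtain ⟨h1, h2, h3, h4, -, -⟩ := h
  refine ⟨?_, ?_, h1, ?_⟩
  · rw [dd_eq]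
    nlinarith [h3.1, h3.2.1]
  · rw [dp_eq]
    nlinarith [h4.1, h4.2.1]
  · rw [sq]
    exact h2

lemma Mb.g {q : ℕ} {A B r s t : ℤ} (h : Mb q A B r s t) : Gn q A B := by
  obtain ⟨-, -, h3, h4, h5, h6⟩ := h
  refine ⟨?_, ?_, ?_, ?_⟩
  · rw [dd_eq]
    exact Ns.not_sq h3
  · rw [dp_eq]
    exact Ns.not_sq h4
  · rw [dd_eq, dp_eq]
    exact Ns.not_sq h5
  · rintro ⟨h7, h8⟩
    rw [sq] at h7
    exact h6 ⟨h7, h8⟩

/-- the equations of a reflex pair -/
abbrev Eq (q A B A₁ B₁ n m w : ℤ) : Prop :=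
  n * n = (A * A - 4 * B) * ((B₁ + 4 * q) * (B₁ + 4 * q) - 4 * q * (A₁ * A₁)) ∧
    m * m = ((B + 4 * q) * (B + 4 * q) - 4 * q * (A * A)) * (A₁ * A₁ - 4 * B₁) ∧
    (A * A - 2 * B - 8 * q) * (A₁ * A₁ - 2 * B₁ - 8 * q) + 2 * A * n + 2 * A₁ * m = w * w ∧
    w ≠ 0

lemma rx {q : ℕ} {A B A₁ B₁ n m w r s t r₁ s₁ t₁ : ℤ} (h : Mb q A B r s t)
    (h₁ : Mb q A₁ B₁ r₁ s₁ t₁) (e : Eq q A B A₁ B₁ n m w) : Rx q A B A₁ B₁ := by
  refine ⟨h.g, h₁.g, n, m, w, ?_, ?_, ?_, fun h0 => absurd h0 e.2.2.2⟩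
  · rw [sq, dd_eq, dp_eq]
    exact e.1
  · rw [sq, dd_eq, dp_eq]
    exact e.2.1
  · rw [sq, sq, sq]
    exact e.2.2.1

/-- the conclusion -/
def Cn (q : ℕ) : Prop :=
  (∃ A B A₁ B₁ : ℤ, Tr q.minFac q A B ∧ Tr q.minFac q A₁ B₁ ∧ (q.minFac : ℤ) ∣ B₁ ∧
    Rx q A B A₁ B₁) ∨
  ∃ A B A₁ B₁ A₂ B₂ : ℤ, Tr q.minFac q A B ∧ Tr q.minFac q A₁ B₁ ∧ Tr q.minFac q A₂ B₂ ∧
    Rx q A B A₁ B₁ ∧ Rx q A B A₂ B₂ ∧ ¬ (B₂ = B₁ ∧ (A₂ = A₁ ∨ A₂ = - A₁))

/-- the conditions for a mixed pair -/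
abbrev Pc (q p A B A₁ B₁ n m w r s t r₁ s₁ t₁ : ℤ) : Prop :=
  Mb q A B r s t ∧ Mb q A₁ B₁ r₁ s₁ t₁ ∧ Eq q A B A₁ B₁ n m w ∧ ¬ p ∣ B ∧ p ∣ B₁ ∧ ¬ p ∣ A₁ ∧
    q ∣ B₁ * B₁

lemma pair (q p : ℕ) (hp : q.minFac = p) (A B A₁ B₁ n m w r s t r₁ s₁ t₁ : ℤ)
    (h : Pc q p A B A₁ B₁ n m w r s t r₁ s₁ t₁) (hs : ¬ PS p (DP q A₁ B₁)) : Cn q := by
  obtain ⟨h1, h2, h3, h4, h5, h6, h7⟩ := h
  left
  rw [hp]
  refine ⟨A, B, A₁, B₁, ⟨h1.w, Or.inl h4⟩, ⟨h2.w, Or.inr (Or.inl ⟨h5, h6, ?_, Or.inr hs⟩)⟩, h5,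
    rx h1 h2 h3⟩
  rw [sq]
  exact h7

lemma pair' (q p c : ℕ) (hq : IsPrimePow q) (hp : q.minFac = p) (hc : c * c < q)
    (hc' : q < (c + 1) * (c + 1)) (A B A₁ B₁ n m w r s t r₁ s₁ t₁ : ℤ)
    (h : Pc q p A B A₁ B₁ n m w r s t r₁ s₁ t₁) : Cn q := by
  refine pair q p hp A B A₁ B₁ n m w r s t r₁ s₁ t₁ h ?_
  obtain ⟨-, -, -, -, h5, h6, h7⟩ := h
  refine t_ODD p q (hp ▸ pq_of hq) ?_ A₁ B₁ h6 h5 (by rw [sq]; exact h7)
  rintro ⟨x, hx⟩
  rw [hx] at hc hc'
  have h8 := Nat.mul_self_lt_mul_self_iff.1 hc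
  have h9 := Nat.mul_self_lt_mul_self_iff.1 hc'
  omega

lemma trip (q p : ℕ) (hp : q.minFac = p)
    (A B A₁ B₁ A₂ B₂ n m w n' m' w' r s t r₁ s₁ t₁ r₂ s₂ t₂ : ℤ)
    (h : Mb q A B r s t ∧ Mb q A₁ B₁ r₁ s₁ t₁ ∧ Mb q A₂ B₂ r₂ s₂ t₂ ∧
      Eq q A B A₁ B₁ n m w ∧ Eq q A B A₂ B₂ n' m' w' ∧ ¬ (p : ℤ) ∣ B ∧ ¬ (p : ℤ) ∣ B₁ ∧
      ¬ (p : ℤ) ∣ B₂ ∧ ¬ (B₂ = B₁ ∧ (A₂ = A₁ ∨ A₂ = - A₁))) : Cn q := by
  obtain ⟨h1, h2, h3, h4, h5, h6, h7, h8, h9⟩ := h
  right
  rw [hp]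
  exact ⟨A, B, A₁, B₁, A₂, B₂, ⟨h1.w, Or.inl h6⟩, ⟨h2.w, Or.inl h7⟩, ⟨h3.w, Or.inl h8⟩,
    rx h1 h2 h4, rx h1 h3 h5, h9⟩

lemma not_ps {p : ℕ} {N : ℤ} (k M c : ℕ) (hM : p ^ k = M) (h0 : 0 < M) (hN : N % (M : ℤ) = c)
    (h : ∀ y < M, y * y % M ≠ c) : ¬ PS p N := by
  intro hP
  obtain ⟨x, hx⟩ := hP k
  have hx' : (M : ℤ) ∣ x ^ 2 - N := by
    rw [← hM]
    push_cast
    exact hx
  have h1 : x ^ 2 % (M : ℤ) = c := by
    rw [Int.emod_eq_emod_iff_emod_sub_eq_zero.2 (Int.emod_eq_zero_of_dvd hx'), hN]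
  have h2 : ((x % (M : ℤ)).toNat : ℤ) = x % (M : ℤ) := Int.toNat_of_nonneg
    (Int.emod_nonneg _ (by omega))
  have h3 : x % (M : ℤ) < M := Int.emod_lt_of_pos _ (by omega)
  refine h (x % (M : ℤ)).toNat (by omega) ?_
  have h4 : (((x % (M : ℤ)).toNat * (x % (M : ℤ)).toNat % M : ℕ) : ℤ) = (c : ℤ) := by
    push_cast
    rw [h2, ← Int.mul_emod, ← sq, h1]
  exact_mod_cast h4

/-- two different prime factors -/
lemma npp {q : ℕ} (a b : ℕ) (ha : a.Prime) (hb : b.Prime) (hab : a ≠ b) (h1 : a ∣ q)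
    (h2 : b ∣ q) : ¬ IsPrimePow q := by
  rintro ⟨p, k, hp, -, rfl⟩
  have hp' := hp.nat_prime
  exact hab (((Nat.prime_dvd_prime_iff_eq ha hp').1 (ha.dvd_of_dvd_pow h1)).trans
    ((Nat.prime_dvd_prime_iff_eq hb hp').1 (hb.dvd_of_dvd_pow h2)).symm)

lemma c2 (hq : IsPrimePow 2) : Cn 2 :=
  pair' 2 2 1 hq (by norm_num) (by norm_num) (by norm_num) (-2) (-1) (-1) (-4) 8 17 2 2 4 11 4 2 11
    (by decide)

lemma c4 (_ : IsPrimePow 4) : Cn 4 :=
  pair 4 2 (by norm_num) (-1) (-3) (-3) (-2) 26 (-51) 27 3 12 44 4 7 29 (by decide)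
    (not_ps 5 32 20 (by norm_num) (by norm_num) (by unfold DP; norm_num) (by decide))

lemma c5 (hq : IsPrimePow 5) : Cn 5 :=
  pair' 5 5 2 hq (by norm_num) (by norm_num) (by norm_num) (-3) 1 (-3) (-5) 15 87 9 2 16 36 5 6 36
    (by decide)

lemma c8 (hq : IsPrimePow 8) : Cn 8 :=
  pair' 8 2 2 hq (by norm_num) (by norm_num) (by norm_num) (-2) (-1) (-7) 8 (-16) 119 14 2 28 81 4 5 23
    (by decide)

lemma c9 (_ : IsPrimePow 9) : Cn 9 :=
  pair 9 3 (by norm_num) (-1) (-5) (-5) (-3) 63 (-185) 65 4 30 139 6 13 83 (by decide)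
    (not_ps 4 81 27 (by norm_num) (by norm_num) (by unfold DP; norm_num) (by decide))

lemma c13 (hq : IsPrimePow 13) : Cn 13 :=
  pair' 13 13 3 hq (by norm_num) (by norm_num) (by norm_num) (-1) (-3) (-9) 13 (-13) 261 9 3 48 174 5 3 19
    (by decide)

lemma c16 (_ : IsPrimePow 16) : Cn 16 :=
  pair 16 2 (by norm_num) (-1) (-7) (-7) (-4) 116 (-455) 119 5 56 303 8 21 173 (by decide)
    (not_ps 7 128 80 (by norm_num) (by norm_num) (by unfold DP; norm_num) (by decide))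

lemma c17 (hq : IsPrimePow 17) : Cn 17 :=
  pair' 17 17 4 hq (by norm_num) (by norm_num) (by norm_num) (-3) (-2) (-6) (-17) 51 624 18 4 61 252 10 12 126
    (by decide)

lemma c19 (_ : IsPrimePow 19) : Cn 19 :=
  trip 19 19 (by norm_num) (-3) (-29) (-9) 5 (-1) (-15) 225 (-305) 105 675 305 75 11 39 436 7 20 157 7 60 471 (by decide)

lemma c23 (_ : IsPrimePow 23) : Cn 23 :=
  trip 23 23 (by norm_num) (-7) (-6) (-6) (-9) (-2) (-71) 511 456 58 73 912 2 8 53 459 8 59 507 16 8 144 (by decide)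

lemma c25 (_ : IsPrimePow 25) : Cn 25 :=
  pair 25 5 (by norm_num) (-1) (-9) (-9) (-5) 185 (-909) 189 6 90 550 10 30 305 (by decide)
    (not_ps 3 125 50 (by norm_num) (by norm_num) (by unfold DP; norm_num) (by decide))

lemma c29 (hq : IsPrimePow 29) : Cn 29 :=
  pair' 29 29 5 hq (by norm_num) (by norm_num) (by norm_num) (-7) 5 (-13) 29 (-203) 689 91 5 94 509 7 37 274
    (by decide)

lemma c31 (_ : IsPrimePow 31) : Cn 31 :=
  trip 31 31 (by norm_num) (-9) (-11) (-11) 3 (-9) (-7) (-375) (-545) 195 675 545 15 11 52 583 10 33 350 10 60 630 (by decide)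

lemma c32 (hq : IsPrimePow 32) : Cn 32 :=
  pair' 32 2 5 hq (by norm_num) (by norm_num) (by norm_num) (-10) 7 (-5) (-48) 480 1085 50 8 73 624 14 56 833
    (by decide)

lemma c37 (hq : IsPrimePow 37) : Cn 37 :=
  pair' 37 37 6 hq (by norm_num) (by norm_num) (by norm_num) (-3) (-7) (-9) (-37) 111 2061 27 6 136 828 15 18 276
    (by decide)

lemma c41 (hq : IsPrimePow 41) : Cn 41 :=
  pair' 41 41 6 hq (by norm_num) (by norm_num) (by norm_num) (-1) (-10) (-16) 41 (-41) 1472 16 6 153 982 9 6 61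
    (by decide)

lemma c47 (_ : IsPrimePow 47) : Cn 47 :=
  trip 47 47 (by norm_num) (-10) 23 (-7) (-10) (-2) (-88) 424 (-1513) 334 (-272) (-3026) 284 2 160 453 9 149 1414 18 96 1814 (by decide)

set_option maxRecDepth 20000 in
lemma c49 (_ : IsPrimePow 49) : Cn 49 :=
  pair 49 7 (by norm_num) (-3) (-13) (-15) 21 (-427) (-2115) 375 7 178 1391 11 54 649 (by decide)
    (not_ps 3 343 245 (by norm_num) (by norm_num) (by unfold DP; norm_num) (by decide))

lemma c53 (hq : IsPrimePow 53) : Cn 53 :=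
  pair' 53 53 7 hq (by norm_num) (by norm_num) (by norm_num) (-13) 29 (-17) 53 (-689) 1309 221 7 149 1086 8 94 830
    (by decide)

lemma c59 (_ : IsPrimePow 59) : Cn 59 :=
  trip 59 59 (by norm_num) (-9) 16 (-13) 8 (-19) 56 (-578) 2466 285 34 2466 3 4 210 868 11 140 1640 11 8 96 (by decide)

lemma c61 (hq : IsPrimePow 61) : Cn 61 :=
  pair' 61 61 7 hq (by norm_num) (by norm_num) (by norm_num) (-9) 5 (-19) 61 (-549) 2223 171 7 205 1605 10 70 760
    (by decide)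

end BADAux

open BADAux in
theorem t_BAD : S_BAD := by
  intro q hq h h3 h7 h11 h27 h43
  change Cn q
  interval_cases q
  · exact absurd hq not_isPrimePow_zero
  · exact absurd hq not_isPrimePow_one
  · exact c2 hq
  · exact absurd rfl h3
  · exact c4 hq
  · exact c5 hq
  · exact absurd hq (npp 2 3 (by norm_num) (by norm_num) (by norm_num) (by norm_num) (by norm_num))
  · exact absurd rfl h7
  · exact c8 hq
  · exact c9 hq
  · exact absurd hq (npp 2 5 (by norm_num) (by norm_num) (by norm_num) (by norm_num) (by norm_num))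
  · exact absurd rfl h11
  · exact absurd hq (npp 2 3 (by norm_num) (by norm_num) (by norm_num) (by norm_num) (by norm_num))
  · exact c13 hq
  · exact absurd hq (npp 2 7 (by norm_num) (by norm_num) (by norm_num) (by norm_num) (by norm_num))
  · exact absurd hq (npp 3 5 (by norm_num) (by norm_num) (by norm_num) (by norm_num) (by norm_num))
  · exact c16 hq
  · exact c17 hq
  · exact absurd hq (npp 2 3 (by norm_num) (by norm_num) (by norm_num) (by norm_num) (by norm_num))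
  · exact c19 hq
  · exact absurd hq (npp 2 5 (by norm_num) (by norm_num) (by norm_num) (by norm_num) (by norm_num))
  · exact absurd hq (npp 3 7 (by norm_num) (by norm_num) (by norm_num) (by norm_num) (by norm_num))
  · exact absurd hq (npp 2 11 (by norm_num) (by norm_num) (by norm_num) (by norm_num) (by norm_num))
  · exact c23 hq
  · exact absurd hq (npp 2 3 (by norm_num) (by norm_num) (by norm_num) (by norm_num) (by norm_num))
  · exact c25 hq
  · exact absurd hq (npp 2 13 (by norm_num) (by norm_num) (by norm_num) (by norm_num) (by norm_num))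
  · exact absurd rfl h27
  · exact absurd hq (npp 2 7 (by norm_num) (by norm_num) (by norm_num) (by norm_num) (by norm_num))
  · exact c29 hq
  · exact absurd hq (npp 2 3 (by norm_num) (by norm_num) (by norm_num) (by norm_num) (by norm_num))
  · exact c31 hq
  · exact c32 hq
  · exact absurd hq (npp 3 11 (by norm_num) (by norm_num) (by norm_num) (by norm_num) (by norm_num))
  · exact absurd hq (npp 2 17 (by norm_num) (by norm_num) (by norm_num) (by norm_num) (by norm_num))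
  · exact absurd hq (npp 5 7 (by norm_num) (by norm_num) (by norm_num) (by norm_num) (by norm_num))
  · exact absurd hq (npp 2 3 (by norm_num) (by norm_num) (by norm_num) (by norm_num) (by norm_num))
  · exact c37 hq
  · exact absurd hq (npp 2 19 (by norm_num) (by norm_num) (by norm_num) (by norm_num) (by norm_num))
  · exact absurd hq (npp 3 13 (by norm_num) (by norm_num) (by norm_num) (by norm_num) (by norm_num))
  · exact absurd hq (npp 2 5 (by norm_num) (by norm_num) (by norm_num) (by norm_num) (by norm_num))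
  · exact c41 hq
  · exact absurd hq (npp 2 3 (by norm_num) (by norm_num) (by norm_num) (by norm_num) (by norm_num))
  · exact absurd rfl h43
  · exact absurd hq (npp 2 11 (by norm_num) (by norm_num) (by norm_num) (by norm_num) (by norm_num))
  · exact absurd hq (npp 3 5 (by norm_num) (by norm_num) (by norm_num) (by norm_num) (by norm_num))
  · exact absurd hq (npp 2 23 (by norm_num) (by norm_num) (by norm_num) (by norm_num) (by norm_num))
  · exact c47 hq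
  · exact absurd hq (npp 2 3 (by norm_num) (by norm_num) (by norm_num) (by norm_num) (by norm_num))
  · exact c49 hq
  · exact absurd hq (npp 2 5 (by norm_num) (by norm_num) (by norm_num) (by norm_num) (by norm_num))
  · exact absurd hq (npp 3 17 (by norm_num) (by norm_num) (by norm_num) (by norm_num) (by norm_num))
  · exact absurd hq (npp 2 13 (by norm_num) (by norm_num) (by norm_num) (by norm_num) (by norm_num))
  · exact c53 hq
  · exact absurd hq (npp 2 3 (by norm_num) (by norm_num) (by norm_num) (by norm_num) (by norm_num))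
  · exact absurd hq (npp 5 11 (by norm_num) (by norm_num) (by norm_num) (by norm_num) (by norm_num))
  · exact absurd hq (npp 2 7 (by norm_num) (by norm_num) (by norm_num) (by norm_num) (by norm_num))
  · exact absurd hq (npp 3 19 (by norm_num) (by norm_num) (by norm_num) (by norm_num) (by norm_num))
  · exact absurd hq (npp 2 29 (by norm_num) (by norm_num) (by norm_num) (by norm_num) (by norm_num))
  · exact c59 hq
  · exact absurd hq (npp 2 3 (by norm_num) (by norm_num) (by norm_num) (by norm_num) (by norm_num))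
  · exact c61 hq
  · exact absurd hq (npp 2 31 (by norm_num) (by norm_num) (by norm_num) (by norm_num) (by norm_num))
  · exact absurd hq (npp 3 7 (by norm_num) (by norm_num) (by norm_num) (by norm_num) (by norm_num))

end Pool.Agent.GT4
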