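import Pool.Agent.GT4.BAD

/-!
# GT4, module BAD2 (helper88): triples of ordinary surfaces over the fields with `q` elements, `q` congruent to `3` modulo `4`, `64 ≤ q < 243`
-/

set_option autoImplicit false

namespace Pool.Agent.GT4

open Pool.Agent.GT2 Pool.Agent.GT3

namespace BADAux

lemma d67 : Cn 67 :=
  trip 67 67 (by norm_num) 4 (-144) 9 1 21 91 5476 924 408 (-2516) 924 288 24 105 2562 8 225 1974 8 103 907
    (by decide)

lemma d71 : Cn 71 :=
  trip 71 71 (by norm_num) 1 (-178) 2 (-241) 8 (-112) (-713) 3256 170 2852 (-2368) 164 26 104 2794 31 26 830 22 106 2416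
    (by decide)

lemma d79 : Cn 79 :=
  trip 79 79 (by norm_num) 1 (-290) 2 (-249) 10 (-135) 1935 (-600) 90 1161 (-480) 78 34 18 646 31 56 1795 25 34 861
    (by decide)

lemma d83 : Cn 83 :=
  trip 83 83 (by norm_num) 2 (-151) 18 64 19 86 5472 1462 492 (-5776) 731 418 24 177 4371 8 221 1829 4 234 965
    (by decide)

lemma d103 : Cn 103 :=
  trip 103 103 (by norm_num) 1 (-344) 2 (-51) 8 (-192) (-13311) (-936) 258 (-5508) 1872 264 37 64 2408 14 358 5173 28 148 4281
    (by decide)

lemma d107 : Cn 107 :=
  trip 107 107 (by norm_num) 7 (-69) 17 7 27 175 (-4615) (-5307) 379 4095 1769 687 18 328 5922 16 255 4135 5 227 1223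
    (by decide)

lemma d127 : Cn 127 :=
  trip 127 127 (by norm_num) 1 (-393) 25 117 29 171 10725 1413 485 (-7293) 1413 431 39 112 4472 12 270 3388 12 183 2304
    (by decide)

lemma d131 : Cn 131 :=
  trip 131 131 (by norm_num) 1 (-337) 31 209 43 461 (-6745) (-2075) 215 1349 415 289 36 185 6816 11 183 2053 2 36 82
    (by decide)

lemma d139 : Cn 139 :=
  trip 139 139 (by norm_num) 1 (-453) 7 (-267) 11 (-249) 10101 3351 419 (-6993) 3351 401 42 100 4269 33 237 7928 33 164 5488
    (by decide)

lemma d151 : Cn 151 :=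
  trip 151 151 (by norm_num) 1 (-531) 3 (-255) 17 25 (-15725) (-2205) 235 (-21675) (-945) 255 46 68 3168 32 341 10942 13 470 6464
    (by decide)

lemma d163 : Cn 163 :=
  trip 163 163 (by norm_num) 2 (-599) 5 (-446) 10 (-176) (-7920) (-603) 42 (-19680) (-402) 12 48 14 694 42 161 6876 28 401 11390
    (by decide)

lemma d167 : Cn 167 :=
  trip 167 167 (by norm_num) 4 (-508) 9 (-38) 23 74 (-26496) (-1864) 336 (-20096) 1864 464 45 122 5526 15 585 8937 15 444 6778
    (by decide)

lemma d179 : Cn 179 :=
  trip 179 179 (by norm_num) 1 (-661) 1 (-577) 5 (-571) 7015 2309 221 (-2875) 2309 215 51 48 2471 48 136 6554 48 55 2686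
    (by decide)

lemma d191 : Cn 191 :=
  trip 191 191 (by norm_num) 14 (-376) 26 (-31) 34 239 (-5950) (-800) 500 (-14450) 400 340 41 28 1166 28 144 4081 14 350 4956
    (by decide)

lemma d199 : Cn 199 :=
  trip 199 199 (by norm_num) 1 (-668) 8 (-417) 31 132 15741 (-5196) 354 16038 (-2598) 315 51 124 6454 41 304 12670 20 310 6454
    (by decide)

lemma d211 : Cn 211 :=
  trip 211 211 (by norm_num) 1 (-776) 1 (-656) 14 (-371) 10350 (-3150) 255 13455 (-2520) 240 55 61 3425 51 185 9516 40 241 9897
    (by decide)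

lemma d223 : Cn 223 :=
  trip 223 223 (by norm_num) 2 (-832) 4 (-124) 16 (-64) 43792 (-128) 592 39032 128 568 57 5 326 22 758 17166 22 676 15300
    (by decide)

lemma d227 : Cn 227 :=
  trip 227 227 (by norm_num) 1 (-877) 1 (-331) 13 (-289) 34133 265 373 28391 265 359 59 7 431 36 576 20974 36 479 17446
    (by decide)

lemma d239 : Cn 239 :=
  trip 239 239 (by norm_num) 1 (-697) 47 521 59 869 (-13945) (-2875) 295 2789 575 401 52 257 13580 11 264 2952 2 52 118
    (by decide)

end BADAux

open BADAux in
/-- the fields with `q` elements, `q` congruent to `3` modulo `4`, `64 ≤ q < 243` -/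
theorem t_BAD2 : ∀ q : ℕ, IsPrimePow q → q % 4 = 3 → 64 ≤ q → q < 243 →
    (∃ A B A₁ B₁ : ℤ, Tr q.minFac q A B ∧ Tr q.minFac q A₁ B₁ ∧ (q.minFac : ℤ) ∣ B₁ ∧
      Rx q A B A₁ B₁) ∨
    ∃ A B A₁ B₁ A₂ B₂ : ℤ, Tr q.minFac q A B ∧ Tr q.minFac q A₁ B₁ ∧ Tr q.minFac q A₂ B₂ ∧
      Rx q A B A₁ B₁ ∧ Rx q A B A₂ B₂ ∧ ¬ (B₂ = B₁ ∧ (A₂ = A₁ ∨ A₂ = - A₁)) := by
  intro q hq h4 h1 h2
  change Cn q
  obtain ⟨k, hk⟩ : ∃ k, q = 4 * k + 3 := ⟨q / 4, by omega⟩
  have k1 : 16 ≤ k := by omega
  have k2 : k < 60 := by omega
  subst hk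
  interval_cases k
  · exact d67
  · exact d71
  · exact absurd hq (npp 3 5 (by norm_num) (by norm_num) (by norm_num) (by norm_num) (by norm_num))
  · exact d79
  · exact d83
  · exact absurd hq (npp 3 29 (by norm_num) (by norm_num) (by norm_num) (by norm_num) (by norm_num))
  · exact absurd hq (npp 7 13 (by norm_num) (by norm_num) (by norm_num) (by norm_num) (by norm_num))
  · exact absurd hq (npp 5 19 (by norm_num) (by norm_num) (by norm_num) (by norm_num) (by norm_num))
  · exact absurd hq (npp 3 11 (by norm_num) (by norm_num) (by norm_num) (by norm_num) (by norm_num))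
  · exact d103
  · exact d107
  · exact absurd hq (npp 3 37 (by norm_num) (by norm_num) (by norm_num) (by norm_num) (by norm_num))
  · exact absurd hq (npp 5 23 (by norm_num) (by norm_num) (by norm_num) (by norm_num) (by norm_num))
  · exact absurd hq (npp 7 17 (by norm_num) (by norm_num) (by norm_num) (by norm_num) (by norm_num))
  · exact absurd hq (npp 3 41 (by norm_num) (by norm_num) (by norm_num) (by norm_num) (by norm_num))
  · exact d127
  · exact d131
  · exact absurd hq (npp 3 5 (by norm_num) (by norm_num) (by norm_num) (by norm_num) (by norm_num))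
  · exact d139
  · exact absurd hq (npp 11 13 (by norm_num) (by norm_num) (by norm_num) (by norm_num) (by norm_num))
  · exact absurd hq (npp 3 7 (by norm_num) (by norm_num) (by norm_num) (by norm_num) (by norm_num))
  · exact d151
  · exact absurd hq (npp 5 31 (by norm_num) (by norm_num) (by norm_num) (by norm_num) (by norm_num))
  · exact absurd hq (npp 3 53 (by norm_num) (by norm_num) (by norm_num) (by norm_num) (by norm_num))
  · exact d163
  · exact d167
  · exact absurd hq (npp 3 19 (by norm_num) (by norm_num) (by norm_num) (by norm_num) (by norm_num))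
  · exact absurd hq (npp 5 7 (by norm_num) (by norm_num) (by norm_num) (by norm_num) (by norm_num))
  · exact d179
  · exact absurd hq (npp 3 61 (by norm_num) (by norm_num) (by norm_num) (by norm_num) (by norm_num))
  · exact absurd hq (npp 11 17 (by norm_num) (by norm_num) (by norm_num) (by norm_num) (by norm_num))
  · exact d191
  · exact absurd hq (npp 3 5 (by norm_num) (by norm_num) (by norm_num) (by norm_num) (by norm_num))
  · exact d199
  · exact absurd hq (npp 7 29 (by norm_num) (by norm_num) (by norm_num) (by norm_num) (by norm_num))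
  · exact absurd hq (npp 3 23 (by norm_num) (by norm_num) (by norm_num) (by norm_num) (by norm_num))
  · exact d211
  · exact absurd hq (npp 5 43 (by norm_num) (by norm_num) (by norm_num) (by norm_num) (by norm_num))
  · exact absurd hq (npp 3 73 (by norm_num) (by norm_num) (by norm_num) (by norm_num) (by norm_num))
  · exact d223
  · exact d227
  · exact absurd hq (npp 3 7 (by norm_num) (by norm_num) (by norm_num) (by norm_num) (by norm_num))
  · exact absurd hq (npp 5 47 (by norm_num) (by norm_num) (by norm_num) (by norm_num) (by norm_num))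
  · exact d239

end Pool.Agent.GT4
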