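import Pool.Agent.GT4.St
import Pool.Agent.GT2.SQF

/-!
# GT4, module CFH (helper9): from the integers to the Galois group
-/

set_option autoImplicit false

namespace Pool.Agent.GT4

open Pool.Agent.GT2 Pool.Agent.GT3 Pool.Agent.GT2.SQFAux

noncomputable section

namespace CFHAux

variable {L : Type} [Field L] [NumberField L] {q : ℕ} {A B : ℤ} {a : L}

/-- the square of `a - q / a` -/
lemma two_sq (hq : 1 ≤ q) (ha : Rt q A B a) :
    2 * (a - (q : L) / a) ^ 2 =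
      ((A : L) ^ 2 - 2 * B - 8 * q) - A * (2 * (a + (q : L) / a) + A) := by
  rw [sub_sq hq ha.1]
  linear_combination 2 * ha.2

lemma id_u (q : ℕ) (A B : ℤ) :
    (A ^ 2 - 2 * B - 8 * q) ^ 2 - A ^ 2 * DD A B = 4 * DP q A B := by
  unfold DD DP
  ring

omit [NumberField L] in
lemma id_uL (q : ℕ) (A B : ℤ) :
    ((A : L) ^ 2 - 2 * B - 8 * q) ^ 2 - (A : L) ^ 2 * ((DD A B : ℤ) : L) =
      4 * ((DP q A B : ℤ) : L) := by
  have h := congrArg (fun z : ℤ => (z : L)) (id_u q A B)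
  push_cast at h
  exact h

lemma ne_zero_of_not_isSquare {N : ℤ} (h : ¬ IsSquare N) : N ≠ 0 := by
  rintro rfl
  exact h ⟨0, by ring⟩

lemma cast_ne_zero_of {N : ℤ} (h : ¬ IsSquare N) : (N : L) ≠ 0 :=
  Int.cast_ne_zero.2 (ne_zero_of_not_isSquare h)

/-- `a - q / a` is not zero -/
lemma s_ne (hq : 1 ≤ q) (ha : Rt q A B a) (h : ¬ IsSquare (DP q A B)) :
    a - (q : L) / a ≠ 0 := by
  intro h0
  have h1 := two_sq hq ha
  rw [h0] at h1
  have h2 := ha.disc
  have h3 := id_uL (L := L) q A B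
  apply cast_ne_zero_of (L := L) h
  obtain ⟨r, hr⟩ : ∃ r, r = 2 * (a + (q : L) / a) + A := ⟨_, rfl⟩
  rw [← hr] at h1 h2
  rw [← h2] at h3
  have h4 : ((A : L) ^ 2 - 2 * B - 8 * q) = A * r := by linear_combination -h1
  rw [h4] at h3
  linear_combination (-1 / 4) * h3

end CFHAux

open CFHAux in
theorem t_CFH : M_CFH := by
  intro hSQF L _ _ _ q hq A B A₁ B₁ a a₁ ha ha₁ hRx hc
  obtain ⟨⟨g1, g2, g3, -⟩, ⟨k1, k2, k3, -⟩, n, m, w, hn, hm, hw, hw0⟩ := hRx
  have hD0 : ((DD A B : ℤ) : L) ≠ 0 := cast_ne_zero_of g1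
  have hD10 : ((DD A₁ B₁ : ℤ) : L) ≠ 0 := cast_ne_zero_of k1
  have hr := ha.disc
  have hr₁ := ha₁.disc
  have hs0 := s_ne hq ha g2
  have hs10 := s_ne hq ha₁ k2
  have hs := two_sq hq ha
  have hs1 := two_sq hq ha₁
  constructor
  · -- the conjugate of `a₁`
    obtain ⟨x, hx0, hx, hnx⟩ : ∃ x : L, x ≠ 0 ∧ x + (q : L) / x = - A₁ - (a₁ + q / a₁) ∧
        (2 * (a + (q : L) / a) + A) * ((a₁ - (q : L) / a₁) * (x - (q : L) / x)) = - (n : L) := by
      obtain ⟨σ₀, hσ₀⟩ : ∃ σ₀ : L ≃ₐ[ℚ] L,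
          σ₀ (2 * (a₁ + (q : L) / a₁) + A₁) = -(2 * (a₁ + (q : L) / a₁) + A₁) := by
        by_contra hcon
        push Not at hcon
        apply k1
        refine sq_of_fixed (fun σ => ?_) hr₁
        rcases map_pm hr₁ σ with h | h
        · exact h
        · exact absurd h (hcon σ)
      have hx : σ₀ a₁ + (q : L) / σ₀ a₁ = - A₁ - (a₁ + q / a₁) :=
        tr_neg (map_tr σ₀ a₁) hσ₀
      have hdp := Rt.dp hq ha₁ (ha₁.map σ₀).1 hx
      have h1 : ((2 * (a + (q : L) / a) + A) *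
          ((a₁ - (q : L) / a₁) * (σ₀ a₁ - (q : L) / σ₀ a₁))) ^ 2 = (n : L) ^ 2 := by
        rw [mul_pow, hdp, hr]
        have := congrArg (fun z : ℤ => (z : L)) hn
        push_cast at this
        rw [this]
      rcases sq_eq_sq_iff_eq_or_eq_neg.1 h1 with h2 | h2
      · refine ⟨(q : L) / σ₀ a₁, bar_ne hq (ha₁.map σ₀).1, ?_, ?_⟩
        · rw [bar_add hq (ha₁.map σ₀).1]
          exact hx
        · rw [d_bar hq (ha₁.map σ₀).1, ← h2]
          ring
      · exact ⟨σ₀ a₁, (ha₁.map σ₀).1, hx, h2⟩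
    have hdp := Rt.dp hq ha₁ hx0 hx
    have hs2 := two_sq hq (Rt.other ha₁ hx0 hx)
    rw [hx] at hs2
    -- names
    obtain ⟨r, hrd⟩ : ∃ r, r = 2 * (a + (q : L) / a) + A := ⟨_, rfl⟩
    obtain ⟨r₁, hrd₁⟩ : ∃ r₁, r₁ = 2 * (a₁ + (q : L) / a₁) + A₁ := ⟨_, rfl⟩
    obtain ⟨s, hsd⟩ : ∃ s, s = a - (q : L) / a := ⟨_, rfl⟩
    obtain ⟨s₁, hsd₁⟩ : ∃ s₁, s₁ = a₁ - (q : L) / a₁ := ⟨_, rfl⟩
    obtain ⟨s₂, hsd₂⟩ : ∃ s₂, s₂ = x - (q : L) / x := ⟨_, rfl⟩
    obtain ⟨u, hud⟩ : ∃ u : L, u = (A : L) ^ 2 - 2 * B - 8 * q := ⟨_, rfl⟩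
    obtain ⟨u₁, hud₁⟩ : ∃ u₁ : L, u₁ = (A₁ : L) ^ 2 - 2 * B₁ - 8 * q := ⟨_, rfl⟩
    have hs2' : 2 * s₂ ^ 2 = u₁ + A₁ * r₁ := by
      rw [hsd₂, hs2, hrd₁, hud₁]
      ring
    rw [← hrd] at hr hs hnx
    rw [← hrd₁] at hr₁ hs1
    rw [← hsd] at hs0 hs
    rw [← hsd₁] at hs10 hs1 hdp hnx
    rw [← hsd₂] at hdp hnx
    rw [← hud] at hs
    rw [← hud₁] at hs1
    have hu : u ^ 2 - (A : L) ^ 2 * r ^ 2 = 4 * ((DP q A B : ℤ) : L) := by
      rw [hud, hr]
      exact id_uL q A B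
    have hu₁ : u₁ ^ 2 - (A₁ : L) ^ 2 * r₁ ^ 2 = 4 * ((DP q A₁ B₁ : ℤ) : L) := by
      rw [hud₁, hr₁]
      exact id_uL q A₁ B₁
    have hr0 : r ≠ 0 := by
      rintro rfl
      apply hD0
      rw [← hr]
      ring
    have hr10 : r₁ ≠ 0 := by
      rintro rfl
      apply hD10
      rw [← hr₁]
      ring
    have hmL : (m : L) ^ 2 = ((DP q A B : ℤ) : L) * r₁ ^ 2 := by
      rw [hr₁]
      have := congrArg (fun z : ℤ => (z : L)) hm
      push_cast at this
      exact this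
    have hwL : u * u₁ + 2 * A * n + 2 * A₁ * m = (w : L) ^ 2 := by
      rw [hud, hud₁]
      have := congrArg (fun z : ℤ => (z : L)) hw
      push_cast at this
      exact this
    -- the element `y`
    obtain ⟨y, hyd⟩ : ∃ y, y = s * (s₁ + s₂) := ⟨_, rfl⟩
    obtain ⟨δ, hδ⟩ : ∃ δ, δ = s₁ * s₂ := ⟨_, rfl⟩
    rw [← hδ] at hnx hdp
    obtain ⟨W, hWd⟩ : ∃ W, W = u * u₁ + 2 * A * n := ⟨_, rfl⟩
    obtain ⟨γ, hγd⟩ : ∃ γ, γ = 2 * u * δ - A * u₁ * r := ⟨_, rfl⟩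
    have hy : 2 * y ^ 2 = W + γ := by
      have h1 : y ^ 2 = s ^ 2 * (s₁ ^ 2 + s₂ ^ 2 + 2 * δ) := by
        rw [hyd, hδ]
        ring
      have h2 : 2 * (s₁ ^ 2 + s₂ ^ 2) = 2 * u₁ := by linear_combination hs1 + hs2'
      have h3 : s₁ ^ 2 + s₂ ^ 2 = u₁ := by linear_combination (1 / 2) * h2
      rw [h1, h3, hWd, hγd]
      linear_combination (u₁ + 2 * δ) * hs - 2 * A * hnx
    have hWγ : W ^ 2 - γ ^ 2 = 4 * (A₁ : L) ^ 2 * (m : L) ^ 2 := by
      have h1 : W + γ = (u - A * r) * (u₁ + 2 * δ) := by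
        rw [hWd, hγd]
        linear_combination 2 * A * hnx
      have h2 : W - γ = (u + A * r) * (u₁ - 2 * δ) := by
        rw [hWd, hγd]
        linear_combination 2 * A * hnx
      have h3 : W ^ 2 - γ ^ 2 = (u ^ 2 - (A : L) ^ 2 * r ^ 2) * (u₁ ^ 2 - 4 * δ ^ 2) := by
        have : W ^ 2 - γ ^ 2 = (W + γ) * (W - γ) := by ring
        rw [this, h1, h2]
        ring
      rw [h3, hu, hdp, hmL]
      linear_combination 4 * ((DP q A B : ℤ) : L) * hu₁
    have hfix : ∀ τ : L ≃ₐ[ℚ] L, τ r = r → τ δ = δ → τ y = y := by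
      intro τ hτr hτδ
      have hτu : τ u = u := by
        rw [hud]
        simp only [map_sub, map_mul, map_pow, map_intCast, map_natCast, map_ofNat]
      have hτu₁ : τ u₁ = u₁ := by
        rw [hud₁]
        simp only [map_sub, map_mul, map_pow, map_intCast, map_natCast, map_ofNat]
      have hτγ : τ γ = γ := by
        rw [hγd]
        simp only [map_sub, map_mul, map_intCast, map_ofNat, hτu, hτu₁, hτr, hτδ]
      by_cases hw00 : w = 0
      · have hW : W = - (2 * A₁ * m) := by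
          rw [hw00] at hwL
          rw [hWd]
          push_cast at hwL
          linear_combination hwL
        have hγ0 : γ = 0 := by
          have h1 : γ ^ 2 = 0 := by
            rw [hW] at hWγ
            linear_combination -hWγ
          exact pow_eq_zero_iff (two_ne_zero) |>.1 h1
        have h2 : (y * r) ^ 2 = ((-(DD A B * A₁ * m) : ℤ) : L) := by
          rw [mul_pow, hr]
          push_cast
          rw [hγ0, hW] at hy
          linear_combination (1 / 2) * ((DD A B : ℤ) : L) * hy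
        have h3 := fixed_of_sq (hw0 hw00) h2 τ
        rw [map_mul, hτr] at h3
        exact mul_right_cancel₀ hr0 h3
      · have hwL0 : (w : L) ≠ 0 := Int.cast_ne_zero.2 hw00
        have h1 : (2 * w * y) ^ 2 = ((w : L) ^ 2 + γ) ^ 2 := by
          have h2 : (w : L) ^ 2 = W + 2 * A₁ * m := by
            rw [← hwL, hWd]
          have h3 : (2 * w * y) ^ 2 = 2 * (w : L) ^ 2 * (2 * y ^ 2) := by ring
          rw [h3, hy, h2]
          linear_combination hWγ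
        have h4 : τ (2 * w * y) = 2 * w * y := by
          rcases sq_eq_sq_iff_eq_or_eq_neg.1 h1 with h2 | h2
          · rw [h2, map_add, map_pow, map_intCast, hτγ]
          · rw [h2, map_neg, map_add, map_pow, map_intCast, hτγ]
        rw [map_mul, map_mul, map_ofNat, map_intCast] at h4
        exact mul_left_cancel₀ (mul_ne_zero two_ne_zero hwL0) h4
    intro τ hτa hτa₁
    have hτr : τ r = r := by
      rw [hrd, map_add, map_mul, map_ofNat, map_intCast, map_tr, hτa]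
    have hτδ : τ δ = δ := by
      have h1 := congrArg τ hnx
      rw [map_mul, hτr, map_neg, map_intCast, ← hnx] at h1
      exact mul_left_cancel₀ hr0 h1
    have hτy := hfix τ hτr hτδ
    have hτs : τ s = s := by rw [hsd, map_d, hτa]
    have hτw : τ s₁ + τ s₂ = s₁ + s₂ := by
      rw [hyd, map_mul, map_add, hτs] at hτy
      exact mul_left_cancel₀ hs0 hτy
    have hτs₁ : τ s₁ = - s₁ := by
      rw [hsd₁, map_d, hτa₁, d_bar hq ha₁.1]
      ring
    rw [hτs₁] at hτw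
    have hτs₂ : τ s₂ = 2 * s₁ + s₂ := by linear_combination hτw
    rw [hδ, map_mul, hτs₁, hτs₂] at hτδ
    have h1 : s₁ * (s₁ + s₂) = 0 := by linear_combination (-1 / 2) * hτδ
    rcases mul_eq_zero.1 h1 with h2 | h2
    · exact hs10 h2
    · have h3 : s₂ = - s₁ := by linear_combination h2
      rw [h3] at hs2'
      have h4 : (A₁ : L) * r₁ = 0 := by linear_combination (1 / 2) * (hs1 - hs2')
      rcases mul_eq_zero.1 h4 with h5 | h5
      · apply k2
        have h6 : A₁ = 0 := by exact_mod_cast h5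
        rw [h6]
        exact ⟨B₁ + 4 * q, by unfold DP; ring⟩
      · exact hr10 h5
  · by_contra hcon
    push Not at hcon
    obtain ⟨-, z, hz⟩ := hSQF L q hq A B A₁ B₁ a a₁ ha ha₁ g1 k1 hc hcon
    apply g3
    have hP0 : DP q A₁ B₁ ≠ 0 := ne_zero_of_not_isSquare k2
    have h1 : (DD A B * DP q A B) * DP q A₁ B₁ ^ 2 = (n * z) ^ 2 := by
      have : (n * z) ^ 2 = n ^ 2 * (z * z) := by ring
      rw [this, ← hz, hn]
      ring
    have h2 : DP q A₁ B₁ ^ 2 ∣ (n * z) ^ 2 :=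
      ⟨DD A B * DP q A B, by rw [← h1]; ring⟩
    obtain ⟨e, he⟩ := (Int.pow_dvd_pow_iff two_ne_zero).1 h2
    refine ⟨e, ?_⟩
    rw [he] at h1
    have h3 : DP q A₁ B₁ ^ 2 ≠ 0 := pow_ne_zero 2 hP0
    apply mul_right_cancel₀ h3
    rw [h1]
    ring

end

end Pool.Agent.GT4
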