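import Pool.Agent.GT4.St

/-!
# GT4: module CFX, the Galois configuration
-/

set_option autoImplicit false

open Polynomial

namespace Pool.Agent.GT4

open Pool.Agent.GT2 Pool.Agent.GT3

noncomputable section

/-- CFX. -/
theorem t_CFX : M_CFX := by
  intro hCON hRXS hCFH L _ _ _ q hq A B A₁ B₁ a a₁ hW hW₁ ha ha₁ hR
  obtain ⟨c, hc⟩ := hCON L
  have hca := hc q A B a hq hW ha
  have hca₁ := hc q A₁ B₁ a₁ hq hW₁ ha₁
  obtain ⟨h1, h2⟩ := hCFH L q hq A B A₁ B₁ a a₁ ha ha₁ hR ⟨c, hca, hca₁⟩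
  obtain ⟨h3, h4⟩ := hCFH L q hq A₁ B₁ A B a₁ a ha₁ ha (hRXS q A B A₁ B₁ hR) ⟨c, hca₁, hca⟩
  exact {
    ra := ha
    ra₁ := ha₁
    d := hR.1.1
    dp := hR.1.2.1
    d₁ := hR.2.1.1
    dp₁ := hR.2.1.2.1
    c := ⟨c, fun z hz => hz.elim (hc q A B z hq hW) (hc q A₁ B₁ z hq hW₁)⟩
    n₁ := h1
    n := h3
    e₁ := h2
    e := h4 }

end

end Pool.Agent.GT4
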