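import Pool.Agent.GT4.St

/-!
# GT4.DOM: a dominant embedding makes `r` rational over `ℚ_p` (helper37)
-/

set_option autoImplicit false

open Pool.Agent.GT2 Pool.Agent.GT3

namespace Pool.Agent.GT4

noncomputable section

namespace DOMAux

variable {L : Type} [Field L] {v : AbsoluteValue L ℝ} {p : ℕ}

lemma nat_le (hv : IsNonarchimedean v) (n : ℕ) : v (n : L) ≤ 1 := by
  induction n with
  | zero => simp
  | succ n ih =>
    rw [Nat.cast_succ]
    refine (hv _ _).trans (max_le ih ?_)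
    rw [v.map_one]

lemma int_le (hv : IsNonarchimedean v) (n : ℤ) : v (n : L) ≤ 1 := by
  obtain ⟨m, rfl | rfl⟩ := n.eq_nat_or_neg
  · rw [Int.cast_natCast]
    exact nat_le hv m
  · rw [Int.cast_neg, Int.cast_natCast, v.map_neg]
    exact nat_le hv m

lemma sub_le (hv : IsNonarchimedean v) (x y : L) : v (x - y) ≤ max (v x) (v y) := by
  rw [sub_eq_add_neg]
  refine (hv _ _).trans ?_
  rw [v.map_neg]

lemma sum_le (hv : IsNonarchimedean v) {C : ℝ} (hC : 0 ≤ C) {ι : Type}
    (s : Finset ι) (f : ι → L) (hf : ∀ i ∈ s, v (f i) ≤ C) : v (∑ i ∈ s, f i) ≤ C := by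
  classical
  induction s using Finset.induction_on with
  | empty => simpa using hC
  | insert a s ha ih =>
    rw [Finset.sum_insert ha]
    refine (hv _ _).trans (max_le (hf a (Finset.mem_insert_self _ _)) (ih fun i hi => ?_))
    exact hf i (Finset.mem_insert_of_mem hi)

/-- an integer prime to `p` has value one -/
lemma unit_eq (hp : p.Prime) (hv : IsNonarchimedean v) (hlt : v (p : L) < 1) {m : ℤ}
    (hm : ¬ (p : ℤ) ∣ m) : v (m : L) = 1 := by
  refine le_antisymm (int_le hv m) ?_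
  have hpz : Prime (p : ℤ) := Nat.prime_iff_prime_int.1 hp
  obtain ⟨a, b, hab⟩ : IsCoprime (p : ℤ) m := (Prime.coprime_iff_not_dvd hpz).2 hm
  have h1 : (1 : L) = (a : L) * (p : L) + (b : L) * (m : L) := by
    have := congrArg (Int.cast : ℤ → L) hab
    push_cast at this
    exact this.symm
  have h2 : (1 : ℝ) ≤ max (v ((a : L) * (p : L))) (v ((b : L) * (m : L))) := by
    rw [← v.map_one, h1]
    exact hv _ _
  rcases le_max_iff.1 h2 with h | h
  · exfalso
    rw [v.map_mul] at h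
    have := int_le hv a
    have h3 := v.nonneg (p : L)
    have h4 : v (a : L) * v (p : L) ≤ 1 * v (p : L) := mul_le_mul_of_nonneg_right this h3
    linarith
  · rw [v.map_mul] at h
    have := int_le hv b
    have h3 := v.nonneg (m : L)
    have h4 : v (b : L) * v (m : L) ≤ 1 * v (m : L) := mul_le_mul_of_nonneg_right this h3
    linarith

variable [CharZero L]

lemma vp_pos (hp : p.Prime) : 0 < v (p : L) := v.pos (Nat.cast_ne_zero.2 hp.ne_zero)

/-- an integer whose value is small is divisible by a power of `p` -/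
lemma dvd_of_le (hp : p.Prime) (hv : IsNonarchimedean v) (hlt : v (p : L) < 1) {m : ℤ} {K : ℕ}
    (hm : v (m : L) ≤ v (p : L) ^ K) : (p : ℤ) ^ K ∣ m := by
  rcases eq_or_ne m 0 with rfl | h0
  · exact dvd_zero _
  obtain ⟨j, m', hm', rfl⟩ : ∃ (j : ℕ) (c : ℤ), ¬ (p : ℤ) ∣ c ∧ m = (p : ℤ) ^ j * c := by
    obtain ⟨c, hc1, hc2⟩ := (Int.finiteMultiplicity_iff.2
      ⟨by simpa using hp.ne_one, h0⟩ : FiniteMultiplicity (p : ℤ) m).exists_eq_pow_mul_and_not_dvd
    exact ⟨_, c, hc2, hc1⟩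
  have h1 : v (((p : ℤ) ^ j * m' : ℤ) : L) = v (p : L) ^ j := by
    push_cast
    rw [v.map_mul, unit_eq hp hv hlt hm', mul_one, v.map_pow]
  rw [h1] at hm
  have h2 : K ≤ j := (pow_le_pow_iff_right_of_lt_one₀ (vp_pos hp) hlt).1 hm
  exact (pow_dvd_pow _ h2).mul_right _

/-- the maximum of finitely many numbers below `b` -/
lemma exists_max {ι : Type} (s : Finset ι) (f : ι → ℝ) (b : ℝ) (hb : 0 < b)
    (h : ∀ i ∈ s, f i < b) : ∃ M, 0 ≤ M ∧ M < b ∧ ∀ i ∈ s, f i ≤ M := by
  classical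
  induction s using Finset.induction_on with
  | empty => exact ⟨0, le_refl _, hb, by simp⟩
  | insert a s ha ih =>
    obtain ⟨M, h1, h2, h3⟩ := ih fun i hi => h i (Finset.mem_insert_of_mem hi)
    refine ⟨max M (f a), h1.trans (le_max_left _ _),
      max_lt h2 (h a (Finset.mem_insert_self _ _)), fun i hi => ?_⟩
    rcases Finset.mem_insert.1 hi with rfl | hi
    · exact le_max_right _ _
    · exact (h3 i hi).trans (le_max_left _ _)

/-- the sum of the conjugates of an algebraic integer is an integer -/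
lemma sum_int {L : Type} [Field L] [NumberField L] [IsGalois ℚ L] {z : L} (hz : IsIntegral ℤ z) :
    ∃ n : ℤ, ∑ σ : L ≃ₐ[ℚ] L, σ z = (n : L) := by
  have h := Algebra.isIntegral_trace (L := ℚ) hz
  obtain ⟨n, hn⟩ := IsIntegrallyClosed.isIntegral_iff.1 h
  refine ⟨n, ?_⟩
  rw [← trace_eq_sum_automorphisms, ← hn]
  simp

end DOMAux

open DOMAux in
theorem t_DOM : S_DOM := by
  intro L _ _ _ v p hp hv hlt r y N hr hy hy0 hdom K
  classical
  have hpz : Prime (p : ℤ) := Nat.prime_iff_prime_int.1 hp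
  have hvp : 0 < v (p : L) := vp_pos hp
  have hvy : 0 < v y := v.pos hy0
  have hri : IsIntegral ℤ r := by
    refine IsIntegral.of_pow (n := 2) two_pos ?_
    rw [hr]
    exact isIntegral_algebraMap (R := ℤ) (A := L) (x := N)
  have hvr : ∀ σ : L ≃ₐ[ℚ] L, v (σ r) ≤ 1 := by
    intro σ
    have h1 : (σ r) ^ 2 = (N : L) := by rw [← map_pow, hr, map_intCast]
    have h2 : v (σ r) ^ 2 ≤ 1 := by
      rw [← v.map_pow, h1]
      exact int_le hv N
    exact (sq_le_one_iff₀ (v.nonneg _)).1 h2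
  have hvr1 : v r ≤ 1 := hvr 1
  set S : Finset (L ≃ₐ[ℚ] L) := Finset.univ.filter fun σ => σ y = y ∧ σ r = r with hS
  have hS1 : (1 : L ≃ₐ[ℚ] L) ∈ S := by
    rw [hS, Finset.mem_filter]
    exact ⟨Finset.mem_univ _, rfl, rfl⟩
  have hs : 0 < S.card := Finset.card_pos.2 ⟨_, hS1⟩
  have hs0 : ((S.card : ℕ) : L) ≠ 0 := Nat.cast_ne_zero.2 hs.ne'
  have hvs : 0 < v ((S.card : ℕ) : L) := v.pos hs0
  obtain ⟨M, hM0, hM1, hM⟩ := exists_max Sᶜ (fun σ => v (σ y)) (v y) hvy (by
    intro σ hσ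
    rw [Finset.mem_compl, hS, Finset.mem_filter] at hσ
    rcases hdom σ with h | h
    · exact absurd ⟨Finset.mem_univ _, h⟩ hσ
    · exact h)
  -- the exponent
  obtain ⟨k, hk⟩ : ∃ k : ℕ, (M / v y) ^ k < v ((S.card : ℕ) : L) * v (p : L) ^ K :=
    exists_pow_lt_of_lt_one (by positivity) ((div_lt_one hvy).2 hM1)
  have hk' : M ^ k ≤ v ((S.card : ℕ) : L) * v y ^ k * v (p : L) ^ K := by
    rw [div_pow, div_lt_iff₀ (by positivity)] at hk
    linarith
  obtain ⟨T, hT⟩ := sum_int (hy.pow k)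
  obtain ⟨R, hR⟩ := sum_int (hri.mul (hy.pow k))
  set E : L := ∑ σ ∈ Sᶜ, σ (y ^ k) with hE
  set E' : L := ∑ σ ∈ Sᶜ, σ (r * y ^ k) with hE'
  have hT' : (T : L) = (S.card : L) * y ^ k + E := by
    rw [← hT, ← Finset.sum_add_sum_compl S]
    congr 1
    rw [Finset.sum_congr rfl (g := fun _ => y ^ k), Finset.sum_const, nsmul_eq_mul]
    intro σ hσ
    rw [hS, Finset.mem_filter] at hσ
    rw [map_pow, hσ.2.1]
  have hR' : (R : L) = (S.card : L) * (r * y ^ k) + E' := by
    rw [← hR, ← Finset.sum_add_sum_compl S]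
    congr 1
    rw [Finset.sum_congr rfl (g := fun _ => r * y ^ k), Finset.sum_const, nsmul_eq_mul]
    intro σ hσ
    rw [hS, Finset.mem_filter] at hσ
    rw [map_mul, map_pow, hσ.2.1, hσ.2.2]
  have hvE : v E ≤ M ^ k := by
    refine sum_le hv (by positivity) _ _ fun σ hσ => ?_
    rw [map_pow, v.map_pow]
    exact pow_le_pow_left₀ (v.nonneg _) (hM σ hσ) k
  have hvE' : v E' ≤ M ^ k := by
    refine sum_le hv (by positivity) _ _ fun σ hσ => ?_
    rw [map_mul, map_pow, v.map_mul, v.map_pow]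
    calc v (σ r) * v (σ y) ^ k ≤ 1 * M ^ k :=
          mul_le_mul (hvr σ) (pow_le_pow_left₀ (v.nonneg _) (hM σ hσ) k) (by positivity) zero_le_one
      _ = M ^ k := one_mul _
  -- the main estimate
  have h1 : v (r * T - R) ≤ M ^ k := by
    have e : r * (T : L) - R = r * E - E' := by
      rw [hT', hR']
      ring
    rw [e]
    refine (sub_le hv _ _).trans (max_le ?_ hvE')
    rw [v.map_mul]
    calc v r * v E ≤ 1 * M ^ k := mul_le_mul hvr1 hvE (v.nonneg _) zero_le_one
      _ = M ^ k := one_mul _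
  have hpK : v (p : L) ^ K ≤ 1 := pow_le_one₀ hvp.le hlt.le
  have h2 : v ((S.card : ℕ) : L) * v y ^ k ≤ v (T : L) := by
    have e : (S.card : L) * y ^ k = (T : L) - E := by
      rw [hT']
      ring
    have h3 : v ((S.card : L) * y ^ k) ≤ max (v (T : L)) (v E) := by
      rw [e]
      exact sub_le hv _ _
    rw [v.map_mul, v.map_pow] at h3
    rcases le_max_iff.1 h3 with h4 | h4
    · exact h4
    · -- then `M ^ k` is not smaller
      exfalso
      have h5 : 0 < v ((S.card : ℕ) : L) * v y ^ k := by positivity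
      have h6 : (M / v y) ^ k < v ((S.card : ℕ) : L) := by
        refine hk.trans_le ?_
        calc v ((S.card : ℕ) : L) * v (p : L) ^ K ≤ v ((S.card : ℕ) : L) * 1 :=
              mul_le_mul_of_nonneg_left hpK hvs.le
          _ = _ := mul_one _
      rw [div_pow, div_lt_iff₀ (by positivity)] at h6
      linarith
  have hT0 : 0 < v (T : L) := lt_of_lt_of_le (by positivity) h2
  have h3 : v (r * T - R) ≤ v (T : L) * v (p : L) ^ K := by
    refine h1.trans (hk'.trans ?_)
    exact mul_le_mul_of_nonneg_right h2 (by positivity)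
  -- divide by the power of `p` in `T`
  have hTne : T ≠ 0 := by
    rintro rfl
    simp at hT0
  obtain ⟨j, T', hpT, hTj⟩ : ∃ (j : ℕ) (c : ℤ), ¬ (p : ℤ) ∣ c ∧ T = (p : ℤ) ^ j * c := by
    obtain ⟨c, hc1, hc2⟩ := (Int.finiteMultiplicity_iff.2
      ⟨by simpa using hp.ne_one, hTne⟩ : FiniteMultiplicity (p : ℤ) T).exists_eq_pow_mul_and_not_dvd
    exact ⟨_, c, hc2, hc1⟩
  have hvT' : v (T' : L) = 1 := unit_eq hp hv hlt hpT
  have hvT : v (T : L) = v (p : L) ^ j := by
    rw [hTj]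
    push_cast
    rw [v.map_mul, hvT', mul_one, v.map_pow]
  have hvR : v (R : L) ≤ v (p : L) ^ j := by
    have e : (R : L) = r * T - (r * T - R) := by ring
    rw [e]
    refine (sub_le hv _ _).trans (max_le ?_ ?_)
    · rw [v.map_mul, hvT]
      calc v r * v (p : L) ^ j ≤ 1 * v (p : L) ^ j :=
            mul_le_mul_of_nonneg_right hvr1 (by positivity)
        _ = _ := one_mul _
    · refine h3.trans ?_
      rw [hvT]
      calc v (p : L) ^ j * v (p : L) ^ K ≤ v (p : L) ^ j * 1 :=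
            mul_le_mul_of_nonneg_left hpK (by positivity)
        _ = _ := mul_one _
  obtain ⟨R', hRj⟩ := dvd_of_le hp hv hlt hvR
  have h4 : v (r * T' - R') ≤ v (p : L) ^ K := by
    have e : r * (T : L) - R = (p : L) ^ j * (r * T' - R') := by
      rw [hTj, hRj]
      push_cast
      ring
    rw [e, v.map_mul, v.map_pow, hvT] at h3
    exact le_of_mul_le_mul_left h3 (by positivity)
  have h5 : (p : ℤ) ^ K ∣ N * T' ^ 2 - R' ^ 2 := by
    refine dvd_of_le (L := L) (v := v) hp hv hlt ?_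
    have e : ((N * T' ^ 2 - R' ^ 2 : ℤ) : L) = (r * T' - R') * (r * T' + R') := by
      push_cast
      rw [← hr]
      ring
    rw [e, v.map_mul]
    have h6 : v (r * T' + R') ≤ 1 := by
      refine (hv _ _).trans (max_le ?_ (int_le hv _))
      rw [v.map_mul, hvT', mul_one]
      exact hvr1
    calc v (r * T' - R') * v (r * T' + R') ≤ v (p : L) ^ K * 1 :=
          mul_le_mul h4 h6 (v.nonneg _) (by positivity)
      _ = _ := mul_one _
  -- the solution
  have hcop : IsCoprime ((p : ℤ) ^ K) T' := ((Prime.coprime_iff_not_dvd hpz).2 hpT).pow_left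
  obtain ⟨a, Z, haZ⟩ := hcop
  obtain ⟨w, hw⟩ := h5
  refine ⟨R' * Z, ⟨- (w * Z ^ 2) - N * a * (1 + T' * Z), ?_⟩⟩
  linear_combination (-(Z ^ 2)) * hw + N * (1 + T' * Z) * haZ

end

end Pool.Agent.GT4
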