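import Pool.Agent.GT4.St3

/-!
# GT4, module FA: an explicit mixed reflex pair over the field with `4 ^ k` elements
-/

set_option autoImplicit false

namespace Pool.Agent.GT4

open Pool.Agent.GT2 Pool.Agent.GT3

namespace FAAux

/-- a square times a nonzero square -/
lemma sq_of_mul_sq {x y : ℤ} (hy : y ≠ 0) (h : IsSquare (x * y ^ 2)) : IsSquare x := by
  obtain ⟨r, hr⟩ := h
  have h1 : y ^ 2 ∣ r ^ 2 := ⟨x, by rw [sq r, ← hr]; ring⟩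
  obtain ⟨c, rfl⟩ := (Int.pow_dvd_pow_iff two_ne_zero).1 h1
  refine ⟨c, ?_⟩
  have h2 : y ^ 2 * x = y ^ 2 * (c * c) := by linear_combination hr
  exact mul_left_cancel₀ (pow_ne_zero 2 hy) h2

lemma sq_mod (y : ℤ) : y ^ 2 % 8 = 0 ∨ y ^ 2 % 8 = 1 ∨ y ^ 2 % 8 = 4 := by
  have h : y % 8 = 0 ∨ y % 8 = 1 ∨ y % 8 = 2 ∨ y % 8 = 3 ∨ y % 8 = 4 ∨ y % 8 = 5 ∨ y % 8 = 6 ∨
      y % 8 = 7 := by omega
  rcases h with h | h | h | h | h | h | h | h <;> simp [sq, Int.mul_emod, h]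

lemma not_sq5 {x : ℤ} (h : x % 8 = 5) : ¬ IsSquare x := by
  rintro ⟨r, hr⟩
  rw [← sq] at hr
  have := sq_mod r
  omega

lemma not_sq_between {x r : ℤ} (h0 : 0 ≤ r) (h1 : r * r < x) (h2 : x < (r + 1) * (r + 1)) :
    ¬ IsSquare x := by
  rintro ⟨y, hy⟩
  have h3 : r < |y| := by
    by_contra hc
    push Not at hc
    nlinarith [abs_mul_abs_self y, abs_nonneg y]
  have h4 : |y| < r + 1 := by
    by_contra hc
    push Not at hc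
    nlinarith [abs_mul_abs_self y, abs_nonneg y]
  omega

lemma not_ps (k : ℕ) : ¬ PS 2 ((2 ^ k : ℤ) ^ 2 * (8 * 2 ^ k - 3)) := by
  intro h
  obtain ⟨x, hx⟩ := h (2 * k + 3)
  have e : ((2 : ℕ) : ℤ) ^ (2 * k + 3) = (2 ^ k : ℤ) ^ 2 * 8 := by
    push_cast
    rw [pow_add, pow_mul']
    norm_num
  rw [e] at hx
  have h1 : (2 ^ k : ℤ) ^ 2 ∣ x ^ 2 := by
    have h2 : (2 ^ k : ℤ) ^ 2 ∣ x ^ 2 - (2 ^ k : ℤ) ^ 2 * (8 * 2 ^ k - 3) :=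
      (Dvd.intro _ rfl).trans hx
    exact (dvd_sub_left (Dvd.intro _ rfl)).1 h2
  obtain ⟨y, rfl⟩ := (Int.pow_dvd_pow_iff two_ne_zero).1 h1
  have h3 : (2 ^ k : ℤ) ^ 2 * 8 ∣ (2 ^ k : ℤ) ^ 2 * (y ^ 2 - (8 * 2 ^ k - 3)) := by
    have e2 : (2 ^ k : ℤ) ^ 2 * (y ^ 2 - (8 * 2 ^ k - 3)) =
        (2 ^ k * y) ^ 2 - (2 ^ k : ℤ) ^ 2 * (8 * 2 ^ k - 3) := by ring
    rw [e2]
    exact hx
  have h4 : (8 : ℤ) ∣ y ^ 2 - (8 * 2 ^ k - 3) :=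
    (mul_dvd_mul_iff_left (pow_ne_zero 2 (pow_ne_zero k two_ne_zero))).1 h3
  have := sq_mod y
  omega

end FAAux

open FAAux in
theorem t_FA : S_FA := by
  intro k hk
  obtain ⟨s, hs⟩ : ∃ s : ℤ, s = 2 ^ k := ⟨_, rfl⟩
  have hps := not_ps k
  rw [← hs] at hps
  have hs2 : ∃ t : ℤ, s = 2 * t := by
    obtain ⟨j, rfl⟩ := Nat.exists_eq_succ_of_ne_zero (by omega : k ≠ 0)
    exact ⟨2 ^ j, by rw [hs, pow_succ]; ring⟩
  obtain ⟨t, ht⟩ := hs2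
  have hs0 : 0 < s := by rw [hs]; positivity
  have ht0 : 1 ≤ t := by omega
  have hq : (((2 ^ k) ^ 2 : ℕ) : ℤ) = s ^ 2 := by rw [hs]; push_cast; rfl
  have hp : ((2 : ℕ) : ℤ) = 2 := rfl
  have dd : DD 1 (1 - 2 * s) = 8 * s - 3 := by unfold DD; ring
  have dp : DP ((2 ^ k) ^ 2) 1 (1 - 2 * s) = (4 * s ^ 2 + 1) * (2 * s - 1) ^ 2 := by
    unfold DP
    rw [hq]
    ring
  have dd1 : DD (2 * s - 1) (-s) = 4 * s ^ 2 + 1 := by unfold DD; ring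
  have dp1 : DP ((2 ^ k) ^ 2) (2 * s - 1) (-s) = (8 * s - 3) * s ^ 2 := by
    unfold DP
    rw [hq]
    ring
  have n1 : ¬ IsSquare (8 * s - 3) := not_sq5 (by omega)
  have n2 : ¬ IsSquare (4 * s ^ 2 + 1) :=
    not_sq_between (r := 2 * s) (by omega) (by nlinarith) (by nlinarith)
  have n3 : ¬ IsSquare ((8 * s - 3) * (4 * s ^ 2 + 1)) := by
    refine not_sq5 ?_
    rw [ht]
    have e : (8 * (2 * t) - 3) * (4 * (2 * t) ^ 2 + 1) = 8 * (2 * t * (16 * t ^ 2 + 1) - 6 * t ^ 2 - 1) + 5 := by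
      ring
    rw [e]
    omega
  have hs1 : (2 * s - 1 : ℤ) ≠ 0 := by omega
  have g : Gn ((2 ^ k) ^ 2) 1 (1 - 2 * s) := by
    refine ⟨?_, ?_, ?_, ?_⟩
    · rw [dd]; exact n1
    · rw [dp]; exact fun h => n2 (sq_of_mul_sq hs1 h)
    · rw [dd, dp, ← mul_assoc]; exact fun h => n3 (sq_of_mul_sq hs1 h)
    · rintro ⟨-, h⟩
      rw [hq, ht] at h
      have h2 : (2 : ℤ) ∣ 1 - 2 * (2 * t) := Dvd.dvd.trans ⟨2 * t ^ 2, by ring⟩ h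
      omega
  have g1 : Gn ((2 ^ k) ^ 2) (2 * s - 1) (-s) := by
    refine ⟨?_, ?_, ?_, ?_⟩
    · rw [dd1]; exact n2
    · rw [dp1]; exact fun h => n1 (sq_of_mul_sq hs0.ne' h)
    · rw [dd1, dp1, ← mul_assoc, mul_comm (4 * s ^ 2 + 1)]
      exact fun h => n3 (sq_of_mul_sq hs0.ne' h)
    · rintro ⟨h, -⟩
      rw [hq, ht] at h
      have h2 : (2 : ℤ) ∣ (2 * (2 * t) - 1) ^ 2 := Dvd.dvd.trans ⟨2 * t ^ 2, by ring⟩ h
      have h3 := Int.prime_two.dvd_of_dvd_pow h2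
      omega
  refine ⟨1, 1 - 2 * s, 2 * s - 1, -s, ⟨⟨?_, ?_, ?_, ?_⟩, Or.inl ?_⟩,
    ⟨⟨?_, ?_, ?_, ?_⟩, Or.inr (Or.inl ⟨?_, ?_, ?_, Or.inr ?_⟩)⟩, ?_, g, g1,
    -s * (8 * s - 3), (2 * s - 1) * (4 * s ^ 2 + 1), (4 * s + 1) * (2 * s - 1), ?_, ?_, ?_, ?_⟩
  · rw [dd]; omega
  · rw [dp]; positivity
  · rw [hq]; nlinarith
  · rw [hq]; nlinarith
  · rw [hp]; omega
  · rw [dd1]; positivity
  · rw [dp1]
    exact mul_nonneg (by omega) (sq_nonneg s)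
  · rw [hq]; nlinarith
  · rw [hq]; nlinarith
  · rw [hp]; omega
  · rw [hp]; omega
  · rw [hq]; exact ⟨1, by ring⟩
  · rw [dp1, mul_comm]; exact hps
  · rw [hp]; omega
  · rw [dd, dp1]; ring
  · rw [dp, dd1]; ring
  · rw [hq]; ring
  · intro h
    exfalso
    rcases mul_eq_zero.1 h with h | h <;> omega

end Pool.Agent.GT4
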