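import Pool.Agent.GT4.St3

/-!
# GT4, module FB: mixed reflex pairs over the fields with `p ^ (2 k)` elements, `p ≥ 5`
-/

set_option autoImplicit false

namespace Pool.Agent.GT4

open Pool.Agent.GT2 Pool.Agent.GT3

namespace FBAux

/-- there is a small `c` such that `c² - 4` is not a square modulo `p` -/
theorem exists_c {p : ℕ} (hp : p.Prime) (h5 : 5 ≤ p) :
    ∃ c : ℤ, 1 ≤ c ∧ 2 * c < p ∧ ∀ x : ℤ, ¬ (p : ℤ) ∣ x ^ 2 - (c ^ 2 - 4) := by
  have : Fact p.Prime := ⟨hp⟩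
  have h2 : (2 : ZMod p) ≠ 0 := by
    intro h
    have h1 : ((2 : ℕ) : ZMod p) = 0 := by exact_mod_cast h
    rw [ZMod.natCast_eq_zero_iff] at h1
    exact absurd (Nat.le_of_dvd (by norm_num) h1) (by omega)
  have h3 : (3 : ZMod p) ≠ 0 := by
    intro h
    have h1 : ((3 : ℕ) : ZMod p) = 0 := by exact_mod_cast h
    rw [ZMod.natCast_eq_zero_iff] at h1
    exact absurd (Nat.le_of_dvd (by norm_num) h1) (by omega)
  -- a residue
  obtain ⟨c₀, hc0, hc₀⟩ : ∃ c₀ : ZMod p, c₀ ≠ 0 ∧ ∀ x : ZMod p, x ^ 2 ≠ c₀ ^ 2 - 4 := by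
    obtain ⟨g, hg⟩ := FiniteField.exists_nonsquare (F := ZMod p) (by
      rw [ZMod.ringChar_zmod_n]
      omega)
    have hg1 : 1 - g ≠ 0 := by
      intro h
      have h1 : g = 1 := by linear_combination -h
      exact hg (h1 ▸ ⟨1, by norm_num⟩)
    by_cases hgm : g = -1
    · have hp5 : (5 : ZMod p) ≠ 0 := by
        intro h
        refine hg ⟨2, ?_⟩
        rw [hgm]
        linear_combination -h
      refine ⟨6 / 5, ?_, fun x hx => hg ⟨5 * x / 8, ?_⟩⟩
      · refine div_ne_zero ?_ hp5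
        have h6 : (6 : ZMod p) = 2 * 3 := by norm_num
        rw [h6]
        exact mul_ne_zero h2 h3
      · have h8 : (8 : ZMod p) ≠ 0 := by
          have h6 : (8 : ZMod p) = 2 ^ 3 := by norm_num
          rw [h6]
          exact pow_ne_zero _ h2
        rw [hgm]
        have h64 : (64 : ZMod p) ≠ 0 := by
          have h6 : (64 : ZMod p) = 2 ^ 6 := by norm_num
          rw [h6]
          exact pow_ne_zero _ h2
        have h7 : (5 * x / 8) * (5 * x / 8) = 25 * x ^ 2 / 64 := by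
          rw [div_mul_div_comm]
          congr 1
          · ring
          · norm_num
        rw [h7, hx]
        field_simp
        ring
    · have hg2 : 1 + g ≠ 0 := by
        intro h
        exact hgm (by linear_combination h)
      refine ⟨2 * (1 + g) / (1 - g), ?_, fun x hx => hg ⟨x * (1 - g) / 4, ?_⟩⟩
      · exact div_ne_zero (mul_ne_zero h2 hg2) hg1
      · have h4 : (4 : ZMod p) ≠ 0 := by
          have h6 : (4 : ZMod p) = 2 ^ 2 := by norm_num
          rw [h6]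
          exact pow_ne_zero _ h2
        have h16 : (16 : ZMod p) ≠ 0 := by
          have h6 : (16 : ZMod p) = 2 ^ 4 := by norm_num
          rw [h6]
          exact pow_ne_zero _ h2
        have h7 : (x * (1 - g) / 4) * (x * (1 - g) / 4) = x ^ 2 * (1 - g) ^ 2 / 16 := by
          field_simp
          ring
        rw [h7, hx]
        field_simp
        ring
  refine ⟨(c₀.valMinAbs.natAbs : ℤ), ?_, ?_, ?_⟩
  · have h1 : c₀.valMinAbs ≠ 0 := fun h => hc0 ((ZMod.valMinAbs_eq_zero c₀).1 h)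
    have h4 : 0 < c₀.valMinAbs.natAbs := Int.natAbs_pos.2 h1
    exact_mod_cast h4
  · have h1 := ZMod.natAbs_valMinAbs_le c₀
    have h4 : p % 2 = 1 := (hp.eq_two_or_odd).resolve_left (by omega)
    omega
  · intro x hx
    have h1 := (ZMod.intCast_zmod_eq_zero_iff_dvd _ p).2 hx
    refine hc₀ (x : ZMod p) ?_
    have h4 : (((c₀.valMinAbs.natAbs : ℤ)) ^ 2 : ℤ) = c₀.valMinAbs ^ 2 := Int.natAbs_sq _
    rw [h4] at h1
    push_cast at h1
    linear_combination h1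

/-- between two squares -/
theorem not_sq_between {N r : ℤ} (h0 : 0 ≤ r) (h1 : r * r < N) (h2 : N < (r + 1) * (r + 1)) :
    ¬ IsSquare N := by
  rintro ⟨x, hx⟩
  have h3 : r < |x| := by
    by_contra hc
    push Not at hc
    nlinarith [abs_mul_abs_self x, abs_nonneg x]
  have h4 : |x| < r + 1 := by
    by_contra hc
    push Not at hc
    nlinarith [abs_mul_abs_self x, abs_nonneg x]
  omega

theorem sq_of_mul {s N : ℤ} (hs : s ≠ 0) (h : IsSquare (s ^ 2 * N)) : IsSquare N := by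
  obtain ⟨x, hx⟩ := h
  have h1 : s ^ 2 ∣ x ^ 2 := ⟨N, by rw [hx]; ring⟩
  have h2 : s ∣ x := (Int.pow_dvd_pow_iff two_ne_zero).1 h1
  obtain ⟨y, rfl⟩ := h2
  refine ⟨y, ?_⟩
  have h3 : s ^ 2 * N = s ^ 2 * (y * y) := by rw [hx]; ring
  exact mul_left_cancel₀ (pow_ne_zero 2 hs) h3

/-- `1 + 4 c s` is not a square -/
theorem not_sq_one {p k : ℕ} (hp : p.Prime) {s c : ℤ} (hs : s = (p : ℤ) ^ k) (hs5 : 5 ≤ s)
    (hc : 1 ≤ c) (hcs : 2 * c < s) : ¬ IsSquare (1 + 4 * c * s) := by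
  rintro ⟨y, hy⟩
  have h1 : |y| * |y| = 1 + 4 * c * s := by rw [abs_mul_abs_self, hy]
  have h2 : |y| % 2 = 1 := by
    rcases Int.emod_two_eq_zero_or_one |y| with h | h
    · exfalso
      obtain ⟨z, hz⟩ : ∃ z, |y| = 2 * z := ⟨|y| / 2, by omega⟩
      rw [hz] at h1
      have h3 : 2 * (2 * (z * z) - 2 * (c * s)) = 1 := by linarith
      omega
    · exact h
  obtain ⟨z, hz⟩ : ∃ z, |y| = 2 * z + 1 := ⟨|y| / 2, by omega⟩
  have hz0 : 0 ≤ z := by
    have := abs_nonneg y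
    omega
  have h3 : c * s = z * (z + 1) := by
    rw [hz] at h1
    linarith
  have h4 : s ∣ z * (z + 1) := ⟨c, by rw [← h3]; ring⟩
  have hpi : Prime (p : ℤ) := Nat.prime_iff_prime_int.1 hp
  have h5 : s ∣ z ∨ s ∣ z + 1 := by
    by_cases h6 : (p : ℤ) ∣ z
    · left
      have h7 : ¬ (p : ℤ) ∣ z + 1 := by
        intro h8
        have h9 : (p : ℤ) ∣ 1 := by
          have := dvd_sub h8 h6
          simpa using this
        exact hpi.not_isUnit (isUnit_of_dvd_one h9)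
      rw [hs] at h4 ⊢
      exact (hpi.coprime_iff_not_dvd.2 h7).pow_left.dvd_of_dvd_mul_right h4
    · right
      rw [hs] at h4 ⊢
      exact (hpi.coprime_iff_not_dvd.2 h6).pow_left.dvd_of_dvd_mul_left h4
  have h6 : s ≤ z + 1 := by
    rcases h5 with h5 | h5
    · have hzp : 0 < z := by
        rcases hz0.lt_or_eq with h | h
        · exact h
        · exfalso
          rw [← h] at h3
          nlinarith
      have := Int.le_of_dvd hzp h5
      omega
    · exact Int.le_of_dvd (by omega) h5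
  nlinarith

end FBAux

open FBAux in
theorem t_FB : S_FB := by
  intro p k hp h5 hk
  obtain ⟨c, hc1, hc2, hc⟩ := exists_c hp h5
  obtain ⟨s, hs⟩ : ∃ s : ℤ, s = (p : ℤ) ^ k := ⟨_, rfl⟩
  have hpi : Prime (p : ℤ) := Nat.prime_iff_prime_int.1 hp
  have hps : (p : ℤ) ∣ s := by
    rw [hs]
    exact dvd_pow_self _ (by omega)
  have hp5 : (5 : ℤ) ≤ p := by exact_mod_cast h5
  have hple : (p : ℤ) ≤ s := by
    rw [hs]
    exact le_self_pow₀ (by omega) (by omega)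
  have hs5 : 5 ≤ s := hp5.trans hple
  have hs0 : s ≠ 0 := by omega
  have hcs : 2 * c < s := hc2.trans_le hple
  have hq : (((p ^ k) ^ 2 : ℕ) : ℤ) = s ^ 2 := by
    rw [hs]
    push_cast
    rfl
  have hDD : DD c (1 + 2 * c * s - 4 * s ^ 2) = (4 * s - c) ^ 2 - 4 := by
    unfold DD
    ring
  have hDP : DP ((p ^ k) ^ 2) c (1 + 2 * c * s - 4 * s ^ 2) = 1 + 4 * c * s := by
    unfold DP
    rw [hq]
    ring
  have hDD1 : DD 1 (-(c * s)) = 1 + 4 * c * s := by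
    unfold DD
    ring
  have hDP1 : DP ((p ^ k) ^ 2) 1 (-(c * s)) = s ^ 2 * ((4 * s - c) ^ 2 - 4) := by
    unfold DP
    rw [hq]
    ring
  -- not squares
  have n1 : ¬ IsSquare ((4 * s - c) ^ 2 - 4) :=
    not_sq_between (r := 4 * s - c - 1) (by omega) (by nlinarith) (by nlinarith)
  have n2 : ¬ IsSquare (1 + 4 * c * s) := not_sq_one hp hs hs5 hc1 hcs
  have hmod : ∀ y : ℤ, ¬ (p : ℤ) ∣ y ^ 2 - ((4 * s - c) ^ 2 - 4) := by
    intro y hy
    refine hc y ?_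
    have h1 : y ^ 2 - (c ^ 2 - 4) = (y ^ 2 - ((4 * s - c) ^ 2 - 4)) + s * (16 * s - 8 * c) := by
      ring
    rw [h1]
    exact dvd_add hy (hps.mul_right _)
  have n3 : ¬ IsSquare (((4 * s - c) ^ 2 - 4) * (1 + 4 * c * s)) := by
    rintro ⟨y, hy⟩
    refine hmod y ?_
    have h1 : y ^ 2 - ((4 * s - c) ^ 2 - 4) = s * (4 * c * ((4 * s - c) ^ 2 - 4)) := by
      have : y ^ 2 = y * y := sq y
      rw [this, ← hy]
      ring
    rw [h1]
    exact hps.mul_right _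
  have hpB : ¬ (p : ℤ) ∣ 1 + 2 * c * s - 4 * s ^ 2 := by
    intro h
    have h1 : (p : ℤ) ∣ 1 := by
      have h2 : (1 : ℤ) = (1 + 2 * c * s - 4 * s ^ 2) + s * (4 * s - 2 * c) := by ring
      rw [h2]
      exact dvd_add h (hps.mul_right _)
    exact hpi.not_isUnit (isUnit_of_dvd_one h1)
  have hqp : (p : ℤ) ∣ s ^ 2 := hps.trans (dvd_pow_self _ two_ne_zero)
  have hPS : ¬ PS p (s ^ 2 * ((4 * s - c) ^ 2 - 4)) := by
    intro h
    obtain ⟨x, hx⟩ := h (2 * k + 1)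
    have h1 : (p : ℤ) ^ (2 * k + 1) = s ^ 2 * p := by
      rw [hs]
      ring
    rw [h1] at hx
    have h2 : s ^ 2 ∣ x ^ 2 := by
      have h3 : s ^ 2 ∣ x ^ 2 - s ^ 2 * ((4 * s - c) ^ 2 - 4) :=
        (dvd_mul_right _ _).trans hx
      have h4 := dvd_add h3 (dvd_mul_right (s ^ 2) ((4 * s - c) ^ 2 - 4))
      rwa [sub_add_cancel] at h4
    obtain ⟨y, rfl⟩ := (Int.pow_dvd_pow_iff two_ne_zero).1 h2
    have h3 : (s * y) ^ 2 - s ^ 2 * ((4 * s - c) ^ 2 - 4) =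
        s ^ 2 * (y ^ 2 - ((4 * s - c) ^ 2 - 4)) := by ring
    rw [h3] at hx
    exact hmod y (Int.dvd_of_mul_dvd_mul_left (pow_ne_zero 2 hs0) hx)
  refine ⟨c, 1 + 2 * c * s - 4 * s ^ 2, 1, -(c * s), ⟨⟨?_, ?_, ?_, ?_⟩, Or.inl hpB⟩,
    ⟨⟨?_, ?_, ?_, ?_⟩, Or.inr (Or.inl ⟨?_, ?_, ?_, Or.inr ?_⟩)⟩, ?_, ⟨?_, ?_, ?_, ?_⟩,
    ⟨?_, ?_, ?_, ?_⟩, -(s * ((4 * s - c) ^ 2 - 4)), 1 + 4 * c * s, 4 * s + c, ?_, ?_, ?_, ?_⟩
  · rw [hDD]
    nlinarith
  · rw [hDP]
    nlinarith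
  · rw [hq]
    nlinarith
  · rw [hq]
    nlinarith
  · rw [hDD1]
    nlinarith
  · rw [hDP1]
    have : 0 ≤ (4 * s - c) ^ 2 - 4 := by nlinarith
    positivity
  · rw [hq]
    nlinarith
  · rw [hq]
    nlinarith
  · exact (dvd_neg.2 (hps.mul_left c))
  · intro h
    exact hpi.not_isUnit (isUnit_of_dvd_one h)
  · rw [hq]
    exact ⟨c ^ 2, by ring⟩
  · rw [hDP1]
    exact hPS
  · exact (dvd_neg.2 (hps.mul_left c))
  · rw [hDD]
    exact n1
  · rw [hDP]
    exact n2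
  · rw [hDD, hDP]
    exact n3
  · rintro ⟨-, h⟩
    rw [hq] at h
    exact hpB (hqp.trans h)
  · rw [hDD1]
    exact n2
  · rw [hDP1]
    exact fun h => n1 (sq_of_mul hs0 h)
  · rw [hDD1, hDP1]
    intro h
    refine n3 (sq_of_mul hs0 ?_)
    have h1 : s ^ 2 * (((4 * s - c) ^ 2 - 4) * (1 + 4 * c * s)) =
      (1 + 4 * c * s) * (s ^ 2 * ((4 * s - c) ^ 2 - 4)) := by ring
    rw [h1]
    exact h
  · rintro ⟨h, -⟩
    rw [hq] at h
    have h1 : (p : ℤ) ∣ 1 := by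
      have := hqp.trans h
      simpa using this
    exact hpi.not_isUnit (isUnit_of_dvd_one h1)
  · rw [hDD, hDP1]
    ring
  · rw [hDP, hDD1]
    ring
  · rw [hq]
    ring
  · intro h
    omega

end Pool.Agent.GT4
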