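import Pool.Agent.GT4.St3

/-!
# GT4, module FC (helper28): mixed reflex pairs over the fields with `9 ^ k` elements
-/

set_option autoImplicit false

namespace Pool.Agent.GT4

open Pool.Agent.GT2 Pool.Agent.GT3

namespace FCAux

lemma nsq3 {N : ℤ} (h3 : (3 : ℤ) ∣ N) (h9 : ¬ (9 : ℤ) ∣ N) : ¬ IsSquare N := by
  rintro ⟨x, hx⟩
  rw [hx] at h3 h9
  have h : (3 : ℤ) ∣ x := (Int.prime_three.dvd_or_dvd h3).elim id id
  exact h9 (by simpa using mul_dvd_mul h h)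

lemma of_mul {x y : ℤ} (hy : y ≠ 0) (h : IsSquare (x * y ^ 2)) : IsSquare x := by
  obtain ⟨z, hz⟩ := h
  have h1 : y ^ 2 ∣ z ^ 2 := ⟨x, by rw [sq z, ← hz]; ring⟩
  obtain ⟨t, rfl⟩ := (Int.pow_dvd_pow_iff two_ne_zero).1 h1
  refine ⟨t, ?_⟩
  have h2 : y ^ 2 ≠ 0 := pow_ne_zero 2 hy
  have h3 : y ^ 2 * x = y ^ 2 * (t * t) := by linear_combination hz
  exact mul_left_cancel₀ h2 h3

lemma between {s : ℤ} (hs : 3 ≤ s) : ¬ IsSquare (s ^ 2 + 4) := by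
  rintro ⟨x, hx⟩
  have h3 : s < |x| := by
    by_contra hc
    push Not at hc
    nlinarith [abs_mul_abs_self x, abs_nonneg x]
  have h4 : |x| < s + 1 := by
    by_contra hc
    push Not at hc
    nlinarith [abs_mul_abs_self x, abs_nonneg x]
  omega

/-- the integer `3 ^ k` -/
lemma pw (k : ℕ) (hk : 1 ≤ k) : ∃ t : ℤ, (3 : ℤ) ^ k = 3 * t ∧ 1 ≤ t ∧ (t % 3 = 0 ∨ t = 1) := by
  obtain ⟨j, rfl⟩ := Nat.exists_eq_add_of_le hk
  refine ⟨3 ^ j, by ring, one_le_pow₀ (by norm_num), ?_⟩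
  rcases j with _ | j
  · right
    norm_num
  · left
    rw [pow_succ]
    omega

end FCAux

open FCAux in
theorem t_FC : S_FC := by
  intro k hk
  obtain ⟨t, hst, ht, ht3⟩ := pw k hk
  obtain ⟨s, hs⟩ : ∃ s : ℤ, s = (3 : ℤ) ^ k := ⟨_, rfl⟩
  have hst' : s = 3 * t := by rw [hs, hst]
  have hs3 : 3 ≤ s := by omega
  have hq : (((3 ^ k) ^ 2 : ℕ) : ℤ) = s ^ 2 := by rw [hs]; push_cast; ring
  have hDD : DD 4 (16 - 8 * s) = (2 * s - 3) * 4 ^ 2 := by unfold DD; ring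
  have hDP : DP ((3 ^ k) ^ 2) 4 (16 - 8 * s) = (s ^ 2 + 4) * (4 * (s - 2)) ^ 2 := by
    unfold DP; rw [hq]; ring
  have hDD₁ : DD (2 * s - 4) (-4 * s) = (s ^ 2 + 4) * 2 ^ 2 := by unfold DD; ring
  have hDP₁ : DP ((3 ^ k) ^ 2) (2 * s - 4) (-4 * s) = (2 * s - 3) * (4 * s) ^ 2 := by
    unfold DP; rw [hq]; ring
  have n9 : ¬ (9 : ℤ) ∣ 2 * s - 3 := by
    rw [hst']
    omega
  have d3 : (3 : ℤ) ∣ 2 * s - 3 := by
    rw [hst']
    omega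
  have e1 : ¬ IsSquare (2 * s - 3) := nsq3 d3 n9
  have e2 : ¬ IsSquare (s ^ 2 + 4) := between hs3
  have e3 : ¬ IsSquare ((2 * s - 3) * (s ^ 2 + 4)) := by
    apply nsq3 (Dvd.dvd.mul_right d3 _)
    intro h
    have hcop : IsCoprime (9 : ℤ) (s ^ 2 + 4) := by
      refine ⟨1 + 2 * t ^ 2, -2, ?_⟩
      rw [hst']
      ring
    exact n9 (hcop.dvd_of_dvd_mul_right h)
  have ns2 : s - 2 ≠ 0 := by omega
  have n42 : (4 : ℤ) * (s - 2) ≠ 0 := mul_ne_zero (by norm_num) ns2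
  have n4s : (4 : ℤ) * s ≠ 0 := by omega
  have g : Gn ((3 ^ k) ^ 2) 4 (16 - 8 * s) := by
    refine ⟨fun h => e1 (of_mul (by norm_num) (hDD ▸ h)), fun h => e2 (of_mul n42 (hDP ▸ h)),
      fun h => ?_, ?_⟩
    · rw [hDD, hDP] at h
      refine e3 (of_mul (y := 4 * (4 * (s - 2))) (mul_ne_zero (by norm_num) n42) ?_)
      have : (2 * s - 3) * (s ^ 2 + 4) * (4 * (4 * (s - 2))) ^ 2 =
          (2 * s - 3) * 4 ^ 2 * ((s ^ 2 + 4) * (4 * (s - 2)) ^ 2) := by ring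
      rw [this]
      exact h
    · rintro ⟨h, -⟩
      rw [hq, hst'] at h
      have h9 : (9 : ℤ) ∣ 4 ^ 2 := (Dvd.intro (t ^ 2) (by ring)).trans h
      omega
  have g₁ : Gn ((3 ^ k) ^ 2) (2 * s - 4) (-4 * s) := by
    refine ⟨fun h => e2 (of_mul (by norm_num) (hDD₁ ▸ h)), fun h => e1 (of_mul n4s (hDP₁ ▸ h)),
      fun h => ?_, ?_⟩
    · rw [hDD₁, hDP₁] at h
      refine e3 (of_mul (y := 2 * (4 * s)) (mul_ne_zero (by norm_num) n4s) ?_)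
      have : (2 * s - 3) * (s ^ 2 + 4) * (2 * (4 * s)) ^ 2 =
          (s ^ 2 + 4) * 2 ^ 2 * ((2 * s - 3) * (4 * s) ^ 2) := by ring
      rw [this]
      exact h
    · rintro ⟨h, -⟩
      rw [hq, hst'] at h
      have h9 : (3 : ℤ) ∣ (2 * (3 * t) - 4) ^ 2 := (Dvd.intro (3 * t ^ 2) (by ring)).trans h
      have h3 : (3 : ℤ) ∣ 2 * (3 * t) - 4 := Int.prime_three.dvd_of_dvd_pow h9
      omega
  refine ⟨4, 16 - 8 * s, 2 * s - 4, -4 * s, ⟨⟨?_, ?_, ?_, ?_⟩, Or.inl ?_⟩,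
    ⟨⟨?_, ?_, ?_, ?_⟩, Or.inr (Or.inl ⟨?_, ?_, ?_, Or.inr ?_⟩)⟩, ?_,
    g, g₁, -(16 * s * (2 * s - 3)), 8 * (s - 2) * (s ^ 2 + 4), 8 * (s + 1) * (s - 2),
    ?_, ?_, ?_, fun h => ?_⟩
  · rw [hDD]
    nlinarith
  · rw [hDP]
    positivity
  · rw [hq]
    nlinarith
  · rw [hq]
    nlinarith
  · rw [hst']
    push_cast
    omega
  · rw [hDD₁]
    positivity
  · rw [hDP₁]
    exact mul_nonneg (by omega) (sq_nonneg _)
  · rw [hq]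
    nlinarith
  · rw [hq]
    nlinarith
  · rw [hst']
    push_cast
    omega
  · rw [hst']
    push_cast
    omega
  · rw [hq]
    exact ⟨16, by ring⟩
  · intro hPS
    obtain ⟨x, hx⟩ := hPS (2 * k + 2)
    rw [hDP₁] at hx
    have h9 : ((3 : ℕ) : ℤ) ^ (2 * k + 2) = s ^ 2 * 9 := by
      rw [hs]
      push_cast
      ring
    rw [h9] at hx
    have h1 : s ^ 2 ∣ x ^ 2 := by
      have h2 : s ^ 2 ∣ x ^ 2 - (2 * s - 3) * (4 * s) ^ 2 := (Dvd.intro _ rfl).trans hx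
      have h3 : s ^ 2 ∣ (2 * s - 3) * (4 * s) ^ 2 := ⟨(2 * s - 3) * 16, by ring⟩
      exact (dvd_sub_left h3).1 h2
    obtain ⟨y, rfl⟩ := (Int.pow_dvd_pow_iff two_ne_zero).1 h1
    have h4 : s ^ 2 * 9 ∣ s ^ 2 * (y ^ 2 - 16 * (2 * s - 3)) := by
      have : (s * y) ^ 2 - (2 * s - 3) * (4 * s) ^ 2 = s ^ 2 * (y ^ 2 - 16 * (2 * s - 3)) := by
        ring
      rw [← this]
      exact hx
    have h5 : (9 : ℤ) ∣ y ^ 2 - 16 * (2 * s - 3) :=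
      Int.dvd_of_mul_dvd_mul_left (by positivity) h4
    have h6 : (3 : ℤ) ∣ y ^ 2 := by
      have h7 : (3 : ℤ) ∣ y ^ 2 - 16 * (2 * s - 3) := (by norm_num : (3 : ℤ) ∣ 9).trans h5
      have h8 : (3 : ℤ) ∣ 16 * (2 * s - 3) := Dvd.dvd.mul_left d3 _
      exact (dvd_sub_left h8).1 h7
    have h7 : (3 : ℤ) ∣ y := Int.prime_three.dvd_of_dvd_pow h6
    obtain ⟨z, rfl⟩ := h7
    have h8 : (9 : ℤ) ∣ 16 * (2 * s - 3) := by
      have h10 : (9 : ℤ) ∣ (3 * z) ^ 2 := ⟨z ^ 2, by ring⟩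
      exact (dvd_sub_right h10).1 h5
    omega
  · rw [hst']
    push_cast
    omega
  · rw [hDD, hDP₁]
    ring
  · rw [hDP, hDD₁]
    ring
  · rw [hq]
    ring
  · exfalso
    have : (8 * (s + 1) * (s - 2) : ℤ) ≠ 0 :=
      mul_ne_zero (by omega) ns2
    exact this h

end Pool.Agent.GT4
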