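import Pool.Agent.GT4.St3
import Pool.Agent.GT3.ODD

/-!
# GT4, module FD: an explicit mixed reflex pair over the field with `2 * 4 ^ k` elements
-/

set_option autoImplicit false

namespace Pool.Agent.GT4

open Pool.Agent.GT2 Pool.Agent.GT3

namespace FDAux

/-- a square times a nonzero square -/
lemma sq_of_mul_sq {x y : ℤ} (hy : y ≠ 0) (h : IsSquare (x * y ^ 2)) : IsSquare x := by
  obtain ⟨r, hr⟩ := h
  have h1 : y ^ 2 ∣ r ^ 2 := ⟨x, by rw [sq r, ← hr]; ring⟩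
  obtain ⟨c, rfl⟩ := (Int.pow_dvd_pow_iff two_ne_zero).1 h1
  refine ⟨c, ?_⟩
  have h2 : y ^ 2 * x = y ^ 2 * (c * c) := by linear_combination hr
  exact mul_left_cancel₀ (pow_ne_zero 2 hy) h2

lemma sq_mod (y : ℤ) : y ^ 2 % 4 = 0 ∨ y ^ 2 % 4 = 1 := by
  have h : y % 4 = 0 ∨ y % 4 = 1 ∨ y % 4 = 2 ∨ y % 4 = 3 := by omega
  rcases h with h | h | h | h <;> simp [sq, Int.mul_emod, h]

lemma not_sq2 {x : ℤ} (h : x % 4 = 2) : ¬ IsSquare x := by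
  rintro ⟨r, hr⟩
  rw [← sq] at hr
  have := sq_mod r
  omega

lemma not_sq_between {x r : ℤ} (h0 : 0 ≤ r) (h1 : r * r < x) (h2 : x < (r + 1) * (r + 1)) :
    ¬ IsSquare x := by
  rintro ⟨y, hy⟩
  have h3 : r < |y| := by
    by_contra hc
    push Not at hc
    nlinarith [abs_mul_abs_self y, abs_nonneg y]
  have h4 : |y| < r + 1 := by
    by_contra hc
    push Not at hc
    nlinarith [abs_mul_abs_self y, abs_nonneg y]
  omega

lemma not_sq_q (k : ℕ) : ¬ IsSquare (2 * (2 ^ k) ^ 2 : ℕ) := by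
  rintro ⟨r, hr⟩
  have h1 : IsSquare ((2 : ℤ) * (2 ^ k) ^ 2) := ⟨r, by exact_mod_cast hr⟩
  exact not_sq2 (by norm_num) (sq_of_mul_sq (pow_ne_zero k two_ne_zero) h1)

end FDAux

open FDAux in
theorem t_FD : S_FD := by
  intro k
  obtain ⟨s, hs⟩ : ∃ s : ℤ, s = 2 ^ k := ⟨_, rfl⟩
  have hs0 : 1 ≤ s := by rw [hs]; exact one_le_pow₀ (by norm_num)
  have hq : ((2 * (2 ^ k) ^ 2 : ℕ) : ℤ) = 2 * s ^ 2 := by rw [hs]; push_cast; rfl
  have hp : ((2 : ℕ) : ℤ) = 2 := rfl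
  obtain ⟨a, ha⟩ : ∃ a : ℤ, a = 2 * s - 1 := ⟨_, rfl⟩
  have ha1 : 1 ≤ a := by omega
  have ha0 : a ≠ 0 := by omega
  have dd : DD (2 * a) (a ^ 2 - 2) = 8 := by unfold DD; ring
  have dp : DP (2 * (2 ^ k) ^ 2) (2 * a) (a ^ 2 - 2) = (4 * s ^ 2 + 12 * s + 1) * a ^ 2 := by
    unfold DP
    rw [hq, ha]
    ring
  have dd1 : DD a (-4 * s) = 4 * s ^ 2 + 12 * s + 1 := by unfold DD; rw [ha]; ring
  have dp1 : DP (2 * (2 ^ k) ^ 2) a (-4 * s) = 2 * (2 * s * a) ^ 2 := by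
    unfold DP
    rw [hq, ha]
    ring
  have hodd : a % 2 = 1 := by omega
  have hB : (a ^ 2 - 2) % 2 = 1 := by
    have h1 : a ^ 2 % 2 = 1 := by simp [sq, Int.mul_emod, hodd]
    omega
  have n1 : ¬ IsSquare (4 * s ^ 2 + 12 * s + 1) :=
    not_sq_between (r := 2 * s + 2) (by omega) (by nlinarith) (by nlinarith)
  have n2 : ¬ IsSquare (2 * (4 * s ^ 2 + 12 * s + 1)) := not_sq2 (by omega)
  have hsa : 2 * s * a ≠ 0 := mul_ne_zero (by omega) ha0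
  have hps : ¬ PS 2 (DP (2 * (2 ^ k) ^ 2) a (-4 * s)) := by
    refine t_ODD 2 (2 * (2 ^ k) ^ 2) ⟨Nat.prime_two, 2 * k + 1, by omega, ?_⟩ (not_sq_q k)
      a (-4 * s) ?_ ?_ ?_
    · ring
    · rw [hp]; omega
    · rw [hp]; omega
    · rw [hq]; exact ⟨8, by ring⟩
  have g : Gn (2 * (2 ^ k) ^ 2) (2 * a) (a ^ 2 - 2) := by
    refine ⟨?_, ?_, ?_, ?_⟩
    · rw [dd]
      intro h
      have e : (2 : ℤ) * 2 ^ 2 = 8 := by norm_num
      have h2 : IsSquare ((2 : ℤ) * 2 ^ 2) := by rw [e]; exact h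
      exact not_sq2 (by norm_num) (sq_of_mul_sq two_ne_zero h2)
    · rw [dp]; exact fun h => n1 (sq_of_mul_sq ha0 h)
    · rw [dd, dp]
      intro h
      refine n2 (sq_of_mul_sq (y := 2 * a) (by omega) ?_)
      have e : 2 * (4 * s ^ 2 + 12 * s + 1) * (2 * a) ^ 2 =
          8 * ((4 * s ^ 2 + 12 * s + 1) * a ^ 2) := by ring
      rw [e]
      exact h
    · rintro ⟨-, h⟩
      rw [hq] at h
      have h2 : (2 : ℤ) ∣ a ^ 2 - 2 := Dvd.dvd.trans ⟨s ^ 2, rfl⟩ h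
      omega
  have g1 : Gn (2 * (2 ^ k) ^ 2) a (-4 * s) := by
    refine ⟨?_, ?_, ?_, ?_⟩
    · rw [dd1]; exact n1
    · rw [dp1]; exact fun h => not_sq2 (by norm_num) (sq_of_mul_sq hsa h)
    · rw [dd1, dp1]
      intro h
      refine n2 (sq_of_mul_sq hsa ?_)
      have e : 2 * (4 * s ^ 2 + 12 * s + 1) * (2 * s * a) ^ 2 =
          (4 * s ^ 2 + 12 * s + 1) * (2 * (2 * s * a) ^ 2) := by ring
      rw [e]
      exact h
    · rintro ⟨h, -⟩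
      rw [hq] at h
      have h2 : (2 : ℤ) ∣ a ^ 2 := Dvd.dvd.trans ⟨s ^ 2, rfl⟩ h
      have h3 := Int.prime_two.dvd_of_dvd_pow h2
      omega
  have has : a ^ 2 ≤ 4 * s ^ 2 := by nlinarith
  refine ⟨2 * a, a ^ 2 - 2, a, -4 * s, ⟨⟨?_, ?_, ?_, ?_⟩, Or.inl ?_⟩,
    ⟨⟨?_, ?_, ?_, ?_⟩, Or.inr (Or.inl ⟨?_, ?_, ?_, Or.inr hps⟩)⟩, ?_, g, g1,
    -8 * s * a, -a * (4 * s ^ 2 + 12 * s + 1), 2 * a ^ 2, ?_, ?_, ?_, ?_⟩
  · rw [dd]; norm_num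
  · rw [dp]; positivity
  · rw [hq]; nlinarith
  · rw [hq]; nlinarith
  · rw [hp]; omega
  · rw [dd1]; positivity
  · rw [dp1]; positivity
  · rw [hq]; nlinarith
  · rw [hq]; nlinarith
  · rw [hp]; omega
  · rw [hp]; omega
  · rw [hq]; exact ⟨8, by ring⟩
  · rw [hp]; omega
  · rw [dd, dp1]; ring
  · rw [dp, dd1]; ring
  · rw [hq, ha]; ring
  · intro h
    exfalso
    exact ha0 (pow_eq_zero_iff two_ne_zero |>.1 (by omega))

end Pool.Agent.GT4
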