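import Pool.Agent.GT4.St3
import Pool.Agent.GT3.ODD

/-!
# GT4, module FE: mixed reflex pairs over the fields of order `p ^ (2 k + 1)`, `p` equal to `1` modulo `4`
-/

set_option autoImplicit false

namespace Pool.Agent.GT4

open Pool.Agent.GT2 Pool.Agent.GT3

namespace FEAux

/-- sums of two squares prime to `p` -/
lemma sos {p : ℕ} (hp : p.Prime) (h4 : p % 4 = 1) (e : ℕ) :
    ∃ a b : ℤ, a ^ 2 + b ^ 2 = (p : ℤ) ^ (e + 1) ∧ ¬ (p : ℤ) ∣ a := by
  have hpi : Prime (p : ℤ) := Nat.prime_iff_prime_int.1 hp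
  haveI : Fact p.Prime := ⟨hp⟩
  obtain ⟨x, y, hxy⟩ := Nat.Prime.sq_add_sq (p := p) (by omega)
  have hxy' : (x : ℤ) ^ 2 + (y : ℤ) ^ 2 = p := by exact_mod_cast hxy
  have hx : ¬ (p : ℤ) ∣ x := by
    intro h
    have h1 : p ∣ x := Int.natCast_dvd_natCast.1 h
    have h2 : p ∣ y ^ 2 := by
      have h3 : p ∣ x ^ 2 + y ^ 2 := by rw [hxy]
      exact (Nat.dvd_add_right (Dvd.dvd.pow h1 (by norm_num))).1 h3
    have h3 : p ∣ y := hp.dvd_of_dvd_pow h2
    obtain ⟨u, rfl⟩ := h1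
    obtain ⟨v, rfl⟩ := h3
    have h5 : p * (p * (u ^ 2 + v ^ 2)) = p * 1 := by
      calc p * (p * (u ^ 2 + v ^ 2)) = (p * u) ^ 2 + (p * v) ^ 2 := by ring
        _ = p * 1 := by rw [hxy, mul_one]
    have h6 := Nat.eq_of_mul_eq_mul_left hp.pos h5
    exact hp.one_lt.ne' (Nat.eq_one_of_mul_eq_one_right h6)
  have h2 : ¬ (p : ℤ) ∣ 2 := by
    intro h
    have h5 : p ∣ 2 := by exact_mod_cast h
    have h6 := Nat.le_of_dvd (by norm_num) h5
    have h7 := hp.two_le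
    have h8 : p = 2 := by omega
    rw [h8] at h4
    omega
  induction e with
  | zero => exact ⟨x, y, by rw [hxy']; ring, hx⟩
  | succ e ih =>
    obtain ⟨a, b, hab, ha⟩ := ih
    by_cases h : (p : ℤ) ∣ a * x - b * y
    · refine ⟨a * x + b * y, a * y - b * x, ?_, ?_⟩
      · calc (a * x + b * y) ^ 2 + (a * y - b * x) ^ 2 =
            (a ^ 2 + b ^ 2) * ((x : ℤ) ^ 2 + (y : ℤ) ^ 2) := by ring
          _ = (p : ℤ) ^ (e + 1 + 1) := by rw [hab, hxy']; ring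
      · intro h'
        have h5 : (p : ℤ) ∣ 2 * (a * x) := by
          have h6 := dvd_add h h'
          have h7 : a * x - b * y + (a * x + b * y) = 2 * (a * x) := by ring
          rwa [h7] at h6
        rcases hpi.dvd_or_dvd h5 with h6 | h6
        · exact h2 h6
        · rcases hpi.dvd_or_dvd h6 with h7 | h7
          · exact ha h7
          · exact hx h7
    · refine ⟨a * x - b * y, a * y + b * x, ?_, h⟩
      calc (a * x - b * y) ^ 2 + (a * y + b * x) ^ 2 =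
          (a ^ 2 + b ^ 2) * ((x : ℤ) ^ 2 + (y : ℤ) ^ 2) := by ring
        _ = (p : ℤ) ^ (e + 1 + 1) := by rw [hab, hxy']; ring

/-- odd powers times units -/
lemma nsq {p : ℕ} (hp : p.Prime) (k : ℕ) {M : ℤ} (hM : ¬ (p : ℤ) ∣ M) :
    ¬ IsSquare ((p : ℤ) ^ (2 * k + 1) * M) := by
  haveI : Fact p.Prime := ⟨hp⟩
  rintro ⟨c, hc⟩
  have h1 : p ^ (2 * k + 1) * M.natAbs = c.natAbs * c.natAbs := by
    have h2 := congrArg Int.natAbs hc
    rw [Int.natAbs_mul, Int.natAbs_mul, Int.natAbs_pow, Int.natAbs_natCast] at h2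
    exact h2
  have hM0 : M.natAbs ≠ 0 := by
    intro h
    apply hM
    rw [Int.natAbs_eq_zero.1 h]
    exact dvd_zero _
  have hM' : ¬ p ∣ M.natAbs := fun h => hM (Int.natCast_dvd.2 h)
  have hc0 : c.natAbs ≠ 0 := by
    intro h
    rw [h, mul_zero] at h1
    rcases Nat.mul_eq_zero.1 h1 with h2 | h2
    · exact (pow_ne_zero _ hp.ne_zero) h2
    · exact hM0 h2
  have h3 := congrArg (padicValNat p) h1
  rw [padicValNat.mul (pow_ne_zero _ hp.ne_zero) hM0, padicValNat.mul hc0 hc0,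
    padicValNat.prime_pow, padicValNat.eq_zero_of_not_dvd hM'] at h3
  omega

/-- `a² + 8 q` is not a square -/
lemma nsq8 {p : ℕ} (hp : p.Prime) (k : ℕ) {a c q : ℤ} (hq : q = (p : ℤ) ^ (2 * k + 1))
    (h16 : 16 < q) (ha0 : 0 < a) (haq : a ^ 2 < q) (ha : ¬ (p : ℤ) ∣ 2 * a) (hc : 0 ≤ c) :
    a ^ 2 + 8 * q ≠ c ^ 2 := by
  intro h
  have hpi : Prime (p : ℤ) := Nat.prime_iff_prime_int.1 hp
  have h1 : a < c := by nlinarith
  have h2 : c + a < q := by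
    by_contra hcon
    push Not at hcon
    nlinarith [sq_nonneg (c - 3 * a)]
  have h3 : q ∣ (c - a) * (c + a) := ⟨8, by linear_combination -h⟩
  by_cases h4 : (p : ℤ) ∣ c - a
  · have h5 : ¬ (p : ℤ) ∣ c + a := by
      intro h6
      apply ha
      have h7 := dvd_sub h6 h4
      have h8 : c + a - (c - a) = 2 * a := by ring
      rwa [h8] at h7
    have h6 : IsCoprime q (c + a) := by
      rw [hq]
      exact ((Prime.coprime_iff_not_dvd hpi).2 h5).pow_left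
    have h7 := h6.dvd_of_dvd_mul_right h3
    have h8 := Int.le_of_dvd (by omega) h7
    omega
  · have h6 : IsCoprime q (c - a) := by
      rw [hq]
      exact ((Prime.coprime_iff_not_dvd hpi).2 h4).pow_left
    have h7 := h6.dvd_of_dvd_mul_left h3
    have h8 := Int.le_of_dvd (by omega) h7
    omega

end FEAux

open FEAux in
theorem t_FE : S_FE := by
  intro p k hp h4 h16
  have hpi : Prime (p : ℤ) := Nat.prime_iff_prime_int.1 hp
  obtain ⟨a₀, b₀, hab₀, ha₀⟩ := sos hp h4 (2 * k)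
  obtain ⟨q, hq⟩ : ∃ q : ℕ, q = p ^ (2 * k + 1) := ⟨_, rfl⟩
  rw [← hq] at h16 ⊢
  have hqz : (q : ℤ) = (p : ℤ) ^ (2 * k + 1) := by rw [hq]; push_cast; ring
  obtain ⟨a, ha⟩ : ∃ a : ℤ, a = |a₀| := ⟨_, rfl⟩
  obtain ⟨b, hb⟩ : ∃ b : ℤ, b = |b₀| := ⟨_, rfl⟩
  have hab : a ^ 2 + b ^ 2 = (q : ℤ) := by rw [ha, hb, sq_abs, sq_abs, hab₀, hqz]
  have hpa : ¬ (p : ℤ) ∣ a := by rw [ha, dvd_abs]; exact ha₀
  have hpq : (p : ℤ) ∣ (q : ℤ) := by
    rw [hqz, pow_succ]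
    exact dvd_mul_left _ _
  have hpb : ¬ (p : ℤ) ∣ b := by
    intro h
    apply hpa
    have h1 : (p : ℤ) ∣ a ^ 2 := by
      have h2 : a ^ 2 = (q : ℤ) - b ^ 2 := by linear_combination hab
      rw [h2]
      exact dvd_sub hpq (Dvd.dvd.pow h (by norm_num))
    exact hpi.dvd_of_dvd_pow h1
  have ha0 : 0 < a := by
    rw [ha, abs_pos]
    rintro rfl
    exact ha₀ (dvd_zero _)
  have hb0 : 0 < b := by
    rw [hb, abs_pos]
    rintro rfl
    apply hpb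
    rw [hb, abs_zero]
    exact dvd_zero _
  have h16' : (16 : ℤ) < q := by exact_mod_cast h16
  have haq : a ^ 2 < (q : ℤ) := by nlinarith
  have hbq : b ^ 2 < (q : ℤ) := by nlinarith
  have h2 : ¬ (p : ℤ) ∣ 2 := by
    intro h
    have h5 : p ∣ 2 := by exact_mod_cast h
    have h6 := Nat.le_of_dvd (by norm_num) h5
    have h7 := hp.two_le
    have h8 : p = 2 := by omega
    rw [h8] at h4
    omega
  have hp4 : ¬ (p : ℤ) ∣ 4 := by
    intro h
    have h5 : (p : ℤ) ∣ 2 * 2 := by norm_num; exact h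
    rcases hpi.dvd_or_dvd h5 with h6 | h6 <;> exact h2 h6
  have hp2a : ¬ (p : ℤ) ∣ 2 * a := fun h => (hpi.dvd_or_dvd h).elim h2 hpa
  have hpa2 : ¬ (p : ℤ) ∣ a ^ 2 := fun h => hpa (hpi.dvd_of_dvd_pow h)
  have hpb2 : ¬ (p : ℤ) ∣ b ^ 2 := fun h => hpb (hpi.dvd_of_dvd_pow h)
  have hpM : ¬ (p : ℤ) ∣ a ^ 2 + 8 * q := by
    intro h
    apply hpa2
    exact (dvd_add_left (Dvd.dvd.mul_left hpq 8)).1 h
  have hns : ¬ IsSquare (a ^ 2 + 8 * (q : ℤ)) := by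
    rintro ⟨c, hc⟩
    refine nsq8 hp k hqz h16' ha0 haq hp2a (abs_nonneg c) ?_
    rw [sq_abs, hc, sq]
  have hDD : DD (2 * b) (-a ^ 2) = 4 * q := by
    unfold DD
    linear_combination 4 * hab
  have hDP : DP q (2 * b) (-a ^ 2) = a ^ 2 * (a ^ 2 + 8 * q) := by
    unfold DP
    linear_combination (-16 * (q : ℤ)) * hab
  have hDD₁ : DD a (-2 * q) = a ^ 2 + 8 * q := by
    unfold DD
    ring
  have hDP₁ : DP q a (-2 * q) = 4 * q * b ^ 2 := by
    unfold DP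
    linear_combination (-4 * (q : ℤ)) * hab
  have hq0 : (0 : ℤ) < q := by omega
  have hnq : ¬ IsSquare q := by
    rintro ⟨c, hc⟩
    have h5 : ¬ (p : ℤ) ∣ 1 := fun h => hpi.not_unit (isUnit_of_dvd_one h)
    apply nsq hp k h5
    rw [mul_one, ← hqz]
    exact ⟨c, by exact_mod_cast hc⟩
  have hPq : Pq p q := ⟨hp, 2 * k + 1, by omega, hq⟩
  have hB₁ : (p : ℤ) ∣ -2 * (q : ℤ) := Dvd.dvd.mul_left hpq (-2)
  have hqB : (q : ℤ) ∣ (-2 * (q : ℤ)) ^ 2 := ⟨4 * q, by ring⟩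
  have hpq' : ∀ x : ℤ, (q : ℤ) ∣ x → (p : ℤ) ∣ x := fun x h => hpq.trans h
  refine ⟨2 * b, -a ^ 2, a, -2 * q, ⟨?_, Or.inl ?_⟩, ⟨?_, Or.inr (Or.inl ?_)⟩, hB₁, ?_⟩
  · refine ⟨?_, ?_, ?_, ?_⟩
    · rw [hDD]
      omega
    · rw [hDP]
      positivity
    · nlinarith
    · nlinarith
  · intro h
    exact hpa2 ((dvd_neg.1 h))
  · refine ⟨?_, ?_, ?_, ?_⟩
    · rw [hDD₁]
      positivity
    · rw [hDP₁]
      positivity
    · omega
    · nlinarith
  · exact ⟨hB₁, hpa, hqB, Or.inr (t_ODD p q hPq hnq a _ hpa hB₁ hqB)⟩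
  · refine ⟨⟨?_, ?_, ?_, ?_⟩, ⟨?_, ?_, ?_, ?_⟩, -4 * q * b, -a * (a ^ 2 + 8 * q), 2 * a * b,
      ?_, ?_, ?_, ?_⟩
    · rw [hDD, hqz, mul_comm]
      exact nsq hp k hp4
    · rw [hDP]
      rintro ⟨c, hc⟩
      have h5 : a ^ 2 ∣ c ^ 2 := ⟨a ^ 2 + 8 * q, by rw [sq c, hc]⟩
      have h6 : a ∣ c := (Int.pow_dvd_pow_iff (by norm_num)).1 h5
      obtain ⟨d, rfl⟩ := h6
      apply hns
      refine ⟨d, ?_⟩
      have h7 : a ^ 2 * (a ^ 2 + 8 * q) = a ^ 2 * (d * d) := by rw [hc]; ring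
      exact mul_left_cancel₀ (pow_ne_zero 2 ha0.ne') h7
    · rw [hDD, hDP]
      have h5 : 4 * (q : ℤ) * (a ^ 2 * (a ^ 2 + 8 * q)) =
          (p : ℤ) ^ (2 * k + 1) * (4 * (a ^ 2 * (a ^ 2 + 8 * q))) := by rw [← hqz]; ring
      rw [h5]
      refine nsq hp k fun h => ?_
      rcases hpi.dvd_or_dvd h with h6 | h6
      · exact hp4 h6
      · rcases hpi.dvd_or_dvd h6 with h7 | h7
        · exact hpa2 h7
        · exact hpM h7
    · rintro ⟨h5, -⟩
      have h6 := hpq' _ h5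
      have h7 := hpi.dvd_of_dvd_pow h6
      exact (hpi.dvd_or_dvd h7).elim h2 hpb
    · rw [hDD₁]
      exact hns
    · rw [hDP₁]
      have h5 : 4 * (q : ℤ) * b ^ 2 = (p : ℤ) ^ (2 * k + 1) * (4 * b ^ 2) := by
        rw [← hqz]; ring
      rw [h5]
      refine nsq hp k fun h => ?_
      exact (hpi.dvd_or_dvd h).elim hp4 hpb2
    · rw [hDD₁, hDP₁]
      have h5 : (a ^ 2 + 8 * (q : ℤ)) * (4 * q * b ^ 2) =
          (p : ℤ) ^ (2 * k + 1) * (4 * (b ^ 2 * (a ^ 2 + 8 * q))) := by rw [← hqz]; ring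
      rw [h5]
      refine nsq hp k fun h => ?_
      rcases hpi.dvd_or_dvd h with h6 | h6
      · exact hp4 h6
      · rcases hpi.dvd_or_dvd h6 with h7 | h7
        · exact hpb2 h7
        · exact hpM h7
    · rintro ⟨h5, -⟩
      exact hpa2 (hpq' _ h5)
    · rw [hDD, hDP₁]
      ring
    · rw [hDP, hDD₁]
      ring
    · have h5 : (q : ℤ) = a ^ 2 + b ^ 2 := hab.symm
      rw [h5]
      ring
    · intro h
      exfalso
      have h5 : 0 < 2 * a * b := by positivity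
      omega

end Pool.Agent.GT4
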