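import Pool.Agent.GT4.St3
import Pool.Agent.GT3.ODD

/-!
# GT4, module FE (helper31, second version): mixed reflex pairs, `p` is `1` modulo `4`, odd powers
-/

set_option autoImplicit false

namespace Pool.Agent.GT4

open Pool.Agent.GT2 Pool.Agent.GT3

namespace FEbAux

lemma not_two (p : ℕ) (hp : p.Prime) (h4 : p % 4 = 1) : ¬ (p : ℤ) ∣ 2 := by
  intro h
  have h6 : p ∣ 2 := by exact_mod_cast h
  rcases (Nat.dvd_prime Nat.prime_two).1 h6 with h7 | h7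
  · exact hp.one_lt.ne' h7
  · omega

lemma rep (p : ℕ) (hp : p.Prime) (h4 : p % 4 = 1) (e : ℕ) :
    ∃ a b : ℤ, a ^ 2 + b ^ 2 = (p : ℤ) ^ e ∧ ¬ (p : ℤ) ∣ a := by
  have hpZ : Prime (p : ℤ) := Nat.prime_iff_prime_int.1 hp
  have : Fact p.Prime := ⟨hp⟩
  obtain ⟨x, y, hxy⟩ := Nat.Prime.sq_add_sq (p := p) (by omega)
  have hxy' : (x : ℤ) ^ 2 + (y : ℤ) ^ 2 = p := by exact_mod_cast hxy
  have hx : ¬ (p : ℤ) ∣ (x : ℤ) := by
    intro hx
    have hy2 : (p : ℤ) ∣ (y : ℤ) ^ 2 := by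
      have e1 : (y : ℤ) ^ 2 = p - (x : ℤ) * x := by linear_combination hxy'
      rw [e1]
      exact dvd_sub dvd_rfl (hx.mul_right _)
    have hy := hpZ.dvd_of_dvd_pow hy2
    obtain ⟨x', hx'⟩ := hx
    obtain ⟨y', hy'⟩ := hy
    have e2 : (p : ℤ) * (p * (x' ^ 2 + y' ^ 2)) = p * 1 := by
      rw [hx', hy'] at hxy'
      linear_combination hxy'
    have e3 := mul_left_cancel₀ hpZ.ne_zero e2
    exact hpZ.not_isUnit (IsUnit.of_mul_eq_one _ e3)
  have h2 := not_two p hp h4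
  induction e with
  | zero =>
    exact ⟨1, 0, by norm_num, fun h => hpZ.not_isUnit (isUnit_of_dvd_one h)⟩
  | succ e ih =>
    obtain ⟨a, b, hab, ha⟩ := ih
    by_cases h : (p : ℤ) ∣ a * x - b * y
    · refine ⟨a * x + b * y, a * y - b * x, ?_, fun h' => ?_⟩
      · rw [pow_succ (p : ℤ) e, ← hab, ← hxy']
        ring
      · have h3 : (p : ℤ) ∣ 2 * (a * x) := by
          have e1 : 2 * (a * (x : ℤ)) = (a * x - b * y) + (a * x + b * y) := by ring
          rw [e1]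
          exact dvd_add h h'
        rcases hpZ.dvd_or_dvd h3 with h5 | h5
        · exact h2 h5
        · rcases hpZ.dvd_or_dvd h5 with h6 | h6
          · exact ha h6
          · exact hx h6
    · refine ⟨a * x - b * y, a * y + b * x, ?_, h⟩
      rw [pow_succ (p : ℤ) e, ← hab, ← hxy']
      ring

/-- the representation with positive integers prime to `p` -/
lemma rep' (p : ℕ) (hp : p.Prime) (h4 : p % 4 = 1) (e : ℕ) (he : 1 ≤ e) :
    ∃ a b : ℤ, 0 < a ∧ 0 < b ∧ (p : ℤ) ^ e = a ^ 2 + b ^ 2 ∧ ¬ (p : ℤ) ∣ a ∧ ¬ (p : ℤ) ∣ b := by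
  have hpZ : Prime (p : ℤ) := Nat.prime_iff_prime_int.1 hp
  obtain ⟨a, b, hab, ha⟩ := rep p hp h4 e
  have hb : ¬ (p : ℤ) ∣ b := by
    intro hb
    apply ha
    apply hpZ.dvd_of_dvd_pow (n := 2)
    have e1 : a ^ 2 = (p : ℤ) ^ e - b * b := by linear_combination hab
    rw [e1]
    exact dvd_sub (dvd_pow_self _ (by omega)) (hb.mul_right _)
  refine ⟨|a|, |b|, abs_pos.2 ?_, abs_pos.2 ?_, ?_, ?_, ?_⟩
  · rintro rfl
    exact ha (dvd_zero _)
  · rintro rfl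
    exact hb (dvd_zero _)
  · rw [sq_abs, sq_abs, hab]
  · rwa [dvd_abs]
  · rwa [dvd_abs]

/-- `a² + 8 q` is not a square -/
lemma ns (p : ℕ) (hp : p.Prime) (h4 : p % 4 = 1) (e : ℕ) (q a b : ℤ) (hq : q = (p : ℤ) ^ e)
    (h16 : 16 < q) (ha : 0 < a) (hb : 0 < b) (hab : q = a ^ 2 + b ^ 2) (hpa : ¬ (p : ℤ) ∣ a) :
    ¬ IsSquare (a ^ 2 + 8 * q) := by
  have hpZ : Prime (p : ℤ) := Nat.prime_iff_prime_int.1 hp
  have h2 := not_two p hp h4
  rintro ⟨c0, hc0⟩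
  obtain ⟨c, hc, hcp⟩ : ∃ c : ℤ, a ^ 2 + 8 * q = c ^ 2 ∧ 0 ≤ c :=
    ⟨|c0|, by rw [hc0, sq_abs, sq], abs_nonneg _⟩
  have hac : a < c := by
    by_contra hcon
    push Not at hcon
    nlinarith
  have hmul : (c - a) * (c + a) = q * 8 := by linear_combination -hc
  have haq : a ^ 2 < q := by nlinarith
  have hcq : c ^ 2 < 9 * q := by linarith
  have hca : c * a < 3 * q := by
    by_contra hcon
    push Not at hcon
    have h5 : (3 * q) ^ 2 ≤ (c * a) ^ 2 := by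
      apply pow_le_pow_left₀ (by linarith) hcon
    have h6 : c ^ 2 * a ^ 2 < (9 * q) * q := by
      apply mul_lt_mul'' hcq haq (sq_nonneg _) (sq_nonneg _)
    nlinarith
  have hlt : c + a < q := by
    by_contra hcon
    push Not at hcon
    have h5 : q ^ 2 ≤ (c + a) ^ 2 := pow_le_pow_left₀ (by linarith) hcon 2
    nlinarith
  have key : q ∣ c + a ∨ q ∣ c - a := by
    by_cases h : (p : ℤ) ∣ c - a
    · right
      have h' : ¬ (p : ℤ) ∣ c + a := by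
        intro h'
        have h3 : (p : ℤ) ∣ 2 * a := by
          have e1 : 2 * a = (c + a) - (c - a) := by ring
          rw [e1]
          exact dvd_sub h' h
        rcases hpZ.dvd_or_dvd h3 with h5 | h5
        · exact h2 h5
        · exact hpa h5
      have hcop : IsCoprime q (c + a) := by
        rw [hq]
        exact IsCoprime.pow_left ((Prime.coprime_iff_not_dvd hpZ).2 h')
      exact hcop.dvd_of_dvd_mul_right (Dvd.intro _ hmul.symm)
    · left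
      have hcop : IsCoprime q (c - a) := by
        rw [hq]
        exact IsCoprime.pow_left ((Prime.coprime_iff_not_dvd hpZ).2 h)
      exact hcop.dvd_of_dvd_mul_left (Dvd.intro _ hmul.symm)
  rcases key with h | h
  · have := Int.le_of_dvd (by linarith) h
    linarith
  · have := Int.le_of_dvd (by linarith) h
    linarith

end FEbAux

open FEbAux in
theorem t_FEb : S_FE := by
  intro p k hp h4 h16
  have hpZ : Prime (p : ℤ) := Nat.prime_iff_prime_int.1 hp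
  have h2 := not_two p hp h4
  have h4' : ¬ (p : ℤ) ∣ 4 := by
    intro h
    have e1 : (4 : ℤ) = 2 * 2 := by norm_num
    rw [e1] at h
    rcases hpZ.dvd_or_dvd h with h | h <;> exact h2 h
  obtain ⟨a, b, ha, hb, hab, hpa, hpb⟩ := rep' p hp h4 (2 * k + 1) (by omega)
  obtain ⟨q, hq⟩ : ∃ q : ℕ, q = p ^ (2 * k + 1) := ⟨_, rfl⟩
  rw [← hq] at h16 ⊢
  have hqZ : (q : ℤ) = (p : ℤ) ^ (2 * k + 1) := by rw [hq]; push_cast; rfl
  have hqab : (q : ℤ) = a ^ 2 + b ^ 2 := by rw [hqZ, hab]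
  have h16' : (16 : ℤ) < q := by exact_mod_cast h16
  have hpq : (p : ℤ) ∣ q := by rw [hqZ]; exact dvd_pow_self _ (by omega)
  have hM := ns p hp h4 (2 * k + 1) q a b hqZ h16' ha hb hqab hpa
  have hPq : Pq p q := ⟨hp, 2 * k + 1, by omega, hq⟩
  have hqsq : ¬ IsSquare q := by
    rintro ⟨x, hx⟩
    refine ODDAux.not_sq hpZ k (x : ℤ) 1 (fun h => hpZ.not_isUnit (isUnit_of_dvd_one h)) ?_
    rw [mul_one, ← hqZ, hx]
    push_cast
    ring
  have hpM : ¬ (p : ℤ) ∣ a ^ 2 + 8 * q := by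
    intro h
    apply hpa
    apply hpZ.dvd_of_dvd_pow (n := 2)
    have e1 : a ^ 2 = (a ^ 2 + 8 * q) - 8 * (q : ℤ) := by ring
    rw [e1]
    exact dvd_sub h (hpq.mul_left _)
  have hpa2 : ¬ (p : ℤ) ∣ a ^ 2 := fun h => hpa (hpZ.dvd_of_dvd_pow h)
  have hpb2 : ¬ (p : ℤ) ∣ b ^ 2 := fun h => hpb (hpZ.dvd_of_dvd_pow h)
  have nd : ∀ x y : ℤ, ¬ (p : ℤ) ∣ x → ¬ (p : ℤ) ∣ y → ¬ (p : ℤ) ∣ x * y := fun x y hx hy h =>
    (hpZ.dvd_or_dvd h).elim hx hy
  -- `q` times a number prime to `p` is not a square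
  have nsq : ∀ u : ℤ, ¬ (p : ℤ) ∣ u → ¬ IsSquare ((q : ℤ) * u) := by
    rintro u hu ⟨x, hx⟩
    refine ODDAux.not_sq hpZ k x u hu ?_
    rw [← hqZ, hx, sq]
  have eDD : DD (2 * b) (-a ^ 2) = q * 4 := by
    unfold DD
    rw [hqab]
    ring
  have eDP : DP q (2 * b) (-a ^ 2) = a ^ 2 * (a ^ 2 + 8 * q) := by
    unfold DP
    rw [hqab]
    ring
  have eDD1 : DD a (-2 * q) = a ^ 2 + 8 * q := by
    unfold DD
    ring
  have eDP1 : DP q a (-2 * q) = q * (4 * b ^ 2) := by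
    unfold DP
    rw [hqab]
    ring
  have hodd := t_ODD p q hPq hqsq a (-2 * q) hpa (hpq.mul_left _) ⟨4 * q, by ring⟩
  have hG : Gn q (2 * b) (-a ^ 2) := by
    refine ⟨?_, ?_, ?_, ?_⟩
    · rw [eDD]
      exact nsq 4 h4'
    · rw [eDP]
      rintro ⟨x, hx⟩
      apply hM
      have h5 : a ∣ x := by
        rw [← Int.pow_dvd_pow_iff (two_ne_zero)]
        exact ⟨a ^ 2 + 8 * q, by rw [sq x, hx]⟩
      obtain ⟨y, rfl⟩ := h5
      refine ⟨y, mul_left_cancel₀ (pow_ne_zero 2 ha.ne') ?_⟩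
      rw [hx]
      ring
    · rw [eDD, eDP]
      have e1 : (q : ℤ) * 4 * (a ^ 2 * (a ^ 2 + 8 * q)) = q * (4 * (a ^ 2 * (a ^ 2 + 8 * q))) := by
        ring
      rw [e1]
      exact nsq _ (nd _ _ h4' (nd _ _ hpa2 hpM))
    · rintro ⟨-, h⟩
      apply hpa2
      rw [dvd_neg] at h
      exact hpq.trans h
  have hG1 : Gn q a (-2 * q) := by
    refine ⟨?_, ?_, ?_, ?_⟩
    · rw [eDD1]
      exact hM
    · rw [eDP1]
      exact nsq _ (nd _ _ h4' hpb2)
    · rw [eDD1, eDP1]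
      have e1 : (a ^ 2 + 8 * (q : ℤ)) * (q * (4 * b ^ 2)) = q * ((a ^ 2 + 8 * q) * (4 * b ^ 2)) := by
        ring
      rw [e1]
      exact nsq _ (nd _ _ hpM (nd _ _ h4' hpb2))
    · rintro ⟨h, -⟩
      exact hpa2 (hpq.trans h)
  have hw : W2 q (2 * b) (-a ^ 2) := by
    refine ⟨?_, ?_, ?_, ?_⟩
    · rw [eDD]; positivity
    · rw [eDP]; positivity
    · nlinarith
    · nlinarith
  have hw1 : W2 q a (-2 * q) := by
    refine ⟨?_, ?_, ?_, ?_⟩
    · rw [eDD1]; positivity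
    · rw [eDP1]; positivity
    · nlinarith
    · nlinarith
  refine ⟨2 * b, -a ^ 2, a, -2 * q, ⟨hw, Or.inl ?_⟩, ⟨hw1, Or.inr (Or.inl ?_)⟩, hpq.mul_left _,
    hG, hG1, -4 * q * b, -a * (a ^ 2 + 8 * q), 2 * a * b, ?_, ?_, ?_, ?_⟩
  · rwa [dvd_neg]
  · exact ⟨hpq.mul_left _, hpa, ⟨4 * q, by ring⟩, Or.inr hodd⟩
  · rw [eDD, eDP1]
    ring
  · rw [eDP, eDD1]
    ring
  · rw [hqab]
    ring
  · intro h
    exact absurd h (by positivity)

end Pool.Agent.GT4
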