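import Pool.Agent.GT4.St

/-!
# GT4, module M3X: no mixed exact pairs for `q ≡ 3` modulo `4`
-/

set_option autoImplicit false

namespace Pool.Agent.GT4

open Pool.Agent.GT2 Pool.Agent.GT3

namespace M3XAux

/-- roots exist in `Qb` -/
lemma ex_rt (q : ℕ) (hq : 1 ≤ q) (A B : ℤ) : ∃ a : Qb, Rt q A B a := by
  have hac : IsAlgClosed Qb := AlgebraicClosure.isAlgClosed ℚ
  obtain ⟨d, hd⟩ := IsAlgClosed.exists_pow_nat_eq ((A : Qb) ^ 2 - 4 * B) (n := 2) (by norm_num)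
  obtain ⟨e, he⟩ := IsAlgClosed.exists_pow_nat_eq (((-(A : Qb) + d) / 2) ^ 2 - 4 * q) (n := 2)
    (by norm_num)
  have hq0 : (q : Qb) ≠ 0 := qne hq
  set t : Qb := (-(A : Qb) + d) / 2 with ht
  have h1 : (t + e) / 2 * (t - (t + e) / 2) = q := by
    linear_combination (-(1 / 4 : Qb)) * he
  have ha : (t + e) / 2 ≠ 0 := by
    intro h
    rw [h, zero_mul] at h1
    exact hq0 h1.symm
  refine ⟨(t + e) / 2, ha, ?_⟩
  have h2 : (q : Qb) / ((t + e) / 2) = t - (t + e) / 2 := by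
    rw [div_eq_iff ha, ← h1]
    ring
  rw [h2, add_sub_cancel, ht]
  linear_combination (1 / 4 : Qb) * hd

/-- not mixed -/
lemma mixed (hEXV : S_EXV) (hLFN : S_LFN) (hCFX : S_CFX) (hMIX : S_MIX) {p q : ℕ} (hpq : Pq p q)
    (hq3 : q % 4 = 3) {A B A₁ B₁ : ℤ} (t : Tr p q A B) (t₁ : Tr p q A₁ B₁)
    (hR : Rx q A B A₁ B₁) (hB : ¬ (p : ℤ) ∣ B) : ¬ O1 p q A₁ B₁ := by
  classical
  have hq : 1 ≤ q := by omega
  obtain ⟨v, hna, hlt⟩ := hEXV p hpq.pr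
  obtain ⟨a, ha⟩ := ex_rt q hq A B
  obtain ⟨a₁, ha₁⟩ := ex_rt q hq A₁ B₁
  obtain ⟨L, hfin, hgal, hmem, -⟩ := hLFN {a, a₁}
  have hnf : NumberField L := @NumberField.mk _ _ inferInstance (by convert hfin)
  let f : L →+* Qb := algebraMap L Qb
  have hf : Function.Injective f := (algebraMap L Qb).injective
  have hrt : ∀ y (h : y ∈ L) (A B : ℤ), Rt q A B y → Rt q A B (⟨y, h⟩ : L) := by
    intro y h A B hr
    refine ⟨fun h0 => hr.1 (by simpa using congrArg (Subtype.val) h0), ?_⟩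
    apply hf
    have := hr.2
    simpa [f] using this
  have haL : a ∈ L := hmem a (by simp)
  have ha₁L : a₁ ∈ L := hmem a₁ (by simp)
  exact hMIX L f v p q hpq hna hlt hq3 A B A₁ B₁ ⟨a, haL⟩ ⟨a₁, ha₁L⟩ t t₁
    (hCFX L q hq A B A₁ B₁ ⟨a, haL⟩ ⟨a₁, ha₁L⟩ t.w t₁.w (hrt a haL A B ha)
      (hrt a₁ ha₁L A₁ B₁ ha₁) hR) hB

end M3XAux

open M3XAux in
/-- **M3X.** -/
theorem t_M3X : M_M3X := by
  intro hINT hEXV hLFN hCFX hRXS hMIX p q hpq hq3 A B A₁ B₁ t t₁ hd hR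
  rcases t.t with o | o | o
  · rcases t₁.t with o₁ | o₁ | o₁
    · rcases hd with h | h
      · exact o h
      · exact o₁ h
    · exact mixed hEXV hLFN hCFX hMIX hpq hq3 t t₁ hR o o₁
    · exact hR.2.1.2.2.2 o₁
  · rcases t₁.t with o₁ | o₁ | o₁
    · exact mixed hEXV hLFN hCFX hMIX hpq hq3 t₁ t (hRXS q A B A₁ B₁ hR) o₁ o
    · have hps : ¬ PS p (DP q A₁ B₁) := by
        rcases o₁.2.2.2 with k | k
        · exact absurd (by rw [k]; exact IsSquare.zero) hR.2.1.2.1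
        · exact k
      obtain ⟨-, -, n, m, w, hn, -, -, -⟩ := hR
      exact absurd (⟨n, by rw [← hn]; ring⟩ : IsSquare (DD A B * DP q A₁ B₁))
        (((hINT p q hpq A B A₁ B₁).2 hps).2.2 o.2.1 o.1)
    · exact hR.2.1.2.2.2 o₁
  · exact hR.1.2.2.2 o

end Pool.Agent.GT4
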