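import Pool.Agent.GT4.St
import Pool.Agent.GT3.MXA

/-!
# GT4, module MXG: mixed pairs, every finite field
-/

set_option autoImplicit false

namespace Pool.Agent.GT4

open Pool.Agent.GT2 Pool.Agent.GT3

noncomputable section

namespace MXGAux

lemma pm {x y : ℝ} (hx : x = 1 ∨ x = -1) (hy : y = 1 ∨ y = -1) (h : x * y = 1) : y = x := by
  rcases hx with rfl | rfl <;> rcases hy with rfl | rfl <;> norm_num at h <;> norm_num

lemma pm' {x y : ℝ} (hx : x = 1 ∨ x = -1) (hy : y = 1 ∨ y = -1) (h : x * y = -1) : y = -x := by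
  rcases hx with rfl | rfl <;> rcases hy with rfl | rfl <;> norm_num at h <;> norm_num

lemma pm_mul {x y : ℝ} (hx : x = 1 ∨ x = -1) (hy : y = 1 ∨ y = -1) :
    x * y = 1 ∨ x * y = -1 := by
  rcases hx with rfl | rfl <;> rcases hy with rfl | rfl <;> norm_num

lemma pm_neg {x y : ℝ} (hx : x = 1 ∨ x = -1) (hy : y = 1 ∨ y = -1) (h : x ≠ y) : x = -y := by
  rcases hx with rfl | rfl <;> rcases hy with rfl | rfl
  · exact absurd rfl h
  · norm_num
  · rfl
  · exact absurd rfl h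

end MXGAux

open MXGAux Pool.Agent.GT3.MXAAux Pool.Agent.GT2.LOCAux Pool.Agent.GT2.REFAux in
theorem t_MXG : M_MXG := by
  intro hLOC hPSM hDOM L _ _ _ v p q hV A B A₁ B₁ a a₁ x hC hB hO hsq hx hxt hsw
  have hq := q_ge hV.pq
  obtain ⟨hB1, hA1, hB2, hO4⟩ := hO
  obtain ⟨c, hc⟩ := hC.c
  have hna := hV.na
  have hF1 : ∀ {A' B' : ℤ} {z : L}, Rt q A' B' z → F q v ((q : L) / z) = - F q v z :=
    fun {A' B' z} hz => (hLOC L v p q hV A' B' z hz).2.2.2
  have hFσ : ∀ {A' B' : ℤ} {z : L}, Rt q A' B' z → ∀ σ : L ≃ₐ[ℚ] L,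
      F q v (σ ((q : L) / z)) = - F q v (σ z) := by
    intro A' B' z hz σ
    rw [map_bar]
    exact hF1 (hz.map σ)
  -- the signs
  have hf : ∀ σ : L ≃ₐ[ℚ] L, F q v (σ a) = 1 ∨ F q v (σ a) = -1 := fun σ =>
    (hLOC L v p q hV A B (σ a) (hC.ra.map σ)).1 hB
  have hh : ∀ σ : L ≃ₐ[ℚ] L, F q v (σ a₁) + F q v (σ x) = 1 ∨
      F q v (σ a₁) + F q v (σ x) = -1 := by
    intro σ
    obtain ⟨η, h1, h2, -⟩ := two hLOC hV hA1 hB1 hB2 (hC.ra₁.map σ) (hx.map σ) (by
      have := congrArg σ hxt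
      rw [map_tr, map_sub, map_neg, map_intCast, map_tr] at this
      exact this)
    rw [h2]
    rcases h1 with h1 | h1 <;> rw [h1] <;> norm_num
  -- the element r
  obtain ⟨r, hr⟩ : ∃ r, r = 2 * (a + (q : L) / a) + A := ⟨_, rfl⟩
  have hDD : r ^ 2 = ((DD A B : ℤ) : L) := by rw [hr]; exact hC.ra.disc
  have hpm := map_pm hDD
  have hca := hc a (Or.inl hC.ra)
  have hca₁ := hc a₁ (Or.inr hC.ra₁)
  have hcx := hc x (Or.inr hx)
  have hra : ∀ σ : L ≃ₐ[ℚ] L, σ r = r → σ a = a ∨ σ a = (q : L) / a := by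
    intro σ hσ
    have g1 : σ a + (q : L) / σ a = a + q / a := by
      rw [hr, map_r] at hσ
      have g2 : (2 : L) * (σ a + (q : L) / σ a) = 2 * (a + q / a) := by
        linear_combination hσ
      exact mul_left_cancel₀ two_ne_zero g2
    exact eq_or_bar hC.ra.1 ((map_ne_zero σ).2 hC.ra.1) g1
  have hcs : c.symm ((q : L) / a) = a := by
    rw [← hca, AlgEquiv.symm_apply_apply]
  -- the product of the signs on the cosets
  have key : ∀ σ τ : L ≃ₐ[ℚ] L, τ r = r →
      F q v (σ (τ a)) * (F q v (σ (τ a₁)) + F q v (σ (τ x))) =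
        F q v (σ a) * (F q v (σ a₁) + F q v (σ x)) := by
    intro σ τ hτ
    rcases hra τ hτ with g1 | g1
    · rcases hsw τ g1 with ⟨g2, g3⟩ | ⟨g2, g3⟩
      · rw [g1, g2, g3]
      · rw [g1, g2, g3, add_comm (F q v (σ x))]
    · have h5 := hsw (τ.trans c.symm) (by
        simp only [AlgEquiv.trans_apply]
        rw [g1, hcs])
      simp only [AlgEquiv.trans_apply] at h5
      have e : ∀ {u w : L}, c.symm u = w → u = c w := by
        intro u w h
        rw [← h, AlgEquiv.apply_symm_apply]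
      rcases h5 with ⟨g2, g3⟩ | ⟨g2, g3⟩
      · rw [g1, e g2, e g3, hca₁, hcx, hFσ hC.ra, hFσ hC.ra₁, hFσ hx]
        ring
      · rw [g1, e g2, e g3, hca₁, hcx, hFσ hC.ra, hFσ hC.ra₁, hFσ hx]
        ring
  have hf1 := hf 1
  have hh1 := hh 1
  rw [AlgEquiv.one_apply] at hf1
  rw [AlgEquiv.one_apply, AlgEquiv.one_apply] at hh1
  by_cases H : ∀ σ : L ≃ₐ[ℚ] L, F q v (σ a) * (F q v (σ a₁) + F q v (σ x)) =
      F q v a * (F q v a₁ + F q v x)
  · rcases pm_mul hf1 hh1 with h | h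
    · exact Or.inl fun σ => pm (hf σ) (hh σ) (by rw [H σ, h])
    · exact Or.inr fun σ => pm' (hf σ) (hh σ) (by rw [H σ, h])
  · exfalso
    push Not at H
    obtain ⟨σ₀, hσ₀⟩ := H
    have hσ₀r : σ₀ r = -r := by
      rcases hpm σ₀ with h | h
      · exfalso
        apply hσ₀
        have := key 1 σ₀ h
        simpa only [AlgEquiv.one_apply] using this
      · exact h
    have hneg : F q v (σ₀ a) * (F q v (σ₀ a₁) + F q v (σ₀ x)) =
        -(F q v a * (F q v a₁ + F q v x)) := by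
      exact pm_neg (pm_mul (hf σ₀) (hh σ₀)) (pm_mul hf1 hh1) hσ₀
    have hneg' : ∀ σ : L ≃ₐ[ℚ] L, σ r = -r → F q v (σ a) * (F q v (σ a₁) + F q v (σ x)) =
        -(F q v a * (F q v a₁ + F q v x)) := by
      intro σ hσ
      have h1 := key σ₀ (σ.trans σ₀.symm) (by
        simp only [AlgEquiv.trans_apply]
        rw [hσ, ← hσ₀r, AlgEquiv.symm_apply_apply])
      simp only [AlgEquiv.trans_apply, AlgEquiv.apply_symm_apply] at h1
      rw [h1, hneg]
    -- the numbers a', a₁', x'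
    obtain ⟨a', hRa', hFa', hfa'⟩ : ∃ a' : L, Rt q A B a' ∧
        (∀ σ : L ≃ₐ[ℚ] L, F q v (σ a') = F q v a * F q v (σ a)) ∧
        ∀ σ : L ≃ₐ[ℚ] L, σ a = a → σ a' = a' := by
      rcases hf1 with h | h
      · exact ⟨a, hC.ra, fun σ => by rw [h, one_mul], fun σ hσ => hσ⟩
      · refine ⟨(q : L) / a, hC.ra.bar hq, fun σ => ?_, fun σ hσ => ?_⟩
        · rw [hFσ hC.ra, h]
          ring
        · rw [map_bar, hσ]
    obtain ⟨a₁', x', hRa₁', hRx', hFx', hfx'⟩ : ∃ a₁' x' : L, Rt q A₁ B₁ a₁' ∧ Rt q A₁ B₁ x' ∧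
        (∀ σ : L ≃ₐ[ℚ] L, F q v (σ a₁') + F q v (σ x') =
          (F q v a₁ + F q v x) * (F q v (σ a₁) + F q v (σ x))) ∧
        ∀ σ : L ≃ₐ[ℚ] L, σ a = a → σ (a₁' * x') = a₁' * x' := by
      rcases hh1 with h | h
      · refine ⟨a₁, x, hC.ra₁, hx, fun σ => by rw [h, one_mul], fun σ hσ => ?_⟩
        rw [map_mul]
        rcases hsw σ hσ with ⟨g2, g3⟩ | ⟨g2, g3⟩
        · rw [g2, g3]
        · rw [g2, g3, mul_comm]
      · refine ⟨(q : L) / a₁, (q : L) / x, hC.ra₁.bar hq, hx.bar hq, fun σ => ?_,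
          fun σ hσ => ?_⟩
        · rw [hFσ hC.ra₁, hFσ hx, h]
          ring
        · rw [map_mul, map_bar, map_bar]
          rcases hsw σ hσ with ⟨g2, g3⟩ | ⟨g2, g3⟩
          · rw [g2, g3]
          · rw [g2, g3, mul_comm]
    have hlq : Real.log (v (q : L)) < 0 := Real.log_neg (q_pos hV) (q_lt hV)
    have hlog : ∀ z : L, Real.log (v z) = Real.log (v (q : L)) * ((1 - F q v z) / 2) := by
      intro z
      have hne := hlq.ne
      unfold F
      field_simp
      ring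
    obtain ⟨y, hy⟩ : ∃ y, y = a' * (a₁' * x') := ⟨_, rfl⟩
    have hy0 : y ≠ 0 := by
      rw [hy]
      exact mul_ne_zero hRa'.1 (mul_ne_zero hRa₁'.1 hRx'.1)
    have hyint : IsIntegral ℤ y := by
      rw [hy]
      exact (integral hq hRa').mul ((integral hq hRa₁').mul (integral hq hRx'))
    have hlogy : ∀ σ : L ≃ₐ[ℚ] L, Real.log (v (σ y)) = Real.log (v (q : L)) *
        ((3 - (F q v a * F q v (σ a) +
          (F q v a₁ + F q v x) * (F q v (σ a₁) + F q v (σ x)))) / 2) := by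
      intro σ
      have h1 : v (σ a') ≠ 0 := (v.pos ((map_ne_zero σ).2 hRa'.1)).ne'
      have h2 : v (σ a₁') ≠ 0 := (v.pos ((map_ne_zero σ).2 hRa₁'.1)).ne'
      have h3 : v (σ x') ≠ 0 := (v.pos ((map_ne_zero σ).2 hRx'.1)).ne'
      rw [hy, map_mul σ a', map_mul σ a₁', v.map_mul, v.map_mul, Real.log_mul h1 (mul_ne_zero h2 h3),
        Real.log_mul h2 h3, hlog, hlog (σ a₁'), hlog (σ x'), ← hFa' σ, ← hFx' σ]
      ring
    have hone : ∀ {s : ℝ}, s = 1 ∨ s = -1 → s * s = 1 := by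
      rintro s (h | h) <;> rw [h] <;> norm_num
    have hlogy1 : Real.log (v y) = Real.log (v (q : L)) * (1 / 2) := by
      have h1 := hlogy 1
      simp only [AlgEquiv.one_apply] at h1
      rw [h1, hone hf1, hone hh1]
      norm_num
    have hcl : ∀ σ : L ≃ₐ[ℚ] L, F q v a * F q v (σ a) +
        (F q v a₁ + F q v x) * (F q v (σ a₁) + F q v (σ x)) < 2 → v (σ y) < v y := by
      intro σ h
      rw [← Real.log_lt_log_iff (v.pos ((map_ne_zero σ).2 hy0)) (v.pos hy0), hlogy, hlogy1]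
      exact mul_lt_mul_of_neg_left (by linarith) hlq
    have hdom : ∀ σ : L ≃ₐ[ℚ] L, (σ y = y ∧ σ r = r) ∨ v (σ y) < v y := by
      intro σ
      have s2 := pm_mul hh1 (hh σ)
      rcases hpm σ with hσ | hσ
      · rcases hra σ hσ with g | g
        · left
          refine ⟨?_, hσ⟩
          rw [hy, map_mul, hfa' σ g, hfx' σ g]
        · right
          apply hcl
          rw [g, hF1 hC.ra, mul_neg, hone hf1]
          rcases s2 with s | s <;> rw [s] <;> norm_num
      · right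
        apply hcl
        have s1 := pm_mul hf1 (hf σ)
        have h1 := hneg' σ hσ
        have h2 : (F q v a * F q v (σ a)) *
            ((F q v a₁ + F q v x) * (F q v (σ a₁) + F q v (σ x))) = -1 := by
          have e : (F q v a * F q v (σ a)) *
            ((F q v a₁ + F q v x) * (F q v (σ a₁) + F q v (σ x))) =
            (F q v a * (F q v a₁ + F q v x)) *
              (F q v (σ a) * (F q v (σ a₁) + F q v (σ x))) := by ring
          rw [e, h1, mul_neg, hone (pm_mul hf1 hh1)]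
        rcases s1 with s | s <;> rcases s2 with s' | s' <;> rw [s, s'] at h2 ⊢ <;>
          first | (exfalso; norm_num at h2; done) | norm_num
    have hPS := hDOM L v p hV.pq.pr hna hV.lt r y (DD A B) hDD hyint hy0 hdom
    have hD0 : DD A B ≠ 0 := by
      intro h0
      exact hC.d (by rw [h0]; exact ⟨0, rfl⟩)
    have hPS' := hPSM p hV.pq.pr (DD A B) (DP q A₁ B₁) hD0 hPS hsq
    rcases hO4 with h | h
    · exact hC.dp₁ (by rw [h]; exact ⟨0, rfl⟩)
    · exact h hPS'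

end

end Pool.Agent.GT4
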