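import Pool.Agent.GT4.St

/-!
# GT4, module NEG: if the partner property holds then the set is good
-/

set_option autoImplicit false

namespace Pool.Agent.GT4

open Pool.Agent.GT2 Pool.Agent.GT3

namespace NEGAux

/-- a member which is divisible and not supersingular has rank one -/
theorem o1_of {p q : ℕ} {A B : ℤ} (t : Tr p q A B) (g : Gn q A B) (h : (p : ℤ) ∣ B) :
    O1 p q A B := by
  rcases t.t with h1 | h1 | h1
  · exact absurd h h1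
  · exact h1
  · exact absurd h1 g.2.2.2

/-- no reflex pairs with a member which is not ordinary -/
theorem mx_of (hI : S_INT3) (hR : S_RXS) (hN : S_NMX) {p q : ℕ} (hq : Pq p q)
    {S : ℤ → ℤ → Prop} (hS : ∀ A B, S A B → Tr p q A B) (hP : AlmostAll.Par q (AdS q S))
    (A B A₁ B₁ : ℤ) (h : S A B) (h₁ : S A₁ B₁) (hB : (p : ℤ) ∣ B ∨ (p : ℤ) ∣ B₁) :
    ¬ Rx q A B A₁ B₁ := by
  intro hx
  have t := hS A B h
  have t₁ := hS A₁ B₁ h₁
  have g : Gn q A B := hx.1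
  have g₁ : Gn q A₁ B₁ := hx.2.1
  by_cases c : (p : ℤ) ∣ B
  · by_cases c₁ : (p : ℤ) ∣ B₁
    · have o := o1_of t g c
      have o₁ := o1_of t₁ g₁ c₁
      have hps : ¬ PS p (DP q A₁ B₁) := by
        rcases o₁.2.2.2 with h0 | h0
        · exact absurd ⟨0, by rw [h0]; ring⟩ g₁.2.1
        · exact h0
      obtain ⟨n, m, w, hn, -, -, -⟩ := hx.2.2
      exact ((hI p q hq A B A₁ B₁).2 hps).2.2 o.2.1 c ⟨n, by rw [← hn]; ring⟩
    · exact hN p q hq S A₁ B₁ A B t₁ t h₁ h (hR q A B A₁ B₁ hx) c₁ (o1_of t g c) hP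
  · have c₁ : (p : ℤ) ∣ B₁ := by
      rcases hB with h0 | h0
      · exact absurd h0 c
      · exact h0
    exact hN p q hq S A B A₁ B₁ t t₁ h h₁ hx c (o1_of t₁ g₁ c₁) hP

end NEGAux

open NEGAux in
theorem t_NEG : M_NEG := by
  intro hI hR hN hT p q hq S hS hP
  have key := mx_of hI hR hN hq hS hP
  refine ⟨key, ?_⟩
  intro A B A₁ B₁ A₂ B₂ h h₁ h₂ hx₁ hx₂
  by_contra hne
  have c : ¬ (p : ℤ) ∣ B := fun h0 => key A B A₁ B₁ h h₁ (Or.inl h0) hx₁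
  have c₁ : ¬ (p : ℤ) ∣ B₁ := fun h0 => key A B A₁ B₁ h h₁ (Or.inr h0) hx₁
  have c₂ : ¬ (p : ℤ) ∣ B₂ := fun h0 => key A B A₂ B₂ h h₂ (Or.inr h0) hx₂
  exact hT p q hq S A B A₁ B₁ A₂ B₂ (hS A B h) (hS A₁ B₁ h₁) (hS A₂ B₂ h₂) h h₁ h₂ hx₁ hx₂
    c c₁ c₂ hne hP

end Pool.Agent.GT4
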