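import Pool.Agent.GT4.St

/-!
# GT4, module NGE: the exotic class
-/

set_option autoImplicit false

namespace Pool.Agent.GT4

open Polynomial

noncomputable section

namespace NGEAux

variable {n : ℕ}

/-- the diagonal endomorphism -/
def dia (μ : Fin n → ℂ) : Module.End ℂ (Fin n → ℂ) where
  toFun v k := μ k * v k
  map_add' v w := by funext k; simp [mul_add]
  map_smul' c v := by funext k; simp; ring

theorem dia_apply (μ : Fin n → ℂ) (v : Fin n → ℂ) (k : Fin n) : dia μ v k = μ k * v k := rfl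

theorem dia_pow (μ : Fin n → ℂ) (N : ℕ) (v : Fin n → ℂ) (k : Fin n) :
    (dia μ ^ N) v k = μ k ^ N * v k := by
  induction N generalizing v with
  | zero => simp
  | succ N ih =>
    rw [pow_succ, Module.End.mul_apply, ih, dia_apply, pow_succ]
    ring

theorem dia_aeval (μ : Fin n → ℂ) (p : ℂ[X]) (v : Fin n → ℂ) (k : Fin n) :
    (aeval (dia μ) p) v k = p.eval (μ k) * v k := by
  induction p using Polynomial.induction_on' with
  | add p q hp hq =>
    rw [map_add, LinearMap.add_apply, Pi.add_apply, hp, hq, eval_add, add_mul]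
  | monomial N a =>
    rw [aeval_monomial, eval_monomial, Module.End.mul_apply, Module.algebraMap_end_apply,
      Pi.smul_apply, dia_pow, smul_eq_mul, mul_assoc]

theorem dia_semisimple (μ : Fin n → ℂ) : (dia μ).IsSemisimple := by
  classical
  refine Module.End.isSemisimple_of_squarefree_aeval_eq_zero
    (p := ∏ c ∈ Finset.univ.image μ, (X - C c)) ?_ ?_
  · apply Polynomial.Separable.squarefree
    have h := (Polynomial.separable_prod_X_sub_C_iff' (f := fun c : ℂ => c)
      (s := Finset.univ.image μ)).2 (fun x _ y _ h => h)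
    exact h
  · refine LinearMap.ext fun v => funext fun k => ?_
    rw [dia_aeval, eval_prod, Finset.prod_eq_zero (Finset.mem_image_of_mem μ (Finset.mem_univ k))
      (by simp), zero_mul]
    rfl

theorem dia_root (μ : Fin n → ℂ) (c : ℂ) (h : (dia μ).charpoly.IsRoot c) : ∃ k, c = μ k := by
  rw [← Module.End.hasEigenvalue_iff_isRoot_charpoly] at h
  obtain ⟨v, hv⟩ := h.exists_hasEigenvector
  obtain ⟨k, hk⟩ := Function.ne_iff.1 hv.2
  have h1 := congrFun hv.apply_eq_smul k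
  rw [dia_apply, Pi.smul_apply, smul_eq_mul] at h1
  exact ⟨k, (mul_right_cancel₀ hk h1).symm⟩

/-- the determinant on the exterior algebra -/
def Psi (n : ℕ) : ExteriorAlgebra ℂ (Fin n → ℂ) →ₗ[ℂ] ℂ :=
  ExteriorAlgebra.liftAlternating (Function.update (0 : ∀ i : ℕ, (Fin n → ℂ) [⋀^Fin i]→ₗ[ℂ] ℂ) n
    Matrix.detRowAlternating)

theorem Psi_multi (v : Fin n → (Fin n → ℂ)) :
    Psi n (ExteriorAlgebra.ιMulti ℂ n v) = Matrix.det v := by
  unfold Psi
  rw [ExteriorAlgebra.liftAlternating_apply_ιMulti, Function.update_self]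
  rfl

theorem Psi_two (v w : Fin 2 → ℂ) :
    Psi 2 (ExteriorAlgebra.ι ℂ v * ExteriorAlgebra.ι ℂ w) = v 0 * w 1 - v 1 * w 0 := by
  have h0 : ExteriorAlgebra.ιMulti ℂ 2 ![v, w] =
      ExteriorAlgebra.ι ℂ v * ExteriorAlgebra.ι ℂ w := by
    rw [ExteriorAlgebra.ιMulti_apply, List.ofFn_succ, List.ofFn_succ, List.ofFn_zero,
      List.prod_cons, List.prod_cons, List.prod_nil, mul_one]
    rfl
  rw [← h0, Psi_multi]
  exact Matrix.det_fin_two (![v, w] : Matrix (Fin 2) (Fin 2) ℂ)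

/-- two coordinates -/
def two (a b : Fin n) : (Fin n → ℂ) →ₗ[ℂ] (Fin 2 → ℂ) where
  toFun v := ![v a, v b]
  map_add' v w := by funext k; fin_cases k <;> rfl
  map_smul' c v := by funext k; fin_cases k <;> rfl

/-- the coordinates in the exterior square -/
def coo (a b : Fin n) : ExteriorAlgebra ℂ (Fin n → ℂ) →ₗ[ℂ] ℂ :=
  (Psi 2).comp (ExteriorAlgebra.map (two a b)).toLinearMap

theorem coo_mul (a b : Fin n) (v w : Fin n → ℂ) :
    coo a b (ExteriorAlgebra.ι ℂ v * ExteriorAlgebra.ι ℂ w) = v a * w b - v b * w a := by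
  unfold coo
  rw [LinearMap.comp_apply, AlgHom.toLinearMap_apply, map_mul, ExteriorAlgebra.map_apply_ι,
    ExteriorAlgebra.map_apply_ι, Psi_two]
  rfl

/-- the decomposable elements span the square of the range -/
theorem lin_ext {M N : Type} [AddCommGroup M] [Module ℂ M] [AddCommGroup N] [Module ℂ N]
    (S T : ExteriorAlgebra ℂ M →ₗ[ℂ] N)
    (hm : ∀ v w : M, S (ExteriorAlgebra.ι ℂ v * ExteriorAlgebra.ι ℂ w) =
      T (ExteriorAlgebra.ι ℂ v * ExteriorAlgebra.ι ℂ w)) (y : ExteriorAlgebra ℂ M)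
    (hy : y ∈ ⋀[ℂ]^(2 * 1) M) : S y = T y := by
  have h1 : y ∈ LinearMap.range (ExteriorAlgebra.ι ℂ : M →ₗ[ℂ] ExteriorAlgebra ℂ M) *
      LinearMap.range (ExteriorAlgebra.ι ℂ : M →ₗ[ℂ] ExteriorAlgebra ℂ M) := by
    rw [← sq]
    exact hy
  clear hy
  induction h1 using Submodule.mul_induction_on' with
  | mem_mul_mem a ha b hb =>
    obtain ⟨v, rfl⟩ := ha
    obtain ⟨w, rfl⟩ := hb
    exact hm v w
  | add a _ b _ ha hb => rw [map_add, map_add, ha, hb]

theorem coo_dia (μ : Fin n → ℂ) (M : ℕ) (a b : Fin n) (y : ExteriorAlgebra ℂ (Fin n → ℂ))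
    (hy : y ∈ ⋀[ℂ]^(2 * 1) (Fin n → ℂ)) :
    coo a b (ExteriorAlgebra.map (dia μ ^ M) y) = (μ a * μ b) ^ M * coo a b y := by
  have h := lin_ext ((coo a b).comp (ExteriorAlgebra.map (dia μ ^ M)).toLinearMap)
    ((μ a * μ b) ^ M • coo a b) ?_ y hy
  · rw [LinearMap.comp_apply, AlgHom.toLinearMap_apply, LinearMap.smul_apply, smul_eq_mul] at h
    exact h
  · intro v w
    rw [LinearMap.comp_apply, AlgHom.toLinearMap_apply, LinearMap.smul_apply, smul_eq_mul,
      map_mul, ExteriorAlgebra.map_apply_ι, ExteriorAlgebra.map_apply_ι, coo_mul, coo_mul,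
      dia_pow, dia_pow, dia_pow, dia_pow, mul_pow]
    ring

/-- the projection which kills the first basis vector -/
def pro (n : ℕ) : (Fin (n + 1) → ℂ) →ₗ[ℂ] (Fin (n + 1) → ℂ) where
  toFun v k := if k = 0 then 0 else v k
  map_add' v w := by funext k; simp only [Pi.add_apply]; split_ifs <;> simp
  map_smul' c v := by funext k; simp only [Pi.smul_apply, RingHom.id_apply]; split_ifs <;> simp

theorem pro_add (v : Fin (n + 1) → ℂ) : v = v 0 • Pi.single 0 (1 : ℂ) + pro n v := by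
  funext k
  by_cases h : k = 0
  · subst h
    simp [pro]
  · simp [pro, h]

theorem pro_sum (v : Fin (n + 1) → ℂ) :
    pro n v = ∑ m : Fin n, v m.succ • Pi.single m.succ (1 : ℂ) := by
  funext k
  rw [Finset.sum_apply]
  induction k using Fin.cases with
  | zero =>
    simp [pro]
  | succ k =>
    rw [Finset.sum_eq_single k]
    · simp [pro]
    · intro m _ hm
      have h1 : k.succ ≠ m.succ := fun h => hm (Fin.succ_injective _ h).symm
      simp [Pi.single_eq_of_ne h1]
    · simp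

theorem alg_id {A : Type} [Ring A] [Algebra ℂ A] (a b : ℂ) (e p r : A) (h1 : e * e = 0)
    (h2 : p * e = -(e * p)) :
    (a • e + p) * (b • e + r) = p * r + e * (a • r - b • p) := by
  rw [add_mul, mul_add, mul_add, smul_mul_smul_comm, h1, smul_zero, smul_mul_assoc,
    mul_smul_comm, h2, smul_neg, mul_sub, mul_smul_comm, mul_smul_comm]
  abel

/-- the part of an element of degree two which contains the first basis vector -/
def Dmap (n : ℕ) : ExteriorAlgebra ℂ (Fin (n + 1) → ℂ) →ₗ[ℂ] ExteriorAlgebra ℂ (Fin (n + 1) → ℂ) :=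
  ∑ m : Fin n, (coo 0 m.succ).smulRight (ExteriorAlgebra.ι ℂ (Pi.single 0 (1 : ℂ)) *
    ExteriorAlgebra.ι ℂ (Pi.single m.succ (1 : ℂ)))

theorem Dmap_mul (v w : Fin (n + 1) → ℂ) :
    Dmap n (ExteriorAlgebra.ι ℂ v * ExteriorAlgebra.ι ℂ w) =
      ExteriorAlgebra.ι ℂ (Pi.single 0 (1 : ℂ)) *
        (v 0 • ExteriorAlgebra.ι ℂ (pro n w) - w 0 • ExteriorAlgebra.ι ℂ (pro n v)) := by
  unfold Dmap
  rw [pro_sum, pro_sum, map_sum, map_sum, Finset.smul_sum, Finset.smul_sum,
    ← Finset.sum_sub_distrib, Finset.mul_sum, LinearMap.sum_apply]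
  refine Finset.sum_congr rfl fun m _ => ?_
  rw [LinearMap.smulRight_apply, coo_mul, map_smul, map_smul, smul_smul, smul_smul, ← sub_smul,
    mul_smul_comm]
  congr 1
  ring

theorem Dmap_zero (y : ExteriorAlgebra ℂ (Fin (n + 1) → ℂ))
    (h : ∀ m : Fin n, coo 0 m.succ y = 0) : Dmap n y = 0 := by
  unfold Dmap
  rw [LinearMap.sum_apply]
  refine Finset.sum_eq_zero fun m _ => ?_
  rw [LinearMap.smulRight_apply, h, zero_smul]

theorem decomp (y : ExteriorAlgebra ℂ (Fin (n + 1) → ℂ))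
    (hy : y ∈ ⋀[ℂ]^(2 * 1) (Fin (n + 1) → ℂ)) :
    y = ExteriorAlgebra.map (pro n) y + Dmap n y := by
  have h := lin_ext LinearMap.id ((ExteriorAlgebra.map (pro n)).toLinearMap + Dmap n) ?_ y hy
  · exact h
  · intro v w
    rw [LinearMap.id_apply, LinearMap.add_apply, AlgHom.toLinearMap_apply, Dmap_mul, map_mul,
      ExteriorAlgebra.map_apply_ι, ExteriorAlgebra.map_apply_ι]
    have hv' : ExteriorAlgebra.ι ℂ v = v 0 • ExteriorAlgebra.ι ℂ (Pi.single 0 (1 : ℂ)) +
        ExteriorAlgebra.ι ℂ (pro n v) := by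
      conv_lhs => rw [pro_add v]
      rw [map_add, map_smul]
    have hw' : ExteriorAlgebra.ι ℂ w = w 0 • ExteriorAlgebra.ι ℂ (Pi.single 0 (1 : ℂ)) +
        ExteriorAlgebra.ι ℂ (pro n w) := by
      conv_lhs => rw [pro_add w]
      rw [map_add, map_smul]
    rw [hv', hw']
    exact alg_id _ _ _ _ _ (ExteriorAlgebra.ι_sq_zero _)
      (eq_neg_of_add_eq_zero_left (ExteriorAlgebra.ι_add_mul_swap _ _))

/-- the general form -/
theorem main (q z : ℂ) (l : List ℂ) (Q : ℂ) (N : ℕ) (hN : (z * l.prod) ^ N = Q)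
    (h : ∀ y ∈ l, ∀ M : ℕ, 1 ≤ M → (z * y) ^ M ≠ q ^ M) (n : ℕ) (hn : l.length + 1 = n) :
    ∃ f : Module.End ℂ (Fin n → ℂ), f.IsSemisimple ∧
      (∀ μ : ℂ, f.charpoly.IsRoot μ → μ ∈ z :: l) ∧
      ∃ x : ExteriorAlgebra ℂ (Fin n → ℂ), x ∈ ⋀[ℂ]^n (Fin n → ℂ) ∧
        ExteriorAlgebra.map (f ^ N) x = Q • x ∧
        x ∉ Algebra.adjoin ℂ {y : ExteriorAlgebra ℂ (Fin n → ℂ) |
          y ∈ ⋀[ℂ]^(2 * 1) (Fin n → ℂ) ∧ ∃ M : ℕ, 1 ≤ M ∧
            ExteriorAlgebra.map (f ^ M) y = q ^ M • y} := by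
  subst hn
  obtain ⟨μ, hμ⟩ : ∃ μ : Fin (l.length + 1) → ℂ, μ = Fin.cons z l.get := ⟨_, rfl⟩
  have hμ0 : μ 0 = z := by rw [hμ]; rfl
  have hμs : ∀ i : Fin l.length, μ i.succ ∈ l := by
    intro i
    rw [hμ, Fin.cons_succ]
    exact List.get_mem l i
  have hμp : ∏ k, μ k = z * l.prod := by
    rw [Fin.prod_univ_succ, hμ0]
    congr 1
    rw [hμ]
    simp only [Fin.cons_succ]
    rw [← List.prod_ofFn, List.ofFn_get]
  have hμm : ∀ k, μ k ∈ z :: l := by
    intro k
    induction k using Fin.cases with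
    | zero => rw [hμ0]; exact List.mem_cons_self
    | succ k => exact List.mem_cons_of_mem _ (hμs k)
  refine ⟨dia μ, dia_semisimple μ, fun c hc => ?_, ExteriorAlgebra.ιMulti ℂ (l.length + 1)
    (fun k => Pi.single k (1 : ℂ)), ?_, ?_, ?_⟩
  · obtain ⟨k, hk⟩ := dia_root μ c hc
    rw [hk]
    exact hμm k
  · exact ExteriorAlgebra.ιMulti_range ℂ (l.length + 1) ⟨_, rfl⟩
  · rw [ExteriorAlgebra.map_apply_ιMulti]
    have h1 : (⇑(dia μ ^ N) ∘ fun k : Fin (l.length + 1) => (Pi.single k (1 : ℂ) : Fin _ → ℂ)) =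
        fun k => (μ k ^ N) • (Pi.single k (1 : ℂ) : Fin (l.length + 1) → ℂ) := by
      funext k m
      rw [Function.comp_apply, dia_pow, Pi.smul_apply, smul_eq_mul]
      by_cases hkm : m = k
      · rw [hkm]
      · rw [Pi.single_eq_of_ne hkm, mul_zero, mul_zero]
    rw [h1, AlternatingMap.map_smul_univ, Finset.prod_pow, hμp, hN]
  · intro hx
    have hle : Algebra.adjoin ℂ {y : ExteriorAlgebra ℂ (Fin (l.length + 1) → ℂ) |
          y ∈ ⋀[ℂ]^(2 * 1) (Fin (l.length + 1) → ℂ) ∧ ∃ M : ℕ, 1 ≤ M ∧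
            ExteriorAlgebra.map (dia μ ^ M) y = q ^ M • y} ≤
        AlgHom.equalizer (ExteriorAlgebra.map (pro l.length)) (AlgHom.id ℂ _) := by
      apply Algebra.adjoin_le
      rintro y ⟨hy, M, hM, hyM⟩
      change ExteriorAlgebra.map (pro l.length) y = y
      have h0 : ∀ m : Fin l.length, coo 0 m.succ y = 0 := by
        intro m
        have h1 := coo_dia μ M 0 m.succ y hy
        rw [hyM, map_smul, smul_eq_mul, hμ0] at h1
        have h2 : ((z * μ m.succ) ^ M - q ^ M) * coo 0 m.succ y = 0 := by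
          linear_combination -h1
        exact (mul_eq_zero.1 h2).resolve_left (sub_ne_zero.2 (h _ (hμs m) M hM))
      have h3 := decomp y hy
      rw [Dmap_zero y h0, add_zero] at h3
      exact h3.symm
    have h1 : ExteriorAlgebra.map (pro l.length) (ExteriorAlgebra.ιMulti ℂ (l.length + 1)
        (fun k => Pi.single k (1 : ℂ))) = ExteriorAlgebra.ιMulti ℂ (l.length + 1)
        (fun k => Pi.single k (1 : ℂ)) := hle hx
    rw [ExteriorAlgebra.map_apply_ιMulti, AlternatingMap.map_coord_zero _ (i := 0)] at h1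
    · have h2 := Psi_multi (fun k : Fin (l.length + 1) => (Pi.single k (1 : ℂ) : Fin _ → ℂ))
      rw [← h1, map_zero] at h2
      have h3 : Matrix.det (fun k : Fin (l.length + 1) =>
          (Pi.single k (1 : ℂ) : Fin (l.length + 1) → ℂ)) = 1 := by
        have h4 : (fun k : Fin (l.length + 1) => (Pi.single k (1 : ℂ) : Fin (l.length + 1) → ℂ)) =
            (1 : Matrix _ _ ℂ) := by
          funext k m
          rw [Matrix.one_apply, Pi.single_apply]
          simp only [eq_comm]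
        rw [h4, Matrix.det_one]
      rw [h3] at h2
      exact zero_ne_one h2
    · funext k
      simp only [Function.comp_apply, pro, LinearMap.coe_mk, AddHom.coe_mk, Pi.zero_apply]
      split_ifs with hk
      · rfl
      · exact Pi.single_eq_of_ne hk _

end NGEAux

open NGEAux in
theorem t_NGE : S_NGE := by
  intro q z l j N _ _ hl hN h
  obtain ⟨f, h1, h2, x, h3, h4, h5⟩ := main (q : ℂ) z l _ N hN h (2 * j) hl
  refine ⟨f, h1, h2, x, h3, ?_, ?_⟩
  · rw [h4, pow_mul]
  · simp only [one_mul]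
    exact h5

end

end Pool.Agent.GT4
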