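import Pool.Agent.GT4.St
import Pool.Agent.GT4.M3X
import Pool.Agent.GT3.MIX
import Pool.Agent.GT2.PAR

/-!
# GT4, module NMX: mixed pairs destroy the partner property (helper19)
-/

set_option autoImplicit false

open Polynomial

namespace Pool.Agent.GT4

open Pool.Agent.GT2 Pool.Agent.GT3

noncomputable section

namespace NMXAux

/-- roots under a homomorphism -/
lemma rt_hom {L K : Type} [Field L] [Field K] (g : L →+* K) {q : ℕ} {A B : ℤ} {y : L}
    (h : Rt q A B y) : Rt q A B (g y) := by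
  refine ⟨(map_ne_zero g).2 h.1, ?_⟩
  have h1 := congrArg g h.2
  simpa using h1

/-- opposite slopes from a relation -/
lemma F_rel {L : Type} [Field L] [NumberField L] {q : ℕ} (v : AbsoluteValue L ℝ)
    (hvq : 0 < v (q : L)) (hvq1 : v (q : L) < 1) {x y : L} (hx : x ≠ 0) (hy : y ≠ 0) {M : ℕ}
    (hM : 1 ≤ M) (h : (x * y) ^ M = (q : L) ^ M) (σ : L ≃ₐ[ℚ] L) :
    F q v (σ x) + F q v (σ y) = 0 := by
  have h1 := congrArg (fun z => v (σ z)) h
  simp only [map_pow, map_mul, map_natCast] at h1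
  have h2 : v (σ x) * v (σ y) = v (q : L) :=
    (pow_left_inj₀ (mul_nonneg (v.nonneg _) (v.nonneg _)) (v.nonneg _) (by omega)).1 h1
  have hx' : 0 < v (σ x) := v.pos ((map_ne_zero σ).2 hx)
  have hy' : 0 < v (σ y) := v.pos ((map_ne_zero σ).2 hy)
  have hlog : Real.log (v (q : L)) < 0 := Real.log_neg hvq hvq1
  have h3 : Real.log (v (σ x)) + Real.log (v (σ y)) = Real.log (v (q : L)) := by
    rw [← Real.log_mul hx'.ne' hy'.ne', h2]
  unfold F
  have h4 : Real.log (v (σ x)) / Real.log (v (q : L)) +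
      Real.log (v (σ y)) / Real.log (v (q : L)) = 1 := by
    rw [← add_div, h3, div_self hlog.ne]
  linarith

end NMXAux

open NMXAux M3XAux in
theorem t_NMX : M_NMX := by
  classical
  intro hLOC hEXV hLFN hCFX hSWA hMXG hMXU p q hpq S A B A₁ B₁ t t₁ hS hS₁ hR hB hO hPar
  have hq : 1 ≤ q := MIXAux.one_le hpq
  obtain ⟨v, hna, hlt⟩ := hEXV p hpq.pr
  obtain ⟨a0, ha0⟩ := ex_rt q hq A B
  obtain ⟨b0, hb0⟩ := ex_rt q hq A₁ B₁
  obtain ⟨L, hfin, hgal, hmem, -⟩ := hLFN {a0, b0}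
  have hnf : NumberField L := @NumberField.mk _ _ inferInstance hfin
  let f : L →+* Qb := algebraMap L Qb
  have hf : Function.Injective f := (algebraMap L Qb).injective
  have hrt : ∀ y (h : y ∈ L) (A B : ℤ), Rt q A B y → Rt q A B (⟨y, h⟩ : L) := by
    intro y h A B hr
    refine ⟨fun h0 => hr.1 (by simpa using congrArg (Subtype.val) h0), ?_⟩
    apply hf
    have := hr.2
    simpa [f] using this
  have haL : a0 ∈ L := hmem a0 (by simp)
  have hbL : b0 ∈ L := hmem b0 (by simp)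
  obtain ⟨a, ha⟩ : ∃ a : L, Rt q A B a := ⟨_, hrt a0 haL A B ha0⟩
  obtain ⟨a₁, ha₁⟩ : ∃ a₁ : L, Rt q A₁ B₁ a₁ := ⟨_, hrt b0 hbL A₁ B₁ hb0⟩
  have hC : Cf q A B A₁ B₁ a a₁ := hCFX L q hq A B A₁ B₁ a a₁ t.w t₁.w ha ha₁ hR
  obtain ⟨b, x, hb, hx, -, hxx, -, -, hτ, -, hsw, -⟩ := hSWA L q hq A B A₁ B₁ a a₁ hC
  have hsq : IsSquare (DD A B * DP q A₁ B₁) := by
    obtain ⟨-, -, n, m, w, hn, -⟩ := hR
    exact ⟨n, by rw [← hn]; ring⟩
  have hw : Vq L p q (v.comp f.injective) := by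
    refine ⟨hpq, ?_, ?_⟩
    · intro y z
      show v (f (y + z)) ≤ max (v (f y)) (v (f z))
      rw [map_add]
      exact hna _ _
    · show v (f (p : L)) < 1
      rw [map_natCast]
      exact hlt
  obtain ⟨u, hu⟩ : ∃ u, u = v.comp f.injective := ⟨_, rfl⟩
  rw [← hu] at hw
  have hvq : 0 < u (q : L) := u.pos (qne hq)
  have hvq1 : u (q : L) < 1 := by
    obtain ⟨n, hn, hqn⟩ := hpq.pw
    have h1 : (q : L) = (p : L) ^ n := by
      rw [hqn]
      push_cast
      rfl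
    rw [h1, map_pow]
    exact pow_lt_one₀ (u.nonneg _) hw.lt (by omega)
  obtain ⟨ι⟩ := Pool.Agent.TJ2.JD_emb ℂ
  have hg : Function.Injective (ι.comp f) := (ι.comp f).injective
  -- the first case, for an arbitrary root
  have key : ∀ c : L, Rt q A B c →
      (∃ τ : L ≃ₐ[ℚ] L, τ c = c ∧ τ a₁ = x ∧ τ x = a₁) →
      (∀ σ : L ≃ₐ[ℚ] L, F q u (σ a₁) + F q u (σ x) = F q u (σ c)) → False := by
    intro c hc hτc hF
    have hc0 := hc.1
    have hcb : Rt q A B ((q : L) / c) := hc.bar hq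
    obtain ⟨N, hN, hpow⟩ := hMXU L f v p q hpq hna hlt A B A₁ B₁ c a₁ x t.w t₁.w hc ha₁
      hx (fun σ => by
        have := hF σ
        rw [hu] at this
        rwa [MIXAux.F_comp, MIXAux.F_comp, MIXAux.F_comp] at this)
    have hAd : ∀ y : L, Rt q A B y → AdS q S ((ι.comp f) y) := fun y hy =>
      ⟨1, le_rfl, Or.inr ⟨A, B, hS, _, rt_hom _ hy, rfl⟩⟩
    have hAd₁ : ∀ y : L, Rt q A₁ B₁ y → AdS q S ((ι.comp f) y) := fun y hy =>
      ⟨1, le_rfl, Or.inr ⟨A₁, B₁, hS₁, _, rt_hom _ hy, rfl⟩⟩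
    have hrel : ((q : L) / c * ((q : L) / c * (a₁ * (a₁ * (x * x))))) ^ N = ((q : L) ^ 3) ^ N := by
      have e1 : (q : L) / c * ((q : L) / c * (a₁ * (a₁ * (x * x)))) =
          ((q : L) / c) ^ 2 * (a₁ * x) ^ 2 := by ring
      rw [e1, mul_pow, hpow, ← mul_pow]
      congr 1
      field_simp
    obtain ⟨y, hy, M, hM, hyM⟩ := hPar ((ι.comp f) ((q : L) / c))
      [(ι.comp f) ((q : L) / c), (ι.comp f) a₁, (ι.comp f) a₁, (ι.comp f) x, (ι.comp f) x]
      (hAd _ hcb) (by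
        intro y hy
        simp only [List.mem_cons, List.not_mem_nil, or_false] at hy
        rcases hy with rfl | rfl | rfl | rfl | rfl
        · exact hAd _ hcb
        · exact hAd₁ _ ha₁
        · exact hAd₁ _ ha₁
        · exact hAd₁ _ hx
        · exact hAd₁ _ hx) 3 N hN (by simp) (by
        have h1 := congrArg (ι.comp f) hrel
        simp only [map_pow, map_mul] at h1
        rw [List.prod_cons, List.prod_cons, List.prod_cons, List.prod_cons, List.prod_cons,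
          List.prod_nil, mul_one]
        rw [h1, map_natCast])
    -- the slopes of `y`
    have hw2 : ∃ w : L, (w = (q : L) / c ∨ w = a₁ ∨ w = x) ∧ y = (ι.comp f) w := by
      simp only [List.mem_cons, List.not_mem_nil, or_false] at hy
      rcases hy with h | h | h | h | h
      · exact ⟨_, Or.inl rfl, h⟩
      · exact ⟨_, Or.inr (Or.inl rfl), h⟩
      · exact ⟨_, Or.inr (Or.inl rfl), h⟩
      · exact ⟨_, Or.inr (Or.inr rfl), h⟩
      · exact ⟨_, Or.inr (Or.inr rfl), h⟩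
    obtain ⟨w, hw3, rfl⟩ := hw2
    have hw0 : w ≠ 0 := by
      rcases hw3 with rfl | rfl | rfl
      · exact hcb.1
      · exact ha₁.1
      · exact hx.1
    have hMw : ((q : L) / c * w) ^ M = (q : L) ^ M := by
      apply hg
      rw [map_pow, map_mul, map_pow, map_natCast]
      exact hyM
    have hFw : ∀ σ : L ≃ₐ[ℚ] L, F q u (σ w) = F q u (σ c) := by
      intro σ
      have h1 := F_rel u hvq hvq1 hcb.1 hw0 hM hMw σ
      rw [map_bar, (hLOC L u p q hw A B (σ c) (hc.map σ)).2.2.2] at h1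
      linarith
    have hFc : F q u c ≠ 0 := by
      rcases (hLOC L u p q hw A B c hc).1 hB with h | h <;> rw [h] <;> norm_num
    obtain ⟨τ, hτ1, hτ2, hτ3⟩ := hτc
    have hF1 := hF 1
    have hw1 := hFw 1
    simp only [AlgEquiv.one_apply] at hF1 hw1
    have hFτ := hF τ
    have hwτ := hFw τ
    rw [hτ1] at hFτ hwτ
    rcases hw3 with rfl | rfl | rfl
    · rw [(hLOC L u p q hw A B c hc).2.2.2] at hw1
      apply hFc
      linarith
    · rw [hτ2] at hwτ
      apply hFc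
      linarith
    · rw [hτ3] at hwτ
      apply hFc
      linarith
  obtain ⟨τ, hτ1, hτ2, hτ3, -⟩ := hsw
  rcases hMXG L u p q hw A B A₁ B₁ a a₁ x hC hB hO hsq hx hxx hτ with h | h
  · exact key a ha ⟨τ, hτ1, hτ2, hτ3⟩ h
  · refine key ((q : L) / a) (ha.bar hq) ⟨τ, by rw [map_bar, hτ1], hτ2, hτ3⟩ ?_
    intro σ
    rw [h σ, map_bar, (hLOC L u p q hw A B (σ a) (ha.map σ)).2.2.2]

end

end Pool.Agent.GT4
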