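import Pool.Agent.GT4.St

/-!
# GT4: module NTR, triples destroy the partner property
-/

set_option autoImplicit false

namespace Pool.Agent.GT4

open Pool.Agent.GT2 Pool.Agent.GT3

noncomputable section

namespace NTRAux

lemma one_le {p q : ℕ} (h : Pq p q) : 1 ≤ q := by
  obtain ⟨n, _, rfl⟩ := h.pw
  exact Nat.one_le_pow _ _ h.pr.pos

/-- an embedding of the algebraic numbers (compare `TJ2.JD_emb`) -/
lemma emb : Nonempty (Qb →+* ℂ) := by
  have h := AlgebraicClosure.instIsAlgClosure ℚ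
  have e : (AlgebraicClosure.instAlgebra ℚ : Algebra ℚ (AlgebraicClosure ℚ)) =
    DivisionRing.toRatAlgebra := Subsingleton.elim _ _
  have h1 : IsAlgClosure ℚ Qb := e ▸ h
  have h2 : Algebra.IsAlgebraic ℚ Qb := IsAlgClosure.isAlgebraic
  exact ⟨((IsAlgClosed.lift : Qb →ₐ[ℚ] ℂ) : Qb →+* ℂ)⟩

/-- roots in the field of algebraic numbers -/
lemma root {q : ℕ} (hq : 1 ≤ q) (A B : ℤ) : ∃ a : Qb, Rt q A B a := by
  obtain ⟨s, hs⟩ := IsAlgClosed.exists_eq_mul_self (((DD A B : ℤ) : Qb))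
  obtain ⟨w, hw⟩ := IsAlgClosed.exists_eq_mul_self ((((-(A : Qb)) + s) / 2) ^ 2 - 4 * (q : Qb))
  unfold DD at hs
  push_cast at hs
  have hq0 : (q : Qb) ≠ 0 := qne hq
  have h2 : (2 : Qb) ≠ 0 := two_ne_zero
  have h1 : ((((-(A : Qb)) + s) / 2 + w) / 2) * ((((-(A : Qb)) + s) / 2 - w) / 2) = q := by
    linear_combination (1 / 4 : Qb) * hw
  have ha : ((((-(A : Qb)) + s) / 2 + w) / 2) ≠ 0 := by
    intro h0
    rw [h0, zero_mul] at h1
    exact hq0 h1.symm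
  refine ⟨(((-(A : Qb)) + s) / 2 + w) / 2, ha, ?_⟩
  have h3 : (q : Qb) / ((((-(A : Qb)) + s) / 2 + w) / 2) = (((-(A : Qb)) + s) / 2 - w) / 2 := by
    rw [div_eq_iff ha, ← h1]
    ring
  rw [h3]
  linear_combination (-1 / 4 : Qb) * hs

/-- roots and homomorphisms -/
lemma hom {K K' : Type} [Field K] [Field K'] (f : K →+* K') {q : ℕ} {A B : ℤ} {x : K}
    (h : Rt q A B x) : Rt q A B (f x) := by
  refine ⟨(map_ne_zero f).2 h.1, ?_⟩
  have h1 := congrArg f h.2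
  rw [map_add, map_add, map_pow, map_mul, map_add, map_div₀, map_natCast, map_intCast,
    map_intCast, map_zero] at h1
  exact h1

/-- roots in a subfield -/
lemma lift {K K' : Type} [Field K] [Field K'] (f : K →+* K') {q : ℕ} {A B : ℤ} {x : K}
    (h : Rt q A B (f x)) : Rt q A B x := by
  refine ⟨fun h0 => h.1 (by rw [h0, map_zero]), f.injective ?_⟩
  rw [map_add, map_add, map_pow, map_mul, map_add, map_div₀, map_natCast, map_intCast,
    map_intCast, map_zero]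
  exact h.2

/-- the slopes for the restriction of the absolute value -/
lemma F_comp {L M : Type} [Field L] [Field M] (i : L →+* M) (v : AbsoluteValue M ℝ) (q : ℕ)
    (x : L) : F q (v.comp i.injective) x = F q v (i x) := by
  show 1 - 2 * (Real.log (v (i x)) / Real.log (v (i (q : L)))) = _
  rw [map_natCast]
  rfl

section

variable {L : Type} [Field L] [NumberField L] {p q : ℕ} {w : AbsoluteValue L ℝ} {A B : ℤ}

lemma log_neg (hV : Vq L p q w) : Real.log (w (q : L)) < 0 := by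
  have hq0 : (q : L) ≠ 0 := qne (one_le hV.pq)
  have hvq : 0 < w (q : L) := w.pos hq0
  have hvq1 : w (q : L) < 1 := by
    obtain ⟨n, hn, hqn⟩ := hV.pq.pw
    rw [hqn, Nat.cast_pow, map_pow]
    exact pow_lt_one₀ (w.nonneg _) hV.lt (by omega)
  exact Real.log_neg hvq hvq1

/-- a partner of `q / a` has the slopes of `a` -/
lemma partner (hL : S_LOC3) (hV : Vq L p q w) {a y : L} (ha : Rt q A B a) (hy : y ≠ 0) {M : ℕ}
    (hM : 1 ≤ M) (h : ((q : L) / a * y) ^ M = (q : L) ^ M) (σ : L ≃ₐ[ℚ] L) :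
    F q w (σ y) = F q w (σ a) := by
  have hq := one_le hV.pq
  have h1 := congrArg (fun z => w (σ z)) h
  simp only [map_pow, map_mul, map_natCast] at h1
  have h2 : w (σ ((q : L) / a)) * w (σ y) = w (q : L) :=
    (pow_left_inj₀ (mul_nonneg (w.nonneg _) (w.nonneg _)) (w.nonneg _) (by omega)).1 h1
  have h3 : w (σ ((q : L) / a)) ≠ 0 :=
    w.ne_zero_iff.2 ((map_ne_zero σ).2 (bar_ne hq ha.1))
  have h4 : w (σ y) ≠ 0 := w.ne_zero_iff.2 ((map_ne_zero σ).2 hy)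
  have h5 := congrArg Real.log h2
  rw [Real.log_mul h3 h4] at h5
  have h6 : F q w (σ ((q : L) / a)) = - F q w (σ a) := by
    rw [map_bar]
    exact (hL L w p q hV A B (σ a) (ha.map σ)).2.2.2
  have h7 : F q w (σ ((q : L) / a)) + F q w (σ y) = 0 := by
    unfold F
    have h8 := (log_neg hV).ne
    field_simp
    linear_combination (-2 : ℝ) * h5
  linear_combination h7 - h6

/-- partners with the same slopes are impossible -/
lemma noeq [IsGalois ℚ L] (hR : S_RFX) (hV : Vq L p q w) {A₁ B₁ : ℤ} {a y : L}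
    (hC : Cf q A B A₁ B₁ a y) (hB : ¬ (p : ℤ) ∣ B) (hB₁ : ¬ (p : ℤ) ∣ B₁)
    (h : ∀ σ : L ≃ₐ[ℚ] L, F q w (σ y) = F q w (σ a)) : False := by
  obtain ⟨b, x, -, -, -, -, hb⟩ := hR L w p q hV A B A₁ B₁ a y hC hB hB₁
  have h1 := hb.le
  have h2 := hb.pos
  simp only [h] at h1
  rw [abs_of_pos (by linarith)] at h1
  linarith

end

/-- the core, in a finite Galois extension -/
lemma core (hLOC : S_LOC3) (hCFX : S_CFX) (hTST : S_TST) (hTOR : S_TOR) (hTRR : S_TRR)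
    (hRFX : S_RFX) (hUNL : S_UNL) {L : Type} [Field L] [NumberField L] [IsGalois ℚ L]
    (i : L →+* Qb) (hres : ∀ σ : Qb ≃ₐ[ℚ] Qb, ∃ τ : L ≃ₐ[ℚ] L, ∀ z : L, σ (i z) = i (τ z))
    (v : AbsoluteValue Qb ℝ) (p q : ℕ) (hpq : Pq p q) (hna : IsNonarchimedean v)
    (hlt : v (p : Qb) < 1) (S : ℤ → ℤ → Prop) {A B A₁ B₁ A₂ B₂ : ℤ}
    (t : Tr p q A B) (t₁ : Tr p q A₁ B₁) (t₂ : Tr p q A₂ B₂) (s : S A B) (s₁ : S A₁ B₁)
    (s₂ : S A₂ B₂) (r₁ : Rx q A B A₁ B₁) (r₂ : Rx q A B A₂ B₂) (hB : ¬ (p : ℤ) ∣ B)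
    (hB₁ : ¬ (p : ℤ) ∣ B₁) (hB₂ : ¬ (p : ℤ) ∣ B₂) (htw : ¬ (B₂ = B₁ ∧ (A₂ = A₁ ∨ A₂ = - A₁)))
    {a a₁ a₂ : L} (ha : Rt q A B a) (ha₁ : Rt q A₁ B₁ a₁) (ha₂ : Rt q A₂ B₂ a₂)
    (hPar : AlmostAll.Par q (AdS q S)) : False := by
  have hq := one_le hpq
  have hV : Vq L p q (v.comp i.injective) := by
    refine ⟨hpq, ?_, ?_⟩
    · intro y z
      show v (i (y + z)) ≤ max (v (i y)) (v (i z))
      rw [map_add]
      exact hna _ _
    · show v (i (p : L)) < 1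
      rw [map_natCast]
      exact hlt
  have c₁ := hCFX L q hq A B A₁ B₁ a a₁ t.w t₁.w ha ha₁ r₁
  have c₂ := hCFX L q hq A B A₂ B₂ a a₂ t.w t₂.w ha ha₂ r₂
  obtain ⟨a₂', c₂', hst⟩ := hTST L q hq A B A₁ B₁ A₂ B₂ a a₁ a₂ c₁ c₂
  have hor := hTOR L i v p q hpq hna hlt A B A₁ B₁ A₂ B₂ a a₁ a₂' t t₁ t₂ c₁ c₂' hst htw
  obtain ⟨y₁, z₁, y₂, z₂, hy₁, hz₁, hy₂, hz₂, hsum⟩ := hTRR L (v.comp i.injective) p q hV
    A B A₁ B₁ A₂ B₂ a a₁ a₂' t.w t₁.w t₂.w c₁ c₂' hst hB hB₁ hB₂ (by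
      rw [← hor]
      exact Finset.sum_congr rfl fun σ _ => by rw [F_comp, F_comp])
  have hbar : Rt q A B ((q : L) / a) := ha.bar hq
  obtain ⟨N, hN, hrel⟩ := hUNL v p q hpq hna hlt
    [i ((q : L) / a), i ((q : L) / a), i y₁, i z₁, i y₂, i z₂] (by
      intro y hy
      simp only [List.mem_cons, List.not_mem_nil, or_false] at hy
      rcases hy with rfl | rfl | rfl | rfl | rfl | rfl
      · exact ⟨A, B, t.w, hom i hbar⟩
      · exact ⟨A, B, t.w, hom i hbar⟩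
      · exact ⟨A₁, B₁, t₁.w, hom i hy₁⟩
      · exact ⟨A₁, B₁, t₁.w, hom i hz₁⟩
      · exact ⟨A₂, B₂, t₂.w, hom i hy₂⟩
      · exact ⟨A₂, B₂, t₂.w, hom i hz₂⟩) (by
      intro σ
      obtain ⟨τ, hτ⟩ := hres σ
      simp only [List.map_cons, List.map_nil, List.sum_cons, List.sum_nil, hτ, ← F_comp]
      have h1 := hsum τ
      have h2 : F q (v.comp i.injective) (τ ((q : L) / a)) =
          - F q (v.comp i.injective) (τ a) := by
        rw [map_bar]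
        exact (hLOC L (v.comp i.injective) p q hV A B (τ a) (ha.map τ)).2.2.2
      rw [h2]
      linear_combination -h1)
  obtain ⟨ι⟩ := emb
  obtain ⟨y, hy, M, hM, hyM⟩ := hPar (ι (i ((q : L) / a)))
    [ι (i ((q : L) / a)), ι (i y₁), ι (i z₁), ι (i y₂), ι (i z₂)]
    ⟨1, le_rfl, Or.inr ⟨A, B, s, _, hom ι (hom i hbar), rfl⟩⟩ (by
      intro y hy
      simp only [List.mem_cons, List.not_mem_nil, or_false] at hy
      rcases hy with rfl | rfl | rfl | rfl | rfl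
      · exact ⟨1, le_rfl, Or.inr ⟨A, B, s, _, hom ι (hom i hbar), rfl⟩⟩
      · exact ⟨1, le_rfl, Or.inr ⟨A₁, B₁, s₁, _, hom ι (hom i hy₁), rfl⟩⟩
      · exact ⟨1, le_rfl, Or.inr ⟨A₁, B₁, s₁, _, hom ι (hom i hz₁), rfl⟩⟩
      · exact ⟨1, le_rfl, Or.inr ⟨A₂, B₂, s₂, _, hom ι (hom i hy₂), rfl⟩⟩
      · exact ⟨1, le_rfl, Or.inr ⟨A₂, B₂, s₂, _, hom ι (hom i hz₂), rfl⟩⟩) 3 (2 * N) (by omega)
    rfl (by
      have h1 := congrArg ι hrel
      simp only [List.prod_cons, List.prod_nil, List.length_cons, List.length_nil, map_pow,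
        map_mul, map_natCast, map_one] at h1 ⊢
      rw [h1]
      ring)
  have fin : ∀ u : L, u ≠ 0 → y = ι (i u) → ∀ σ : L ≃ₐ[ℚ] L,
      F q (v.comp i.injective) (σ u) = F q (v.comp i.injective) (σ a) := by
    intro u hu hyu
    refine partner hLOC hV ha hu hM ?_
    apply i.injective
    apply ι.injective
    rw [map_pow, map_pow, map_mul, map_mul, ← hyu, hyM, map_pow, map_pow, map_natCast,
      map_natCast]
  simp only [List.mem_cons, List.not_mem_nil, or_false] at hy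
  rcases hy with h | h | h | h | h
  · have h1 := fin _ hbar.1 h 1
    have h2 : F q (v.comp i.injective) ((1 : L ≃ₐ[ℚ] L) ((q : L) / a)) =
        - F q (v.comp i.injective) ((1 : L ≃ₐ[ℚ] L) a) := by
      rw [map_bar]
      exact (hLOC L (v.comp i.injective) p q hV A B _ (ha.map 1)).2.2.2
    rcases (hLOC L (v.comp i.injective) p q hV A B _ (ha.map 1)).1 hB with h3 | h3
    · rw [h2, h3] at h1
      norm_num at h1
    · rw [h2, h3] at h1
      norm_num at h1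
  · exact noeq hRFX hV (hCFX L q hq A B A₁ B₁ a y₁ t.w t₁.w ha hy₁ r₁) hB hB₁ (fin _ hy₁.1 h)
  · exact noeq hRFX hV (hCFX L q hq A B A₁ B₁ a z₁ t.w t₁.w ha hz₁ r₁) hB hB₁ (fin _ hz₁.1 h)
  · exact noeq hRFX hV (hCFX L q hq A B A₂ B₂ a y₂ t.w t₂.w ha hy₂ r₂) hB hB₂ (fin _ hy₂.1 h)
  · exact noeq hRFX hV (hCFX L q hq A B A₂ B₂ a z₂ t.w t₂.w ha hz₂ r₂) hB hB₂ (fin _ hz₂.1 h)

end NTRAux

open NTRAux in
/-- **NTR.** -/
theorem t_NTR : M_NTR := by
  intro hLOC hEXV hLFN hCFX hTST hTOR hTRR hRFX hUNL p q hpq S A B A₁ B₁ A₂ B₂ t t₁ t₂ s s₁ s₂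
    r₁ r₂ hB hB₁ hB₂ htw hPar
  classical
  have hq := one_le hpq
  obtain ⟨v, hna, hlt⟩ := hEXV p hpq.pr
  obtain ⟨a, ha⟩ := root hq A B
  obtain ⟨a₁, ha₁⟩ := root hq A₁ B₁
  obtain ⟨a₂, ha₂⟩ := root hq A₂ B₂
  obtain ⟨L, hfin, hgal, hmem, hext⟩ := hLFN {a, a₁, a₂}
  have hnf : NumberField L := @NumberField.mk _ _ inferInstance hfin
  have hnorm : Normal ℚ L := hgal.to_normal
  exact core hLOC hCFX hTST hTOR hTRR hRFX hUNL (algebraMap L Qb)
    (fun σ => ⟨σ.restrictNormal L, fun z => (AlgEquiv.restrictNormal_commutes σ L z).symm⟩)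
    v p q hpq hna hlt S t t₁ t₂ s s₁ s₂ r₁ r₂ hB hB₁ hB₂ htw
    (a := ⟨a, hmem a (by simp)⟩) (a₁ := ⟨a₁, hmem a₁ (by simp)⟩) (a₂ := ⟨a₂, hmem a₂ (by simp)⟩)
    (lift (algebraMap L Qb) ha) (lift (algebraMap L Qb) ha₁) (lift (algebraMap L Qb) ha₂) hPar

end

end Pool.Agent.GT4
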