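import Pool.Agent.GT4.St
import Pool.Agent.GT2.PAR

/-!
# GT4, module PAX (helper56, after `GT3/PAR3.lean` of helper55): the partner property, exact version
-/

set_option autoImplicit false

open Polynomial

namespace Pool.Agent.GT4

open Pool.Agent.GT2 Pool.Agent.GT3

namespace PAXAux

open PARAux (S' w2_ss)

theorem o2_ss (q : ℕ) : O2 q 0 (-4 * q) :=
  ⟨by rw [zero_pow two_ne_zero]; exact dvd_zero _, Dvd.intro_left _ rfl⟩

theorem gn_ss (q : ℕ) : ¬ Gn q 0 (-4 * q) := fun h => h.2.2.2 (o2_ss q)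

/-- the members of reflex pairs are not supersingular -/
theorem rf_left {q : ℕ} {S : ℤ → ℤ → Prop} {A B A₁ B₁ : ℤ} (h : S' q S A B)
    (hr : Rx q A B A₁ B₁) : S A B := by
  rcases h with h | ⟨rfl, rfl⟩
  · exact h
  · exact absurd hr.1 (gn_ss q)

theorem rf_right {q : ℕ} {S : ℤ → ℤ → Prop} {A B A₁ B₁ : ℤ} (h : S' q S A₁ B₁)
    (hr : Rx q A B A₁ B₁) : S A₁ B₁ := by
  rcases h with h | ⟨rfl, rfl⟩
  · exact h
  · exact absurd hr.2.1 (gn_ss q)

/-- the set with the supersingular polynomial -/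
theorem trd {p q : ℕ} {S : ℤ → ℤ → Prop} (hT : ∀ A B, S A B → Tr p q A B) :
    ∀ A B, S' q S A B → Tr p q A B := by
  rintro A B (h | ⟨rfl, rfl⟩)
  · exact hT A B h
  · exact ⟨w2_ss q, Or.inr (Or.inr (o2_ss q))⟩

/-- the set with the supersingular polynomial is good -/
theorem good {p q : ℕ} {S : ℤ → ℤ → Prop} (hS : Gx p q S) : Gx p q (S' q S) := by
  refine ⟨?_, ?_⟩
  · intro A B A₁ B₁ h h₁ hd hr
    exact hS.mx A B A₁ B₁ (rf_left h hr) (rf_right h₁ hr) hd hr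
  · intro A B A₁ B₁ A₂ B₂ h h₁ h₂ hr hr'
    exact hS.tp A B A₁ B₁ A₂ B₂ (rf_left h hr) (rf_right h₁ hr) (rf_right h₂ hr') hr hr'

end PAXAux

open PARAux PAXAux in
theorem t_PAX : M_PAX := by
  intro hPRT hUNT hEXV p q hpq S hT hG z l hz hl j N hN hlen hrel
  have hq1 : 1 ≤ q := by
    obtain ⟨n, -, rfl⟩ := hpq.pw
    exact Nat.one_le_iff_ne_zero.2 (pow_ne_zero n hpq.pr.ne_zero)
  obtain ⟨v, hna, hlt⟩ := hEXV p hpq.pr
  obtain ⟨ι⟩ := Pool.Agent.TJ2.JD_emb ℂ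
  obtain ⟨x, hx, N₀, hN₀, hz0⟩ := adm ι hq1 hz
  obtain ⟨o, M, hM, hol, ho, hp'⟩ := lift_list ι hq1 l hl
  have hq0 : (q : Qb) ≠ 0 := qne hq1
  have hvq : 0 < v (q : Qb) := v.pos hq0
  have hvq1 : v (q : Qb) < 1 := by
    obtain ⟨n, hn, hqn⟩ := hpq.pw
    rw [hqn, Nat.cast_pow, map_pow]
    exact pow_lt_one₀ (v.nonneg _) hlt (by omega)
  have hlog : Real.log (v (q : Qb)) < 0 := Real.log_neg hvq hvq1
  have hall : ∀ y ∈ x :: o, ∃ A B, S' q S A B ∧ Rt q A B y := by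
    intro y hy
    rcases List.mem_cons.1 hy with rfl | hy
    · exact hx
    · exact (ho y hy).1
  have hne : ∀ y ∈ x :: o, y ≠ 0 := fun y hy => by
    obtain ⟨A, B, -, h⟩ := hall y hy
    exact h.1
  -- the relation in `Qb`
  have hQ : (x :: o).prod ^ (N * N₀ * M) = ((q : Qb) ^ j) ^ (N * N₀ * M) := by
    apply ι.injective
    rw [map_pow, map_pow, map_pow, map_natCast, List.prod_cons, map_mul, mul_pow]
    have e1 : (ι x) ^ (N * N₀ * M) = z ^ (N * N₀ * M) := by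
      have : N * N₀ * M = N₀ * (N * M) := by ring
      rw [this, pow_mul, ← hz0, ← pow_mul]
    have e2 : (ι o.prod) ^ (N * N₀ * M) = l.prod ^ (N * N₀ * M) := by
      have : N * N₀ * M = M * (N * N₀) := by ring
      rw [this, pow_mul, ← hp', ← pow_mul]
    rw [e1, e2, ← mul_pow]
    have : N * N₀ * M = N * (N₀ * M) := by ring
    rw [this, pow_mul, hrel, ← pow_mul]
  have hK : 1 ≤ N * N₀ * M := Nat.mul_pos (Nat.mul_pos hN hN₀) hM
  have hsum : ∀ σ : Qb ≃ₐ[ℚ] Qb, ((x :: o).map fun y => F q v (σ y)).sum = 0 := by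
    intro σ
    obtain ⟨h1, h2⟩ := sum_F q v σ (x :: o) hne
    rw [h2]
    have h3 : v (σ (x :: o).prod) = v (q : Qb) ^ j := by
      have h4 := congrArg (fun y => v (σ y)) hQ
      simp only [map_pow, map_natCast] at h4
      exact (pow_left_inj₀ (v.nonneg _) (pow_nonneg (v.nonneg _) _) (by omega)).1 h4
    rw [h3, Real.log_pow, List.length_cons, hol]
    have h5 : ((l.length : ℝ) + 1) = 2 * j := by exact_mod_cast hlen
    push_cast
    rw [h5, mul_div_assoc, div_self hlog.ne]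
    ring
  have hodd : Odd o.length := by
    rw [hol]
    exact ⟨j - 1, by omega⟩
  have hG' := good hG
  have hT' := trd (p := p) hT
  obtain ⟨y, hy, hyx⟩ := hPRT v p q hpq hna hlt (S' q S) hT' hG' x o hall hsum hodd
  obtain ⟨A, B, hS, hRx⟩ := hx
  obtain ⟨⟨A₁, B₁, hS₁, hRy⟩, w, hw, N₁, hN₁, hw1⟩ := ho y hy
  obtain ⟨N', hN', hxy⟩ := hUNT v p q hpq hna hlt A B A₁ B₁ (hT' A B hS).w
    (hT' A₁ B₁ hS₁).w x y hRx hRy hyx
  refine ⟨w, hw, N' * (N₀ * N₁), Nat.mul_pos hN' (Nat.mul_pos hN₀ hN₁), ?_⟩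
  have e1 : z ^ (N' * (N₀ * N₁)) = (ι x) ^ (N' * (N₀ * N₁)) := by
    have : N' * (N₀ * N₁) = N₀ * (N' * N₁) := by ring
    rw [this, pow_mul, hz0, ← pow_mul]
  have e2 : w ^ (N' * (N₀ * N₁)) = (ι y) ^ (N' * (N₀ * N₁)) := by
    have : N' * (N₀ * N₁) = N₁ * (N' * N₀) := by ring
    rw [this, pow_mul, hw1, ← pow_mul]
  have e3 := congrArg ι hxy
  rw [map_pow, map_mul, map_pow, map_natCast] at e3
  rw [mul_pow, e1, e2, ← mul_pow, pow_mul, e3, ← pow_mul]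

end Pool.Agent.GT4
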