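import Pool.Agent.GT4.St

/-!
# GT4, module PSM: `p`-adic squares
-/

set_option autoImplicit false

open Polynomial

namespace Pool.Agent.GT4

open Pool.Agent.GT2 Pool.Agent.GT3

namespace PSMAux

/-- the `p`-part of an integer -/
lemma part {p : ℕ} (hp : p.Prime) {M : ℤ} (hM : M ≠ 0) :
    ∃ (a : ℕ) (M1 : ℤ), M = (p : ℤ) ^ a * M1 ∧ ¬ (p : ℤ) ∣ M1 := by
  have hfin : FiniteMultiplicity (p : ℤ) M := by
    rw [Int.finiteMultiplicity_iff]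
    exact ⟨by simpa using hp.ne_one, hM⟩
  obtain ⟨c, h1, h2⟩ := hfin.exists_eq_pow_mul_and_not_dvd
  exact ⟨_, c, h1, h2⟩

/-- compare the exponents -/
lemma le_of_dvd {p : ℕ} (hp : p.Prime) {a b : ℕ} {y : ℤ} (hy : ¬ (p : ℤ) ∣ y)
    (h : (p : ℤ) ^ a ∣ (p : ℤ) ^ b * y) : a ≤ b := by
  by_contra hab
  rw [not_le] at hab
  have hp0 : (p : ℤ) ≠ 0 := by exact_mod_cast hp.ne_zero
  have h1 : (p : ℤ) ^ b * (p : ℤ) ∣ (p : ℤ) ^ b * y := by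
    rw [← pow_succ]
    exact dvd_trans (pow_dvd_pow _ hab) h
  exact hy ((mul_dvd_mul_iff_left (pow_ne_zero b hp0)).1 h1)

end PSMAux

open PSMAux in
theorem t_PSM : S_PSM := by
  intro p hp M N hM hPS hsq
  have hpi : Prime (p : ℤ) := Nat.prime_iff_prime_int.1 hp
  have hp0 : (p : ℤ) ≠ 0 := hpi.ne_zero
  obtain ⟨a, M1, rfl, hM1⟩ := part hp hM
  -- the exponent is even
  obtain ⟨b, rfl⟩ : ∃ b, a = 2 * b := by
    obtain ⟨x, hx⟩ := hPS (a + 1)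
    have h1 : ¬ (p : ℤ) ^ (a + 1) ∣ x ^ 2 := by
      intro h
      have h2 : (p : ℤ) ^ (a + 1) ∣ (p : ℤ) ^ a * M1 := by
        have h3 := dvd_sub h hx
        have h4 : x ^ 2 - (x ^ 2 - (p : ℤ) ^ a * M1) = (p : ℤ) ^ a * M1 := by ring
        rwa [h4] at h3
      have := le_of_dvd hp hM1 h2
      omega
    have h2 : (p : ℤ) ^ a ∣ x ^ 2 := by
      have h3 : (p : ℤ) ^ a ∣ x ^ 2 - (p : ℤ) ^ a * M1 :=
        dvd_trans (pow_dvd_pow _ (Nat.le_succ a)) hx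
      have h4 := dvd_add h3 (dvd_mul_right ((p : ℤ) ^ a) M1)
      have h5 : x ^ 2 - (p : ℤ) ^ a * M1 + (p : ℤ) ^ a * M1 = x ^ 2 := by ring
      rwa [h5] at h4
    have hx0 : x ≠ 0 := by
      rintro rfl
      exact h1 (by simp)
    obtain ⟨b, x1, rfl, hx1⟩ := part hp hx0
    have hx2 : ¬ (p : ℤ) ∣ x1 ^ 2 := fun h => hx1 (hpi.dvd_of_dvd_pow h)
    have h3 : ((p : ℤ) ^ b * x1) ^ 2 = (p : ℤ) ^ (2 * b) * x1 ^ 2 := by
      rw [mul_pow, ← pow_mul, mul_comm b 2]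
    rw [h3] at h1 h2
    refine ⟨b, le_antisymm (le_of_dvd hp hx2 h2) ?_⟩
    by_contra h
    exact h1 (dvd_mul_of_dvd_left (pow_dvd_pow _ (by omega)) _)
  have hpb : (p : ℤ) ^ (2 * b) = ((p : ℤ) ^ b) ^ 2 := by rw [← pow_mul, mul_comm b 2]
  -- the square `M1 * N`
  obtain ⟨z1, hz1⟩ : ∃ z1 : ℤ, M1 * N = z1 ^ 2 := by
    obtain ⟨z, hz⟩ := hsq
    have h1 : ((p : ℤ) ^ b) ^ 2 ∣ z ^ 2 := by
      refine ⟨M1 * N, ?_⟩
      rw [← hpb, ← mul_assoc, hz, sq]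
    obtain ⟨z1, rfl⟩ := (Int.pow_dvd_pow_iff (by norm_num)).1 h1
    refine ⟨z1, ?_⟩
    have h2 : ((p : ℤ) ^ b) ^ 2 ≠ 0 := pow_ne_zero _ (pow_ne_zero _ hp0)
    apply mul_left_cancel₀ h2
    rw [hpb] at hz
    linear_combination hz
  intro k
  rcases Nat.eq_zero_or_pos k with rfl | hk
  · exact ⟨0, by simp⟩
  obtain ⟨x, hx⟩ := hPS (2 * b + k)
  have h1 : ((p : ℤ) ^ b) ^ 2 ∣ x ^ 2 := by
    rw [← hpb]
    have h3 : (p : ℤ) ^ (2 * b) ∣ x ^ 2 - (p : ℤ) ^ (2 * b) * M1 :=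
      dvd_trans (pow_dvd_pow _ (Nat.le_add_right _ _)) hx
    have h4 := dvd_add h3 (dvd_mul_right ((p : ℤ) ^ (2 * b)) M1)
    have h5 : x ^ 2 - (p : ℤ) ^ (2 * b) * M1 + (p : ℤ) ^ (2 * b) * M1 = x ^ 2 := by ring
    rwa [h5] at h4
  obtain ⟨x1, rfl⟩ := (Int.pow_dvd_pow_iff (by norm_num)).1 h1
  have h2 : (p : ℤ) ^ k ∣ x1 ^ 2 - M1 := by
    have h3 : (p : ℤ) ^ (2 * b) * (p : ℤ) ^ k ∣ (p : ℤ) ^ (2 * b) * (x1 ^ 2 - M1) := by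
      rw [← pow_add]
      have h4 : (p : ℤ) ^ (2 * b) * (x1 ^ 2 - M1) =
          ((p : ℤ) ^ b * x1) ^ 2 - (p : ℤ) ^ (2 * b) * M1 := by rw [hpb]; ring
      rw [h4]
      exact hx
    exact (mul_dvd_mul_iff_left (pow_ne_zero _ hp0)).1 h3
  have hx1 : ¬ (p : ℤ) ∣ x1 := by
    intro h
    apply hM1
    have h3 : (p : ℤ) ∣ x1 ^ 2 - M1 := dvd_trans (dvd_pow_self _ (by omega)) h2
    have h4 := dvd_sub (dvd_pow h (by norm_num : 2 ≠ 0)) h3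
    have h5 : x1 ^ 2 - (x1 ^ 2 - M1) = M1 := by ring
    rwa [h5] at h4
  have hcop : IsCoprime x1 ((p : ℤ) ^ k) := by
    refine IsCoprime.pow_right ?_
    exact ((Prime.coprime_iff_not_dvd hpi).2 hx1).symm
  obtain ⟨y, w, hyw⟩ := hcop
  refine ⟨z1 * y, ?_⟩
  obtain ⟨d, hd⟩ := h2
  refine ⟨N * (-d * y ^ 2 - w * (x1 * y + 1)), ?_⟩
  have h3 : (z1 * y) ^ 2 - N = N * ((M1 - x1 ^ 2) * y ^ 2 + (y * x1 - 1) * (x1 * y + 1)) := by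
    have : (z1 * y) ^ 2 = M1 * N * y ^ 2 := by rw [mul_pow, ← hz1]
    rw [this]
    ring
  have h4 : y * x1 - 1 = - (w * (p : ℤ) ^ k) := by linarith
  have h5 : M1 - x1 ^ 2 = - ((p : ℤ) ^ k * d) := by linarith
  rw [h3, h4, h5]
  ring

end Pool.Agent.GT4
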