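import Pool.Agent.GT4.St

/-!
# Roots of unity in a dihedral CM field (GT4): module ROU
-/

set_option autoImplicit false

namespace Pool.Agent.GT4

open Pool.Agent.GT2 Pool.Agent.GT3

namespace ROUAux

/-- Automorphisms commute on roots of unity. -/
theorem comm_unity {L : Type} [Field L] {u : L} {N : ℕ} (hN : 1 ≤ N) (hu : u ^ N = 1)
    (σ τ : L ≃+* L) : σ (τ u) = τ (σ u) := by
  have : NeZero N := ⟨by omega⟩
  let z : rootsOfUnity N L := rootsOfUnity.mkOfPowEq u hu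
  have hz : ((z : Lˣ) : L) = u := rootsOfUnity.val_mkOfPowEq_coe u hu
  obtain ⟨m, hm⟩ := map_rootsOfUnity_eq_pow_self σ z
  obtain ⟨n, hn⟩ := map_rootsOfUnity_eq_pow_self τ z
  rw [hz] at hm hn
  rw [hn, hm, map_pow, map_pow, hm, hn, ← pow_mul, ← pow_mul, mul_comm]

end ROUAux

open ROUAux in
theorem t_ROU : M_ROU := by
  intro hSWA L _ _ _ q hq A B A₁ B₁ a a₁ u N hC hN huN huH hbar
  obtain ⟨b, x', hb, -, -, -, -, -, -, -, ⟨τ, hτa, -, -, hτb⟩, ⟨τ', -, hτ'a, hτ'b, -⟩⟩ :=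
    hSWA L q hq A B A₁ B₁ a a₁ hC
  have hu0 : u ≠ 0 := by
    rintro rfl
    rw [zero_pow (by omega)] at huN
    exact zero_ne_one huN
  have hcomm : ∀ (σ ρ : L ≃ₐ[ℚ] L), σ (ρ u) = ρ (σ u) := fun σ ρ =>
    comm_unity hN huN σ.toRingEquiv ρ.toRingEquiv
  have h1 : (τ' * τ * τ'⁻¹) a = (q : L) / a := by
    have h2 : τ'⁻¹ a = b := by
      rw [← hτ'b]
      exact τ'.symm_apply_apply b
    change τ' (τ (τ'⁻¹ a)) = _
    rw [h2, hτb, map_bar, hτ'b]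
  have h3 : (τ' * τ * τ'⁻¹) u = u := by
    change τ' (τ (τ'⁻¹ u)) = u
    rw [hcomm τ τ'⁻¹, huH τ hτa]
    exact τ'.apply_symm_apply u
  have h4 := hbar _ h1
  rw [h3] at h4
  rw [pow_two]
  nth_rewrite 1 [h4]
  exact inv_mul_cancel₀ hu0

end Pool.Agent.GT4
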