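import Pool.Agent.GT4.St

/-!
# RXS: reflex pairs are symmetric
-/

set_option autoImplicit false

namespace Pool.Agent.GT4

open Pool.Agent.GT2 Pool.Agent.GT3

namespace RXSAux

lemma ne_zero_of {x : ℤ} (h : ¬ IsSquare x) : x ≠ 0 := by
  rintro rfl
  exact h ⟨0, by ring⟩

lemma sq_cancel {x s y : ℤ} (hs : s ≠ 0) (h : x * s ^ 2 = y ^ 2) : IsSquare x := by
  have h1 : s ^ 2 ∣ y ^ 2 := ⟨x, by rw [← h]; ring⟩
  obtain ⟨t, rfl⟩ := (Int.pow_dvd_pow_iff (by norm_num)).1 h1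
  refine ⟨t, ?_⟩
  have h2 : s ^ 2 * x = s ^ 2 * (t * t) := by linear_combination h
  exact mul_left_cancel₀ (pow_ne_zero 2 hs) h2

end RXSAux

open RXSAux in
theorem t_RXS : S_RXS := by
  rintro q A B A₁ B₁ ⟨hG, hG₁, n, m, w, hn, hm, hw, h0⟩
  refine ⟨hG₁, hG, m, n, w, by rw [hm]; ring, by rw [hn]; ring, by rw [← hw]; ring, ?_⟩
  intro hw0
  obtain ⟨s, hs⟩ := h0 hw0
  have hD : DD A B ≠ 0 := ne_zero_of hG.1
  have hD₁ : DD A₁ B₁ ≠ 0 := ne_zero_of hG₁.1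
  have hP : DP q A B ≠ 0 := ne_zero_of hG.2.1
  have hm0 : m ≠ 0 := by
    rintro rfl
    exact mul_ne_zero hP hD₁ (by rw [← hm]; ring)
  have hA₁ : A₁ ≠ 0 := by
    rintro rfl
    exact hG₁.2.1 ⟨B₁ + 4 * q, by unfold DP; ring⟩
  have hs0 : s ≠ 0 := by
    rintro rfl
    apply mul_ne_zero (mul_ne_zero hD hA₁) hm0
    linarith
  have hu : (A ^ 2 - 2 * B - 8 * q) ^ 2 = A ^ 2 * DD A B + 4 * DP q A B := by
    unfold DD DP
    ring
  have hu₁ : (A₁ ^ 2 - 2 * B₁ - 8 * q) ^ 2 = A₁ ^ 2 * DD A₁ B₁ + 4 * DP q A₁ B₁ := by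
    unfold DD DP
    ring
  rw [hw0] at hw
  have h1 : (A ^ 2 - 2 * B - 8 * q) * (A₁ ^ 2 - 2 * B₁ - 8 * q) = -2 * (A * n + A₁ * m) := by
    linarith
  have h2 : (A ^ 2 * DD A B + 4 * DP q A B) * (A₁ ^ 2 * DD A₁ B₁ + 4 * DP q A₁ B₁) =
      4 * (A * n + A₁ * m) ^ 2 := by
    rw [← hu, ← hu₁, ← mul_pow, h1]
    ring
  generalize DD A B = D at *
  generalize DD A₁ B₁ = D₁ at *
  generalize DP q A B = P at *
  generalize DP q A₁ B₁ = P₁ at *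
  have h3 : (A * A₁ * (D * D₁) - 4 * n * m) ^ 2 = 0 := by
    linear_combination (D * D₁) * h2 + (16 * m ^ 2 + 4 * A ^ 2 * (D * D₁) ) * hn +
      (16 * D * P₁ + 4 * A₁ ^ 2 * (D * D₁)) * hm
  have h4 : A * A₁ * (D * D₁) = 4 * n * m := by
    have := pow_eq_zero_iff (two_ne_zero) |>.1 h3
    linarith
  apply sq_cancel (y := 2 * n * m) hs0
  have h5 : s ^ 2 = -(D * A₁ * m) := by rw [hs]; ring
  rw [h5]
  linear_combination (n * m) * h4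

end Pool.Agent.GT4
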