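import Pool.Agent.GT4.St

/-!
# GT4: different partners are orthogonal (module TOR)
-/

set_option autoImplicit false

namespace Pool.Agent.GT4

open Pool.Agent.GT2 Pool.Agent.GT3

noncomputable section

namespace TORAux

/-- an automorphism of the algebraic numbers, restricted to `L` -/
lemma res {L : Type} [Field L] [NumberField L] [IsGalois ℚ L] (i : L →+* Qb)
    (σ : Qb ≃ₐ[ℚ] Qb) : ∃ τ : L ≃ₐ[ℚ] L, ∀ x : L, σ (i x) = i (τ x) := by
  let : Algebra L Qb := i.toAlgebra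
  have : IsScalarTower ℚ L Qb := IsScalarTower.of_algebraMap_eq' (Subsingleton.elim _ _)
  exact ⟨AlgEquiv.restrictNormal σ L, fun x => (AlgEquiv.restrictNormal_commutes σ L x).symm⟩

lemma rt_map {L : Type} [Field L] (i : L →+* Qb) {q : ℕ} {A B : ℤ} {a : L} (h : Rt q A B a) :
    Rt q A B (i a) := by
  refine ⟨(map_ne_zero i).2 h.1, ?_⟩
  have h1 := congrArg i h.2
  rw [map_add, map_add, map_pow, map_mul, map_add, map_div₀, map_natCast, map_intCast,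
    map_intCast, map_zero] at h1
  exact h1

lemma cf_symm {L : Type} [Field L] [NumberField L] {q : ℕ} {A B A₁ B₁ : ℤ} {a a₁ : L}
    (h : Cf q A B A₁ B₁ a a₁) : Cf q A₁ B₁ A B a₁ a where
  ra := h.ra₁
  ra₁ := h.ra
  d := h.d₁
  dp := h.dp₁
  d₁ := h.d
  dp₁ := h.dp
  c := by
    obtain ⟨c, hc⟩ := h.c
    exact ⟨c, fun z hz => hc z hz.symm⟩
  n₁ := h.n
  n := h.n₁
  e₁ := h.e
  e := h.e₁

/-- `z` is a root with the opposite slopes -/
lemma opp {L : Type} [Field L] [NumberField L] [IsGalois ℚ L] (i : L →+* Qb)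
    (v : AbsoluteValue Qb ℝ) (p q : ℕ) (hC : S_CON) (hU : S_UNT3) (hR : S_ROU) (hpq : Pq p q)
    (hq : 1 ≤ q) (hv : IsNonarchimedean v) (hvp : v (p : Qb) < 1) (A B A₁ B₁ A₂ B₂ : ℤ)
    (a a₁ z : L) (hw₁ : W2 q A₁ B₁) (hw₂ : W2 q A₂ B₂) (hc : Cf q A B A₁ B₁ a a₁)
    (hz : Rt q A₂ B₂ z) (hst : ∀ τ : L ≃ₐ[ℚ] L, τ a₁ = a₁ → τ z = z)
    (hF : ∀ τ : L ≃ₐ[ℚ] L, F q v (i (τ a₁)) = - F q v (i (τ z))) :
    B₂ = B₁ ∧ (A₂ = A₁ ∨ A₂ = - A₁) := by
  have hq0 : (q : L) ≠ 0 := qne hq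
  have ha₁ : a₁ ≠ 0 := hc.ra₁.1
  have hz0 : z ≠ 0 := hz.1
  obtain ⟨N, hN, hzN⟩ := hU v p q hpq hv hvp A₂ B₂ A₁ B₁ hw₂ hw₁ (i z) (i a₁) (rt_map i hz)
    (rt_map i hc.ra₁) (by
      intro σ
      obtain ⟨τ, hτ⟩ := res i σ
      rw [hτ, hτ]
      exact hF τ)
  have h1 : (z * a₁) ^ N = (q : L) ^ N := by
    apply i.injective
    rw [map_pow, map_mul, map_pow, map_natCast]
    exact hzN
  obtain ⟨c, hcc⟩ := hC L
  have hca₁ : c a₁ = (q : L) / a₁ := hcc q A₁ B₁ a₁ hq hw₁ hc.ra₁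
  have hcz : c z = (q : L) / z := hcc q A₂ B₂ z hq hw₂ hz
  have hu := hR L q hq A₁ B₁ A B a₁ a (z * a₁ / q) N (cf_symm hc) hN (by
    rw [div_pow, h1, div_self (pow_ne_zero _ hq0)]) (by
    intro τ hτ
    rw [map_div₀, map_mul, map_natCast, hτ, hst τ hτ]) (by
    intro c' hc'
    have h2 : (c⁻¹ * c') a₁ = a₁ := by
      show c⁻¹ (c' a₁) = a₁
      rw [hc', ← hca₁]
      exact c.symm_apply_apply a₁
    have h3 := hst _ h2
    have h4 : c' z = (q : L) / z := by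
      rw [← hcz]
      have h5 : c (c⁻¹ (c' z)) = c' z := c.apply_symm_apply (c' z)
      rw [← h5]
      exact congrArg c h3
    rw [map_div₀, map_mul, map_natCast, hc', h4]
    field_simp)
  have h6 : z * a₁ = q ∨ z * a₁ = - q := by
    rw [div_pow, div_eq_one_iff_eq (pow_ne_zero 2 hq0)] at hu
    exact sq_eq_sq_iff_eq_or_eq_neg.1 hu
  -- the equation with a sign
  have key : ∀ e : ℤ, z + (q : L) / z = e * (a₁ + q / a₁) → e ^ 2 = 1 →
      B₂ = B₁ ∧ e * A₂ = A₁ := by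
    intro e he he2
    have he2' : (e : L) ^ 2 = 1 := by exact_mod_cast he2
    have h7 : ((A₁ - e * A₂ : ℤ) : L) * (a₁ + q / a₁) + ((B₁ - B₂ : ℤ) : L) = 0 := by
      have h8 := hz.2
      rw [he] at h8
      push_cast
      linear_combination hc.ra₁.2 - h8 + (a₁ + (q : L) / a₁) ^ 2 * he2'
    by_cases hA : A₁ - e * A₂ = 0
    · rw [hA, Int.cast_zero, zero_mul, zero_add, Int.cast_eq_zero] at h7
      exact ⟨by omega, by omega⟩
    · exfalso
      have hA' : ((A₁ - e * A₂ : ℤ) : L) ≠ 0 := by exact_mod_cast hA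
      have h9 : a₁ + (q : L) / a₁ = - ((B₁ - B₂ : ℤ) : L) / ((A₁ - e * A₂ : ℤ) : L) := by
        rw [eq_div_iff hA']
        linear_combination h7
      apply hc.d₁
      refine sq_of_fixed (L := L) (x := 2 * (a₁ + (q : L) / a₁) + A₁) ?_ hc.ra₁.disc
      intro σ
      rw [h9, map_add, map_mul, map_div₀, map_neg, map_intCast, map_intCast, map_intCast]
      congr 2
      exact map_ofNat σ 2
  rcases h6 with h6 | h6
  · have h7 : z = (q : L) / a₁ := by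
      rw [eq_div_iff ha₁, h6]
    obtain ⟨k1, k2⟩ := key 1 (by
      rw [h7, bar_add hq ha₁, Int.cast_one, one_mul]) (by norm_num)
    exact ⟨k1, Or.inl (by omega)⟩
  · have h7 : z = - ((q : L) / a₁) := by
      rw [← neg_div, eq_div_iff ha₁, h6]
    obtain ⟨k1, k2⟩ := key (-1) (by
      rw [h7, div_neg, ← neg_add, bar_add hq ha₁, Int.cast_neg, Int.cast_one, neg_one_mul])
      (by norm_num)
    exact ⟨k1, Or.inr (by omega)⟩

end TORAux

open TORAux in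
/-- TOR: different partners are orthogonal. -/
theorem t_TOR : M_TOR := by
  intro hL hC hS hU hR L _ _ _ i v p q hpq hv hvp A B A₁ B₁ A₂ B₂ a a₁ a₂ hT hT₁ hT₂ hc₁ hc₂ hst
    hne
  have hq : 1 ≤ q := by
    obtain ⟨n, _, rfl⟩ := hpq.pw
    exact Nat.one_le_pow _ _ hpq.pr.pos
  set w : AbsoluteValue L ℝ := v.comp i.injective with hw
  have hFw : ∀ x : L, F q w x = F q v (i x) := by
    intro x
    unfold F
    have e1 : w x = v (i x) := rfl
    have e2 : w (q : L) = v (q : Qb) := by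
      show v (i (q : L)) = _
      rw [map_natCast]
    rw [e1, e2]
  have hVq : Vq L p q w := by
    refine ⟨hpq, ?_, ?_⟩
    · intro x y
      show v (i (x + y)) ≤ max (v (i x)) (v (i y))
      rw [map_add]
      exact hv _ _
    · show v (i (p : L)) < 1
      rw [map_natCast]
      exact hvp
  obtain ⟨c, hcc⟩ := hC L
  have hca₁ : c a₁ = (q : L) / a₁ := hcc q A₁ B₁ a₁ hq hT₁.w hc₁.ra₁
  have hca₂ : c a₂ = (q : L) / a₂ := hcc q A₂ B₂ a₂ hq hT₂.w hc₂.ra₁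
  rcases hS L w p q hVq A₁ B₁ A₂ B₂ a₁ a₂ hT₁ hT₂ hc₁.ra₁ hc₂.ra₁ hc₁.d₁ hc₂.d₁
    ⟨c, hca₁, hca₂⟩ (fun τ hτ => (hst τ).1 hτ) with h | h | h
  · exfalso
    apply hne
    refine opp i v p q hC hU hR hpq hq hv hvp A B A₁ B₁ A₂ B₂ a a₁ ((q : L) / a₂) hT₁.w hT₂.w hc₁
      (hc₂.ra₁.bar hq) ?_ ?_
    · intro τ hτ
      rw [map_bar, (hst τ).1 hτ]
    · intro τ
      have h1 := (hL L w p q hVq A₂ B₂ (τ a₂) (hc₂.ra₁.map τ)).2.2.2
      rw [map_bar, ← hFw, ← hFw, h1, neg_neg]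
      exact h τ
  · exfalso
    apply hne
    refine opp i v p q hC hU hR hpq hq hv hvp A B A₁ B₁ A₂ B₂ a a₁ a₂ hT₁.w hT₂.w hc₁ hc₂.ra₁
      (fun τ hτ => (hst τ).1 hτ) ?_
    intro τ
    rw [← hFw, ← hFw]
    exact h τ
  · simp only [hFw] at h
    exact h

end

end Pool.Agent.GT4
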