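import Pool.Agent.GT4.St

/-!
# GT4, module TRR (helper85): the relation of the slopes
-/

set_option autoImplicit false

namespace Pool.Agent.GT4

open Pool.Agent.GT2 Pool.Agent.GT3

namespace TRRAux

variable {L : Type} [Field L] [NumberField L] {q : ℕ} {v : AbsoluteValue L ℝ}

lemma inv_mul_fix {y : L} (σ τ : L ≃ₐ[ℚ] L) (h : σ y = τ y) : (τ⁻¹ * σ) y = y := by
  rw [AlgEquiv.mul_apply, h]
  exact τ.symm_apply_apply y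

lemma of_inv_mul {z w : L} (σ τ : L ≃ₐ[ℚ] L) (h : (τ⁻¹ * σ) z = w) : σ z = τ w := by
  rw [← h, AlgEquiv.mul_apply]
  exact (τ.apply_symm_apply (σ z)).symm

/-- the sum over a pair of roots -/
lemma dl1 {a a₁ x : L}
    (hS : ∀ τ : L ≃ₐ[ℚ] L, τ a = a → (τ a₁ = a₁ ∧ τ x = x) ∨ (τ a₁ = x ∧ τ x = a₁))
    (σ τ : L ≃ₐ[ℚ] L) (h : σ a = τ a) :
    F q v (σ a) * (F q v (σ a₁) + F q v (σ x)) =
      F q v (τ a) * (F q v (τ a₁) + F q v (τ x)) := by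
  rcases hS _ (inv_mul_fix σ τ h) with ⟨h1, h2⟩ | ⟨h1, h2⟩
  · rw [h, of_inv_mul _ _ h1, of_inv_mul _ _ h2]
  · rw [h, of_inv_mul _ _ h1, of_inv_mul _ _ h2, add_comm]

lemma dl2 {A B A₁ B₁ : ℤ} {a a₁ x : L} (c : L ≃ₐ[ℚ] L) (hq : 1 ≤ q)
    (ha : Rt q A B a) (ha₁ : Rt q A₁ B₁ a₁) (hx : Rt q A₁ B₁ x)
    (hc : ∀ z : L, Rt q A B z ∨ Rt q A₁ B₁ z → c z = (q : L) / z)
    (hF : ∀ z : L, Rt q A B z ∨ Rt q A₁ B₁ z → F q v ((q : L) / z) = - F q v z)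
    (hS : ∀ τ : L ≃ₐ[ℚ] L, τ a = a → (τ a₁ = a₁ ∧ τ x = x) ∨ (τ a₁ = x ∧ τ x = a₁))
    (σ τ : L ≃ₐ[ℚ] L) (h : σ a = τ a ∨ σ a = (q : L) / τ a) :
    F q v (σ a) * (F q v (σ a₁) + F q v (σ x)) =
      F q v (τ a) * (F q v (τ a₁) + F q v (τ x)) := by
  rcases h with h | h
  · exact dl1 hS σ τ h
  · have h1 : (c * σ) a = τ a := by
      rw [AlgEquiv.mul_apply, hc _ (Or.inl (ha.map σ)), h, bar_bar hq ((map_ne_zero τ).2 ha.1)]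
    have h2 := dl1 (v := v) (q := q) hS (c * σ) τ h1
    rw [← h2, AlgEquiv.mul_apply, AlgEquiv.mul_apply, AlgEquiv.mul_apply,
      hc _ (Or.inl (ha.map σ)), hc _ (Or.inr (ha₁.map σ)), hc _ (Or.inr (hx.map σ)),
      hF _ (Or.inl (ha.map σ)), hF _ (Or.inr (ha₁.map σ)), hF _ (Or.inr (hx.map σ))]
    ring

lemma sq1 {r : ℝ} (h : r = 1 ∨ r = -1) : r * r = 1 := by
  rcases h with h | h <;> rw [h] <;> norm_num

lemma pm_mul {r s : ℝ} (h : r = 1 ∨ r = -1) (h' : s = 1 ∨ s = -1) : r * s = 1 ∨ r * s = -1 := by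
  rcases h with h | h <;> rcases h' with h' | h' <;> rw [h, h'] <;> norm_num

/-- the signs -/
lemma signs {α β s s' u u' : ℝ} (hα : α = 1 ∨ α = -1) (hβ : β = 1 ∨ β = -1)
    (hs : s = 1 ∨ s = -1) (hs' : s' = 1 ∨ s' = -1) (hu : u = 1 ∨ u = -1)
    (h : s * u + s' * u' = 0) :
    ∃ e₁ e₂ : ℝ, (e₁ = 1 ∨ e₁ = -1) ∧ (e₂ = 1 ∨ e₂ = -1) ∧
      2 = e₁ * (α * (s + s')) + e₂ * (α * (u + u')) ∧
      2 = e₁ * (β * (s - s')) + e₂ * (β * (u - u')) := by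
  have a2 := sq1 hα
  have b2 := sq1 hβ
  have s2 := sq1 hs
  have u2 := sq1 hu
  have hss : s' = s ∨ s' = -s := by
    rcases hs with h1 | h1 <;> rcases hs' with h2 | h2 <;> rw [h1, h2] <;> norm_num
  rcases hss with h1 | h1
  · have h3 : u' = -u := by
      rw [h1] at h
      linear_combination s * h - (u + u') * s2
    refine ⟨α * s, β * u, pm_mul hα hs, pm_mul hβ hu, ?_, ?_⟩
    · rw [h1, h3]
      linear_combination (-2 : ℝ) * a2 - 2 * α * α * s2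
    · rw [h1, h3]
      linear_combination (-2 : ℝ) * b2 - 2 * β * β * u2
  · have h3 : u' = u := by
      rw [h1] at h
      linear_combination (-s) * h + (u - u') * s2
    refine ⟨β * s, α * u, pm_mul hβ hs, pm_mul hα hu, ?_, ?_⟩
    · rw [h1, h3]
      linear_combination (-2 : ℝ) * a2 - 2 * α * α * u2
    · rw [h1, h3]
      linear_combination (-2 : ℝ) * b2 - 2 * β * β * s2

/-- a root with the given sign -/
lemma pick {A B : ℤ} {y : L} (hq : 1 ≤ q) (hy : Rt q A B y)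
    (hF : ∀ z : L, Rt q A B z → F q v ((q : L) / z) = - F q v z) {e : ℝ} (he : e = 1 ∨ e = -1) :
    ∃ y' : L, Rt q A B y' ∧ ∀ σ : L ≃ₐ[ℚ] L, F q v (σ y') = e * F q v (σ y) := by
  rcases he with he | he
  · exact ⟨y, hy, fun σ => by rw [he, one_mul]⟩
  · exact ⟨(q : L) / y, hy.bar hq, fun σ => by
      rw [he, map_bar, hF _ (hy.map σ), neg_one_mul]⟩

end TRRAux

open TRRAux in
theorem t_TRR : M_TRR := by
  intro hLOC hCON hSWA L _ _ _ v p q hV A B A₁ B₁ A₂ B₂ a a₁ a₂ hw hw₁ hw₂ hC₁ hC₂ hst hB hB₁ hB₂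
    hsum
  have hq : 1 ≤ q := by
    obtain ⟨n, -, rfl⟩ := hV.pq.pw
    exact Nat.one_le_iff_ne_zero.2 (pow_ne_zero n hV.pq.pr.ne_zero)
  obtain ⟨c, hc⟩ := hCON L
  have hF : ∀ (A B : ℤ) (z : L), Rt q A B z → F q v ((q : L) / z) = - F q v z :=
    fun A B z hz => (hLOC L v p q hV A B z hz).2.2.2
  have hval : ∀ (A B : ℤ) (z : L), ¬ (p : ℤ) ∣ B → Rt q A B z → F q v z = 1 ∨ F q v z = -1 :=
    fun A B z hB hz => (hLOC L v p q hV A B z hz).1 hB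
  obtain ⟨b, x₁, hb, hx₁, -, htx₁, hl, -, hS, -, ⟨τ₀, u1, u2, u3, -⟩, ⟨τ₁, s1, s2, -, s4⟩⟩ :=
    hSWA L q hq A B A₁ B₁ a a₁ hC₁
  obtain ⟨-, x₂, -, hx₂, -, -, -, -, hS₂, -, -, -⟩ := hSWA L q hq A B A₂ B₂ a a₂ hC₂
  have ha := hC₁.ra
  have ha₁ := hC₁.ra₁
  have ha₂ := hC₂.ra₁
  -- `a₂` follows `a₁`
  have P1 : ∀ τ τ' : L ≃ₐ[ℚ] L, τ a₁ = τ' a₁ → τ a₂ = τ' a₂ := fun τ τ' h =>
    of_inv_mul _ _ ((hst _).1 (inv_mul_fix τ τ' h))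
  have P2 : ∀ τ τ' : L ≃ₐ[ℚ] L, τ a₁ = (q : L) / τ' a₁ → τ a₂ = (q : L) / τ' a₂ := by
    intro τ τ' h
    have h1 : τ a₁ = (c * τ') a₁ := by
      rw [h, AlgEquiv.mul_apply, hc q A₁ B₁ _ hq hw₁ (ha₁.map τ')]
    rw [P1 _ _ h1, AlgEquiv.mul_apply, hc q A₂ B₂ _ hq hw₂ (ha₂.map τ')]
  have Hh : ∀ σ τ : L ≃ₐ[ℚ] L, (σ a₁ = τ a₁ ∨ σ a₁ = (q : L) / τ a₁) →
      F q v (σ a₁) * F q v (σ a₂) = F q v (τ a₁) * F q v (τ a₂) := by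
    intro σ τ h
    rcases h with h | h
    · rw [P1 _ _ h, h]
    · rw [P2 _ _ h, h, hF _ _ _ (ha₁.map τ), hF _ _ _ (ha₂.map τ)]
      ring
  -- `x₁ ≠ a₁`, so `τ₀` exchanges `a₂` and `x₂`
  have hne : x₁ ≠ a₁ := by
    intro h
    rw [h] at htx₁
    apply hC₁.d₁
    have h1 := ha₁.disc
    have h2 : (2 * (a₁ + (q : L) / a₁) + A₁) = 0 := by linear_combination htx₁
    rw [h2] at h1
    have h3 : ((DD A₁ B₁ : ℤ) : L) = 0 := by rw [← h1]; ring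
    rw [Int.cast_eq_zero.1 h3]
    exact ⟨0, rfl⟩
  have u5 : τ₀ a₂ = x₂ := by
    rcases hS₂ τ₀ u1 with ⟨h, -⟩ | ⟨h, -⟩
    · exact absurd (u2.symm.trans ((hst τ₀).2 h)) hne
    · exact h
  -- the two classes
  have key : ∀ σ : L ≃ₐ[ℚ] L, F q v (σ a₁) * F q v (σ a₂) +
      F q v ((σ * τ₀) a₁) * F q v ((σ * τ₀) a₂) = F q v a₁ * F q v a₂ + F q v x₁ * F q v x₂ := by
    intro σ
    have e1 := Hh σ 1
    have e2 := Hh σ τ₀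
    have e3 := Hh (σ * τ₀) 1
    have e4 := Hh (σ * τ₀) τ₀
    rw [AlgEquiv.one_apply, AlgEquiv.one_apply] at e1 e3
    rw [u2, u5] at e2
    have hm : (σ * τ₀) a₁ = σ x₁ := by rw [AlgEquiv.mul_apply, u2]
    rw [hm] at e3 e4 ⊢
    rw [u2, u5] at e4
    have h1 : σ x₁ + (q : L) / σ x₁ = - A₁ - (σ a₁ + (q : L) / σ a₁) := by
      rw [← map_tr, htx₁, map_sub, map_neg, map_intCast, map_tr]
    have hx0 : σ x₁ ≠ 0 := (map_ne_zero σ).2 hx₁.1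
    have ha0 : σ a₁ ≠ 0 := (map_ne_zero σ).2 ha₁.1
    rcases ha₁.two (ha₁.map σ) with h2 | h2
    · rw [h2, ← htx₁] at h1
      rw [e1 (eq_or_bar ha₁.1 ha0 h2), e4 (eq_or_bar hx₁.1 hx0 h1)]
    · rw [← htx₁] at h2
      rw [h2, htx₁] at h1
      have h3 : σ x₁ + (q : L) / σ x₁ = a₁ + (q : L) / a₁ := by rw [h1]; ring
      rw [e2 (eq_or_bar hx₁.1 ha0 h2), e3 (eq_or_bar ha₁.1 hx0 h3), add_comm]
  have hrel : F q v a₁ * F q v a₂ + F q v x₁ * F q v x₂ = 0 := by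
    have h1 : ∑ σ : L ≃ₐ[ℚ] L, (F q v (σ a₁) * F q v (σ a₂) +
        F q v ((σ * τ₀) a₁) * F q v ((σ * τ₀) a₂)) = 0 := by
      have h2 : ∑ σ : L ≃ₐ[ℚ] L, F q v ((σ * τ₀) a₁) * F q v ((σ * τ₀) a₂) =
          ∑ σ : L ≃ₐ[ℚ] L, F q v (σ a₁) * F q v (σ a₂) :=
        Equiv.sum_comp (Equiv.mulRight τ₀)
          (fun σ : L ≃ₐ[ℚ] L => F q v (σ a₁) * F q v (σ a₂))
      rw [Finset.sum_add_distrib, h2, hsum, add_zero]
    rw [Finset.sum_congr rfl fun σ _ => key σ, Finset.sum_const, nsmul_eq_mul] at h1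
    refine (mul_eq_zero.1 h1).resolve_left ?_
    exact Nat.cast_ne_zero.2 (Finset.card_ne_zero.2 ⟨1, Finset.mem_univ _⟩)
  -- the action of `τ₁` on `a₂`, `x₂`
  have s5 : τ₁ a₂ = a₂ := (hst τ₁).1 s1
  have s6 : τ₁ x₂ = (q : L) / x₂ := by
    have h1 : (τ₁ * τ₀) a₁ = (q : L) / τ₀ a₁ := by
      rw [AlgEquiv.mul_apply, u2, s4]
    have h2 := P2 _ _ h1
    rwa [AlgEquiv.mul_apply, u5] at h2
  obtain ⟨e₁, e₂, he₁, he₂, E1, E2⟩ := signs (hval A B a hB ha) (hval A B b hB hb)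
    (hval _ _ _ hB₁ ha₁) (hval _ _ _ hB₁ hx₁) (hval _ _ _ hB₂ ha₂) hrel
  obtain ⟨y₁, hy₁, hy₁'⟩ := pick hq ha₁ (hF A₁ B₁) he₁
  obtain ⟨z₁, hz₁, hz₁'⟩ := pick hq hx₁ (hF A₁ B₁) he₁
  obtain ⟨y₂, hy₂, hy₂'⟩ := pick hq ha₂ (hF A₂ B₂) he₂
  obtain ⟨z₂, hz₂, hz₂'⟩ := pick hq hx₂ (hF A₂ B₂) he₂
  refine ⟨y₁, z₁, y₂, z₂, hy₁, hz₁, hy₂, hz₂, fun σ => ?_⟩
  rw [hy₁', hz₁', hy₂', hz₂']
  have D1 := dl2 (v := v) c hq ha ha₁ hx₁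
    (fun z hz => hz.elim (hc q A B z hq hw) (hc q A₁ B₁ z hq hw₁))
    (fun z hz => hz.elim (hF A B z) (hF A₁ B₁ z)) hS σ
  have D2 := dl2 (v := v) c hq ha ha₂ hx₂
    (fun z hz => hz.elim (hc q A B z hq hw) (hc q A₂ B₂ z hq hw₂))
    (fun z hz => hz.elim (hF A B z) (hF A₂ B₂ z)) hS₂ σ
  have hsq := sq1 (hval A B (σ a) hB (ha.map σ))
  have main : 2 = e₁ * (F q v (σ a) * (F q v (σ a₁) + F q v (σ x₁))) +
      e₂ * (F q v (σ a) * (F q v (σ a₂) + F q v (σ x₂))) := by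
    have hcase : (σ a = a ∨ σ a = (q : L) / a) ∨ (σ a = τ₁ a ∨ σ a = (q : L) / τ₁ a) := by
      rw [s2]
      rcases hl _ (ha.map σ) with h | h | h | h
      · exact Or.inl (Or.inl h)
      · exact Or.inl (Or.inr h)
      · exact Or.inr (Or.inl h)
      · exact Or.inr (Or.inr h)
    rcases hcase with h | h
    · rw [D1 1 h, D2 1 h]
      exact E1
    · rw [D1 τ₁ h, D2 τ₁ h, s1, s2, s4, s5, s6, hF _ _ _ hx₁, hF _ _ _ hx₂, ← sub_eq_add_neg,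
        ← sub_eq_add_neg]
      exact E2
  linear_combination F q v (σ a) * main + (e₁ * (F q v (σ a₁) + F q v (σ x₁)) +
    e₂ * (F q v (σ a₂) + F q v (σ x₂))) * hsq

end Pool.Agent.GT4
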