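import Pool.Agent.GT4.St

/-!
# GT4: two partners with the same stabiliser (module TST, MP_3af9db_ag, helper54)
-/

set_option autoImplicit false

namespace Pool.Agent.GT4

open Pool.Agent.GT2 Pool.Agent.GT3

noncomputable section

namespace TSTAux

variable {L : Type} [Field L] [NumberField L]

/-- the configuration, conjugated by an automorphism -/
lemma conj {q : ℕ} {A B A₁ B₁ : ℤ} {a a₁ : L} (h : Cf q A B A₁ B₁ a a₁) (ρ : L ≃ₐ[ℚ] L) :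
    Cf q A B A₁ B₁ (ρ a) (ρ a₁) where
  ra := h.ra.map ρ
  ra₁ := h.ra₁.map ρ
  d := h.d
  dp := h.dp
  d₁ := h.d₁
  dp₁ := h.dp₁
  c := h.c
  n₁ := by
    intro τ h1 h2
    obtain ⟨τ', hτ'⟩ : ∃ τ' : L ≃ₐ[ℚ] L, ∀ y, τ' y = ρ.symm (τ (ρ y)) :=
      ⟨(ρ.trans τ).trans ρ.symm, fun _ => rfl⟩
    apply h.n₁ τ'
    · rw [hτ', h1, AlgEquiv.symm_apply_apply]
    · rw [hτ', h2, ← map_bar, AlgEquiv.symm_apply_apply]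
  n := by
    intro τ h1 h2
    obtain ⟨τ', hτ'⟩ : ∃ τ' : L ≃ₐ[ℚ] L, ∀ y, τ' y = ρ.symm (τ (ρ y)) :=
      ⟨(ρ.trans τ).trans ρ.symm, fun _ => rfl⟩
    apply h.n τ'
    · rw [hτ', h1, AlgEquiv.symm_apply_apply]
    · rw [hτ', h2, ← map_bar, AlgEquiv.symm_apply_apply]
  e₁ := by
    obtain ⟨τ, h1, h2⟩ := h.e₁
    refine ⟨(ρ.symm.trans τ).trans ρ, ?_, ?_⟩
    · show ρ (τ (ρ.symm (ρ a))) = ρ a
      rw [AlgEquiv.symm_apply_apply, h1]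
    · show ρ (τ (ρ.symm (ρ a₁))) ≠ ρ a₁
      rw [AlgEquiv.symm_apply_apply]
      exact fun h3 => h2 (ρ.injective h3)
  e := by
    obtain ⟨τ, h1, h2⟩ := h.e
    refine ⟨(ρ.symm.trans τ).trans ρ, ?_, ?_⟩
    · show ρ (τ (ρ.symm (ρ a₁))) = ρ a₁
      rw [AlgEquiv.symm_apply_apply, h1]
    · show ρ (τ (ρ.symm (ρ a))) ≠ ρ a
      rw [AlgEquiv.symm_apply_apply]
      exact fun h3 => h2 (ρ.injective h3)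

/-- `b` is not equal to `q / b` -/
lemma bne {q : ℕ} (hq : 1 ≤ q) {A B : ℤ} {a b : L} (ha : Rt q A B a) (hb : b ≠ 0)
    (hb2 : b + (q : L) / b = - A - (a + q / a)) (hdp : ¬ IsSquare (DP q A B)) :
    b ≠ (q : L) / b := by
  intro h
  have h1 := ha.dp hq hb hb2
  rw [sub_eq_zero.2 h, mul_zero, zero_pow two_ne_zero] at h1
  have h2 : DP q A B = 0 := by exact_mod_cast h1.symm
  apply hdp
  rw [h2]
  exact ⟨0, by ring⟩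

/-- the stabiliser of `a₁`, first part -/
lemma stab1 {q : ℕ} {a a₁ b x : L} (hb : b ≠ (q : L) / b)
    (h7 : ∀ τ : L ≃ₐ[ℚ] L, τ a = a → (τ a₁ = a₁ ∧ τ x = x) ∨ (τ a₁ = x ∧ τ x = a₁))
    (h8 : ∀ τ : L ≃ₐ[ℚ] L, τ a₁ = a₁ → (τ a = a ∧ τ b = b) ∨ (τ a = b ∧ τ b = a))
    (h9 : ∃ τ : L ≃ₐ[ℚ] L, τ a = a ∧ τ a₁ = x ∧ τ x = a₁ ∧ τ b = (q : L) / b)
    (τ : L ≃ₐ[ℚ] L) (t1 : τ a = a) (t2 : τ b = b) : τ a₁ = a₁ := by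
  rcases h7 τ t1 with ⟨h, -⟩ | ⟨h, -⟩
  · exact h
  exfalso
  obtain ⟨τ₀, e1, e2, -, e4⟩ := h9
  obtain ⟨τ', hτ'⟩ : ∃ τ' : L ≃ₐ[ℚ] L, ∀ y, τ' y = τ₀.symm (τ y) :=
    ⟨τ.trans τ₀.symm, fun _ => rfl⟩
  have f1 : τ₀.symm a = a := by
    rw [AlgEquiv.symm_apply_eq]
    exact e1.symm
  have g1 : τ' a = a := by rw [hτ', t1, f1]
  have g2 : τ' a₁ = a₁ := by
    rw [hτ', h, AlgEquiv.symm_apply_eq]
    exact e2.symm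
  rcases h8 τ' g2 with ⟨-, k⟩ | ⟨k, -⟩
  · rw [hτ', t2, AlgEquiv.symm_apply_eq, e4] at k
    exact hb k
  · rw [g1] at k
    rw [← k, e1, k] at e4
    exact hb e4

/-- the stabiliser of `a₁` -/
lemma stab {q : ℕ} {a a₁ b x : L} (hb : b ≠ (q : L) / b)
    (h7 : ∀ τ : L ≃ₐ[ℚ] L, τ a = a → (τ a₁ = a₁ ∧ τ x = x) ∨ (τ a₁ = x ∧ τ x = a₁))
    (h8 : ∀ τ : L ≃ₐ[ℚ] L, τ a₁ = a₁ → (τ a = a ∧ τ b = b) ∨ (τ a = b ∧ τ b = a))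
    (h9 : ∃ τ : L ≃ₐ[ℚ] L, τ a = a ∧ τ a₁ = x ∧ τ x = a₁ ∧ τ b = (q : L) / b)
    (h10 : ∃ τ : L ≃ₐ[ℚ] L, τ a₁ = a₁ ∧ τ a = b ∧ τ b = a ∧ τ x = (q : L) / x)
    (τ : L ≃ₐ[ℚ] L) : τ a₁ = a₁ ↔ (τ a = a ∧ τ b = b) ∨ (τ a = b ∧ τ b = a) := by
  refine ⟨h8 τ, ?_⟩
  rintro (⟨t1, t2⟩ | ⟨t1, t2⟩)
  · exact stab1 hb h7 h8 h9 τ t1 t2
  · obtain ⟨τ₁, e1, e2, e3, -⟩ := h10
    obtain ⟨τ', hτ'⟩ : ∃ τ' : L ≃ₐ[ℚ] L, ∀ y, τ' y = τ₁.symm (τ y) :=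
      ⟨τ.trans τ₁.symm, fun _ => rfl⟩
    have g1 : τ' a = a := by
      rw [hτ', t1, AlgEquiv.symm_apply_eq]
      exact e2.symm
    have g2 : τ' b = b := by
      rw [hτ', t2, AlgEquiv.symm_apply_eq]
      exact e3.symm
    have g3 := stab1 hb h7 h8 h9 τ' g1 g2
    rw [hτ', AlgEquiv.symm_apply_eq, e1] at g3
    exact g3

end TSTAux

open TSTAux in
theorem t_TST : M_TST := by
  intro hSWA L _ _ _ q hq A B A₁ B₁ A₂ B₂ a a₁ a₂ hC hC'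
  obtain ⟨b, x, hb, -, hb2, -, -, -, h7, h8, h9, h10⟩ := hSWA L q hq A B A₁ B₁ a a₁ hC
  obtain ⟨c, y, hc, -, hc2, -, -, -, k7, k8, k9, k10⟩ := hSWA L q hq A B A₂ B₂ a a₂ hC'
  have s1 := stab (bne hq hC.ra hb.1 hb2 hC.dp) h7 h8 h9 h10
  have s2 := stab (bne hq hC.ra hc.1 hc2 hC.dp) k7 k8 k9 k10
  rcases eq_or_bar hb.1 hc.1 (hc2.trans hb2.symm) with h | h
  · refine ⟨a₂, hC', fun τ => ?_⟩
    rw [s1, s2, h]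
  · obtain ⟨τ₀, e1, e2, e3, e4⟩ := k9
    have hcb : (q : L) / c = b := by rw [h, bar_bar hq hb.1]
    rw [hcb] at e4
    refine ⟨y, ?_, fun τ => ?_⟩
    · have := conj hC' τ₀
      rwa [e1, e2] at this
    · obtain ⟨τ', hτ'⟩ : ∃ τ' : L ≃ₐ[ℚ] L, ∀ y, τ' y = τ₀.symm (τ (τ₀ y)) :=
        ⟨(τ₀.trans τ).trans τ₀.symm, fun _ => rfl⟩
      have h1 : τ y = y ↔ τ' a₂ = a₂ := by
        rw [hτ', AlgEquiv.symm_apply_eq, e2]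
      rw [s1, h1, s2, hτ', hτ', AlgEquiv.symm_apply_eq, AlgEquiv.symm_apply_eq,
        AlgEquiv.symm_apply_eq, AlgEquiv.symm_apply_eq, e1, e4]

end

end Pool.Agent.GT4
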