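import Pool.Agent.GT4.Lnk2
import Pool.Agent.GT4.REFX
import Pool.Agent.GT4.PRX
import Pool.Agent.GT4.PAX
import Pool.Agent.GT4.RXS
import Pool.Agent.GT4.CFH
import Pool.Agent.GT4.CFX
import Pool.Agent.GT4.PSM
import Pool.Agent.GT4.DOM
import Pool.Agent.GT4.MXG
import Pool.Agent.GT4.M3X
import Pool.Agent.GT4.NMX
import Pool.Agent.GT4.ROU
import Pool.Agent.GT4.TST
import Pool.Agent.GT4.TOR
import Pool.Agent.GT4.TRR
import Pool.Agent.GT4.UNL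
import Pool.Agent.GT4.NTR
import Pool.Agent.GT4.NEG
import Pool.Agent.GT4.NGE
import Pool.Agent.GT4.BAD
import Pool.Agent.GT3.Fin

/-!
# GT4: the exact criterion (helper17)
-/

set_option autoImplicit false

open Polynomial

namespace Pool.Agent.GT4

open Pool.Agent.GT2 Pool.Agent.GT3

theorem h_REFX : S_REFX := t_REFX t_ROT t_SWP t_CHR

theorem h_PRX : S_PRX := t_PRX t_LOC3 h_ORT3 h_REFX h_RFX t_CMB3 t_LFN

theorem h_PAX : S_PAX := t_PAX h_PRX h_UNT3 t_EXV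

theorem h_CFH : S_CFH := t_CFH t_SQF

theorem h_CFX : S_CFX := t_CFX h_CON t_RXS h_CFH

theorem h_MXG : S_MXG := t_MXG t_LOC3 t_PSM t_DOM

theorem h_M3X : S_M3X := t_M3X t_INT3 t_EXV t_LFN h_CFX t_RXS h_MIX

theorem h_NMX : S_NMX := t_NMX t_LOC3 t_EXV t_LFN h_CFX h_SWA h_MXG h_MXU

theorem h_ROU : S_ROU := t_ROU h_SWA

theorem h_TST : S_TST := t_TST h_SWA

theorem h_TOR : S_TOR := t_TOR t_LOC3 h_CON h_SAM3 h_UNT3 h_ROU

theorem h_TRR : S_TRR := t_TRR t_LOC3 h_CON h_SWA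

theorem h_UNL : S_UNL := t_UNL t_REA

theorem h_NTR : S_NTR :=
  t_NTR t_LOC3 t_EXV t_LFN h_CFX h_TST h_TOR h_TRR h_RFX h_UNL

theorem h_NEG : S_NEG := t_NEG t_INT3 t_RXS h_NMX h_NTR

/-- the exact criterion, for every prime power `q` -/
theorem crit {q : ℕ} (hq : IsPrimePow q) {S : Set ℤ[X]} (hS : S ⊆ AlmostAll.All 1 q ∪ T2 q) :
    AlmostAll.Par q (AlmostAll.Adm q S) ↔ GxP q S := crit' t_CNV h_PAX h_NEG hq hS

theorem gx_of {q : ℕ} (hq : IsPrimePow q) {S : Set ℤ[X]} (hS : GdP q S) : GxP q S :=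
  gx_of_gd t_CNV h_M3X hq hS

/-- no mixed reflex pairs for `q ≡ 3` modulo `4` -/
theorem mx3 {q : ℕ} (hq : IsPrimePow q) (h4 : q % 4 = 3) :
    ∀ h ∈ AlmostAll.All 1 q ∪ T2 q, ∀ h' ∈ AlmostAll.All 1 q ∪ T2 q,
      (q.minFac : ℤ) ∣ h.coeff 0 ∨ (q.minFac : ℤ) ∣ h'.coeff 0 → ¬ RxP q h h' :=
  mx3' t_CNV h_M3X hq h4

/-- the fields with less than 64 elements -/
theorem full_iff {q : ℕ} (hq : IsPrimePow q) (h64 : q < 64) :
    GxP q (AlmostAll.All 1 q ∪ T2 q) ↔ (q = 3 ∨ q = 7 ∨ q = 11 ∨ q = 27 ∨ q = 43) := by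
  constructor
  · intro h
    by_contra hn
    exact not_full t_REA t_BAD hq h64 (by tauto) (by tauto) (by tauto) (by tauto) (by tauto) h
  · intro h
    exact gx_of hq (gdall h)

end Pool.Agent.GT4
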