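import Pool.Agent.GT4.St

/-!
# GT4: mixed reflex pairs over every finite field whose order is not `3` modulo `4` (architect helper17)

Explicit families. Each `S_FX` is a module: `theorem t_FX : S_FX` in `Pool/Agent/GT4/FX.lean`, namespace `Pool.Agent.GT4`, imports
`Pool.Agent.GT4.St3` (and `Pool.Agent.GT4.BAD`, `Pool.Agent.GT3.ODD` if wanted); auxiliary lemmas in namespace `Pool.Agent.GT4.FXAux`.
`DD A B = A² - 4 B`, `DP q A B = (B + 4 q)² - 4 q A²`.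
-/

set_option autoImplicit false

namespace Pool.Agent.GT4

open Pool.Agent.GT2 Pool.Agent.GT3

/-- there is a mixed reflex pair -/
def Bd (p q : ℕ) : Prop := ∃ A B A₁ B₁ : ℤ, Tr p q A B ∧ Tr p q A₁ B₁ ∧ (p : ℤ) ∣ B₁ ∧
  Rx q A B A₁ B₁

/-- FA (90 lines). `s = 2 ^ k`, `k ≥ 1`, `q = s²`. `(A, B) = (1, 1 - 2 s)`, `(A₁, B₁) = (2 s - 1, -s)`, `n = -s (8 s - 3)`, `m = (2 s - 1) (4 s² + 1)`, `w = (4 s + 1) (2 s - 1)` (`≠ 0`).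
`DD = 8 s - 3` (`5` modulo `8`), `DP = (4 s² + 1) (2 s - 1)²`, `DD₁ = 4 s² + 1`, `DP₁ = s² (8 s - 3)`. Not squares: `8 s - 3` and `(8 s - 3) (4 s² + 1)` are `5` modulo `8`; `4 s² + 1` is between `(2 s)²` and `(2 s + 1)²`
(`IsSquare (x * y²) → IsSquare x` for `y ≠ 0`). `B` is odd. `O1` for the second: `2 ∣ s`, `q ∣ s²`, `¬ PS 2 (s² (8 s - 3))`: take the exponent `2 k + 3`; `s² ∣ x²` so `x = s y`, `8 ∣ y² - (8 s - 3)`, impossible. `¬ O2`: `B` and `A₁` are odd. -/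
def S_FA : Prop := ∀ k : ℕ, 1 ≤ k → Bd 2 ((2 ^ k) ^ 2)

/-- FC (90 lines). `s = 3 ^ k`, `k ≥ 1`, `q = s²`. `(A, B) = (4, 16 - 8 s)`, `(A₁, B₁) = (2 s - 4, -4 s)`, `n = -16 s (2 s - 3)`, `m = 8 (s - 2) (s² + 4)`, `w = 8 (s + 1) (s - 2)` (`≠ 0`).
`DD = 16 (2 s - 3)`, `DP = 16 (s - 2)² (s² + 4)`, `DD₁ = 4 (s² + 4)`, `DP₁ = 16 s² (2 s - 3)`. Not squares: `2 s - 3`, `(2 s - 3) (s² + 4)` are divisible by `3` but not by `9`; `s² + 4` is between `s²` and `(s + 1)²`.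
`3 ∤ B`, `3 ∤ A₁`, `3 ∣ B₁`, `q ∣ B₁²`, `¬ PS 3 (16 s² (2 s - 3))`: exponent `2 k + 2`: `s² ∣ x²`, `x = s y`, `9 ∣ y² - 16 (2 s - 3)`, so `3 ∣ y`, `9 ∣ 16 (2 s - 3)`, impossible. -/
def S_FC : Prop := ∀ k : ℕ, 1 ≤ k → Bd 3 ((3 ^ k) ^ 2)

/-- FB (160 lines). `s = p ^ k`, `k ≥ 1`, `p ≥ 5`, `q = s²`. There is an integer `c` with `1 ≤ c`, `2 c < p` and `c² - 4` not a square in `ZMod p`: let `g` be a nonsquare of `ZMod p`; if `g ≠ -1` then `c = 2 (1 + g) / (1 - g)`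
has `c² - 4 = 16 g / (1 - g)²`, if `g = -1` (then `p ≠ 5` because `-1 = 2²` for `p = 5`) then `c = 6 / 5`, `c² - 4 = - 64 / 25`; `c ≠ 0`; take a representative of `c` or `-c`.
`(A, B) = (c, 1 + 2 c s - 4 s²)`, `(A₁, B₁) = (1, -c s)`, `n = -s ((4 s - c)² - 4)`, `m = 1 + 4 c s`, `w = 4 s + c` (`≠ 0`).
`DD = (4 s - c)² - 4`, `DP = 1 + 4 c s = DD₁`, `DP₁ = s² DD`. Not squares: `DD` is between `(4 s - c - 1)²` and `(4 s - c)²`; `1 + 4 c s = y²` gives `y = 2 z + 1`, `c s = z (z + 1)`, `s = p ^ k` divides `z` or `z + 1` (coprime), so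
`z + 1 ≥ s`, `c s ≥ (s - 1) s`, impossible (`2 c < p ≤ s`); `DD * DP` is `c² - 4` modulo `p`. `p ∤ B` (`B` is `1` modulo `p`). `O1`: `¬ PS p (s² DD)`: exponent `2 k + 1`: `s² ∣ x²`, `x = s y`, `p ∣ y² - DD`, `DD` is `c² - 4` modulo `p`. -/
def S_FB : Prop := ∀ p k : ℕ, p.Prime → 5 ≤ p → 1 ≤ k → Bd p ((p ^ k) ^ 2)

/-- FD (90 lines). `s = 2 ^ k`, `k ≥ 0`, `q = 2 s²`, `a = 2 s - 1`. `(A, B) = (2 a, a² - 2)`, `(A₁, B₁) = (a, -4 s)`, `n = -8 s a`, `m = -a (4 s² + 12 s + 1)`, `w = 2 a²` (`≠ 0`).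
`DD = 8`, `DP = a² (4 s² + 12 s + 1)`, `DD₁ = 4 s² + 12 s + 1`, `DP₁ = 8 s² a²`. Not squares: `4 s² + 12 s + 1` is between `(2 s + 2)²` and `(2 s + 3)²`; `8 x y²` for odd `x` (`y ≠ 0`): `2 x` is not a square (it is `2` modulo `4`).
`B` is odd, `a` is odd. `O1`: `¬ PS` from `GT3.t_ODD` (`q` is not a square, `q ∣ B₁²` because `16 s² = 8 q`). -/
def S_FD : Prop := ∀ k : ℕ, Bd 2 (2 * (2 ^ k) ^ 2)

/-- FE (160 lines). `p` is `1` modulo `4`, `q = p ^ (2 k + 1) > 16`. (1) `q = a² + b²` with positive integers `a, b` prime to `p`: induction on the exponent; `p = x² + y²` (`Nat.Prime.sq_add_sq`); if `p ^ e = a² + b²`,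
`p ∤ a`, then `(a x - b y)² + (a y + b x)² = (a x + b y)² + (a y - b x)² = p ^ (e + 1)`, and `p` does not divide both `a x - b y` and `a x + b y` (the sum is `2 a x`).
`(A, B) = (2 b, -a²)`, `(A₁, B₁) = (a, -2 q)`, `n = -4 q b`, `m = -a (a² + 8 q)`, `w = 2 a b` (`≠ 0`). `DD = 4 q`, `DP = a² (a² + 8 q)`, `DD₁ = a² + 8 q`, `DP₁ = 4 q b²`. Not squares: `q`; `q M` with `p ∤ M` (`p`-adic valuation odd);
`a² + 8 q = c²`, `c > 0`: `q ∣ (c - a) (c + a)`, `p` does not divide both factors (`p ∤ 2 a`), so `q` divides one, both are positive and `≤ c + a < 4 √q ≤ q` (`a² < q`, `c² < 9 q`, `q > 16`), impossible.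
`O1`: `¬ PS` from `GT3.t_ODD`. `¬ O2`: `q ∤ 4 b²`, `q ∤ a²`. -/
def S_FE : Prop := ∀ p k : ℕ, p.Prime → p % 4 = 1 → 16 < p ^ (2 * k + 1) → Bd p (p ^ (2 * k + 1))

end Pool.Agent.GT4
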