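import Pool.Agent.GT4.Lnk2
import Pool.Agent.GT4.St3

/-!
# GT4: mixed reflex pairs for every `q` which is not `3` modulo `4` (helper17)
-/

set_option autoImplicit false

open Polynomial

namespace Pool.Agent.GT4

open Pool.Agent.GT2 Pool.Agent.GT3

theorem bd_all (hA : S_FA) (hB : S_FB) (hC : S_FC) (hD : S_FD) (hE : S_FE) {q : ℕ}
    (hq : IsPrimePow q) (h4 : q % 4 ≠ 3) (h16 : 16 < q) : Bd q.minFac q := by
  obtain ⟨p, n, hp, hn, rfl⟩ := hq
  have hp' : p.Prime := hp.nat_prime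
  have hmf : (p ^ n).minFac = p := by
    rw [Nat.pow_minFac (by omega), hp'.minFac_eq]
  rw [hmf]
  obtain ⟨k, rfl | rfl⟩ : ∃ k, n = 2 * k ∨ n = 2 * k + 1 := ⟨n / 2, by omega⟩
  · have hk : 1 ≤ k := by omega
    have e : p ^ (2 * k) = (p ^ k) ^ 2 := by rw [← pow_mul, mul_comm]
    rw [e]
    by_cases h2 : p = 2
    · subst h2
      exact hA k hk
    by_cases h3 : p = 3
    · subst h3
      exact hC k hk
    have h5 : p ≠ 4 := by
      rintro rfl
      exact absurd hp' (by norm_num)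
    have h6 := hp'.two_le
    exact hB p k hp' (by omega) hk
  · by_cases h2 : p = 2
    · subst h2
      have e : 2 ^ (2 * k + 1) = 2 * (2 ^ k) ^ 2 := by rw [pow_succ, pow_mul', mul_comm]
      rw [e]
      exact hD k
    · have h7 : p % 2 = 1 := hp'.mod_two_eq_one_iff_ne_two.2 h2
      have h8 : p % 4 = 1 := by
        by_contra h9
        have h10 : p % 4 = 3 := by omega
        apply h4
        have h11 : p ^ 2 % 4 = 1 := by rw [Nat.pow_mod, h10]
        have h12 : p ^ (2 * k + 1) % 4 = 1 % 4 * 3 % 4 := by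
          rw [pow_succ, pow_mul, Nat.mul_mod, Nat.pow_mod, h11, h10, one_pow]
        rw [h12]
      exact hE p k hp' h8 h16

theorem full2 (hR : S_REA) (hA : S_FA) (hB : S_FB) (hC : S_FC) (hD : S_FD) (hE : S_FE) {q : ℕ}
    (hq : IsPrimePow q) (h4 : q % 4 ≠ 3) (h16 : 16 < q) :
    ¬ GxP q (AlmostAll.All 1 q ∪ T2 q) := by
  intro h
  obtain ⟨A, B, A₁, B₁, hT, hT₁, hp, hX⟩ := bd_all hA hB hC hD hE hq h4 h16
  have hq1 := hq.one_lt.le
  exact h.mx _ (pol_T2 hR hq1 hT) _ (pol_T2 hR hq1 hT₁)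
    (Or.inr (by rw [pol_zero]; exact hp)) (pol_rx hX)

end Pool.Agent.GT4
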