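import Pool.Agent.GT4.Fin
import Pool.Agent.GT4.Lnk3
import Pool.Agent.GT4.FA
import Pool.Agent.GT4.FB
import Pool.Agent.GT4.FC
import Pool.Agent.GT4.FD
import Pool.Agent.GT4.FE

/-!
# GT4: the classification for all `q < 64` and for all `q` which are not `3` modulo `4` (helper17)
-/

set_option autoImplicit false

open Polynomial

namespace Pool.Agent.GT4

open Pool.Agent.GT2 Pool.Agent.GT3

theorem full_all {q : ℕ} (hq : IsPrimePow q) (h : q < 64 ∨ q % 4 ≠ 3) :
    GxP q (AlmostAll.All 1 q ∪ T2 q) ↔ (q = 3 ∨ q = 7 ∨ q = 11 ∨ q = 27 ∨ q = 43) := by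
  by_cases h64 : q < 64
  · exact full_iff hq h64
  · have h4 : q % 4 ≠ 3 := by
      rcases h with h | h
      · exact absurd h h64
      · exact h
    constructor
    · intro hG
      exact absurd hG (full2 t_REA t_FA t_FB t_FC t_FD t_FE hq h4 (by omega))
    · rintro (h | h | h | h | h) <;> omega

end Pool.Agent.GT4
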