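import Pool.Agent.GT4.Fin2
import Pool.Agent.GT4.BAD2

/-!
# GT4: the classification for all `q < 243` and for all `q` which are not `3` modulo `4` (helper88)
-/

set_option autoImplicit false

open Polynomial

namespace Pool.Agent.GT4

open Pool.Agent.GT2 Pool.Agent.GT3

theorem full_all3 {q : ℕ} (hq : IsPrimePow q) (h : q < 243 ∨ q % 4 ≠ 3) :
    GxP q (AlmostAll.All 1 q ∪ T2 q) ↔ (q = 3 ∨ q = 7 ∨ q = 11 ∨ q = 27 ∨ q = 43) := by
  by_cases h1 : q < 64 ∨ q % 4 ≠ 3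
  · exact full_all hq h1
  have h64 : 64 ≤ q := by omega
  have h4 : q % 4 = 3 := by omega
  have h243 : q < 243 := by omega
  constructor
  · intro hG
    exfalso
    have hq1 := hq.one_lt.le
    rcases t_BAD2 q hq h4 h64 h243 with ⟨A, B, A₁, B₁, hT, hT₁, hp, hX⟩ |
      ⟨A, B, A₁, B₁, A₂, B₂, hT, hT₁, hT₂, hX, hX', hn⟩
    · exact hG.mx _ (pol_T2 t_REA hq1 hT) _ (pol_T2 t_REA hq1 hT₁)
        (Or.inr (by rw [pol_zero]; exact hp)) (pol_rx hX)
    · refine hn ?_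
      have := hG.tp _ (pol_T2 t_REA hq1 hT) _ (pol_T2 t_REA hq1 hT₁) _ (pol_T2 t_REA hq1 hT₂)
        (pol_rx hX) (pol_rx hX')
      rwa [pol_zero, pol_zero, pol_one, pol_one] at this
  · rintro (h | h | h | h | h) <;> omega

end Pool.Agent.GT4
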