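import Pool.Agent.GT4.St
import Pool.Agent.GT3.Lnk

/-!
# GT4: the link to the sets of real Weil polynomials (helper17)
-/

set_option autoImplicit false

open Polynomial

namespace Pool.Agent.GT4

open Pool.Agent.GT2 Pool.Agent.GT3

noncomputable section

/-- reflex pairs of polynomials -/
def RxP (q : ℕ) (h h' : ℤ[X]) : Prop := h.natDegree = 2 ∧ h'.natDegree = 2 ∧
  Rx q (h.coeff 1) (h.coeff 0) (h'.coeff 1) (h'.coeff 0)

/-- good sets of polynomials -/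
structure GxP (q : ℕ) (S : Set ℤ[X]) : Prop where
  mx : ∀ h ∈ S, ∀ h' ∈ S, (q.minFac : ℤ) ∣ h.coeff 0 ∨ (q.minFac : ℤ) ∣ h'.coeff 0 → ¬ RxP q h h'
  tp : ∀ h ∈ S, ∀ h' ∈ S, ∀ h'' ∈ S, RxP q h h' → RxP q h h'' →
    h''.coeff 0 = h'.coeff 0 ∧ (h''.coeff 1 = h'.coeff 1 ∨ h''.coeff 1 = - h'.coeff 1)

theorem aeval_two {h : ℤ[X]} (hm : h.Monic) (hd : h.natDegree = 2) (z : ℂ) :
    aeval z h = z ^ 2 + (h.coeff 1 : ℂ) * z + (h.coeff 0 : ℂ) := by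
  have h2 : h.coeff 2 = 1 := by
    have := hm.leadingCoeff
    rwa [leadingCoeff, hd] at this
  rw [aeval_eq_sum_range, hd, Finset.sum_range_succ, Finset.sum_range_succ,
    Finset.sum_range_succ, Finset.sum_range_zero, h2]
  simp only [zsmul_eq_mul]
  push_cast
  ring

theorem adS_adm {q : ℕ} {S : Set ℤ[X]} (hS : S ⊆ AlmostAll.All 1 q ∪ T2 q) {z : ℂ}
    (hz : AdS q (Pr q S) z) : AlmostAll.Adm q S z := by
  obtain ⟨N, hN, h1 | ⟨A, B, hP, r, hr, hzr⟩⟩ := hz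
  · exact ⟨N, hN, Or.inl h1⟩
  · refine ⟨N, hN, Or.inr ?_⟩
    rcases hP with ⟨h, hh, hd, rfl, rfl⟩ | ⟨h, hh, hd, rfl, rfl⟩
    · refine ⟨h, hh, r, hr.1, ?_, hzr⟩
      have h2 := mem_two (hS hh) hd
      rw [aeval_two h2.1.1 hd]
      exact hr.2
    · refine ⟨h, hh, r, hr.1, ?_, hzr⟩
      have hm : h.Monic := by
        rcases hS hh with h1 | h1
        · exact h1.1.1
        · exact h1.1.1
      rw [GT3.aeval_one hm hd]
      have h3 := hr.2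
      have h4 : (r + (q : ℂ) / r + (h.coeff 0 : ℂ)) ^ 2 = 0 := by
        have h5 : (r + (q : ℂ) / r) ^ 2 + ((2 * h.coeff 0 : ℤ) : ℂ) * (r + (q : ℂ) / r) +
            ((h.coeff 0 ^ 2 : ℤ) : ℂ) = 0 := h3
        push_cast at h5
        linear_combination h5
      exact pow_eq_zero_iff (two_ne_zero) |>.1 h4

theorem not_gn' {q : ℕ} {c : ℤ} : ¬ Gn q (2 * c) (c ^ 2) := fun h => h.1 (dd_sq c)

theorem gx_pr {q : ℕ} {S : Set ℤ[X]} (hS : GxP q S) : Gx q.minFac q (Pr q S) := by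
  refine ⟨?_, ?_⟩
  · rintro A B A₁ B₁ (⟨h, hh, hd, rfl, rfl⟩ | ⟨h, hh, hd, rfl, rfl⟩) h1 hp hR
    · rcases h1 with ⟨h', hh', hd', rfl, rfl⟩ | ⟨h', hh', hd', rfl, rfl⟩
      · exact hS.mx h hh h' hh' hp ⟨hd, hd', hR⟩
      · exact not_gn' hR.2.1
    · exact not_gn' hR.1
  · rintro A B A₁ B₁ A₂ B₂ (⟨h, hh, hd, rfl, rfl⟩ | ⟨h, hh, hd, rfl, rfl⟩) h1 h2 hR hR'
    · rcases h1 with ⟨h', hh', hd', rfl, rfl⟩ | ⟨h', hh', hd', rfl, rfl⟩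
      · rcases h2 with ⟨h'', hh'', hd'', rfl, rfl⟩ | ⟨h'', hh'', hd'', rfl, rfl⟩
        · exact hS.tp h hh h' hh' h'' hh'' ⟨hd, hd', hR⟩ ⟨hd, hd'', hR'⟩
        · exact absurd hR'.2.1 not_gn'
      · exact absurd hR.2.1 not_gn'
    · exact absurd hR.1 not_gn'

theorem of_gx {q : ℕ} {S : Set ℤ[X]} (hS : Gx q.minFac q (Pr q S)) : GxP q S :=
  ⟨fun h hh h' hh' hp hR => hS.mx _ _ _ _ (Or.inl ⟨h, hh, hR.1, rfl, rfl⟩)
      (Or.inl ⟨h', hh', hR.2.1, rfl, rfl⟩) hp hR.2.2,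
    fun h hh h' hh' h'' hh'' hR hR' => hS.tp _ _ _ _ _ _ (Or.inl ⟨h, hh, hR.1, rfl, rfl⟩)
      (Or.inl ⟨h', hh', hR.2.1, rfl, rfl⟩) (Or.inl ⟨h'', hh'', hR'.2.1, rfl, rfl⟩) hR.2.2 hR'.2.2⟩

/-- the exact criterion -/
theorem crit' (hC : S_CNV) (hP : S_PAX) (hN : S_NEG) {q : ℕ} (hq : IsPrimePow q) {S : Set ℤ[X]}
    (hS : S ⊆ AlmostAll.All 1 q ∪ T2 q) :
    AlmostAll.Par q (AlmostAll.Adm q S) ↔ GxP q S := by
  have hT : ∀ A B, Pr q S A B → Tr q.minFac q A B := fun A B h => pr_tr hC hq hS h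
  constructor
  · intro h
    exact of_gx (hN q.minFac q (pq_of hq) (Pr q S) hT (par_mono (fun _ hz => adS_adm hS hz) h))
  · intro h
    exact par_mono (fun _ hz => adm_adS hC hq.one_lt.le hS hz)
      (hP q.minFac q (pq_of hq) (Pr q S) hT (gx_pr h))

theorem rx_rf {q : ℕ} {h h' : ℤ[X]} (hR : RxP q h h') : RfP q h h' := by
  obtain ⟨h1, h2, h3, h4, n, m, w, hn, hm, hw, _⟩ := hR
  exact ⟨h1, h2, h3, h4, n, m, hn, hm, ⟨w, by rw [hw]; ring⟩⟩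

/-- good in the sense of GT3 is good; for `q ≡ 3` modulo `4` the first condition is empty -/
theorem gx_of_gd (hC : S_CNV) (hM : S_M3X) {q : ℕ} (hq : IsPrimePow q) {S : Set ℤ[X]}
    (hS : GdP q S) : GxP q S := by
  refine ⟨fun h hh h' hh' hp hR => ?_, fun h hh h' hh' h'' hh'' hR hR' =>
    hS.tp h hh h' hh' h'' hh'' (rx_rf hR) (rx_rf hR')⟩
  by_cases h4 : q % 4 = 3
  · exact hM q.minFac q (pq_of hq) h4 _ _ _ _ (tr_two hC hq.one_lt.le (mem_two (hS.sub hh) hR.1))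
      (tr_two hC hq.one_lt.le (mem_two (hS.sub hh') hR.2.1)) hp hR.2.2
  · exact hS.mx h4 h hh h' hh' hp (rx_rf hR)

theorem mx3a (hC : S_CNV) (hM : S_M3X) {q : ℕ} (hq : IsPrimePow q) (h4 : q % 4 = 3) :
    ∀ h ∈ AlmostAll.All 1 q ∪ T2 q, ∀ h' ∈ AlmostAll.All 1 q ∪ T2 q,
      (q.minFac : ℤ) ∣ h.coeff 0 ∨ (q.minFac : ℤ) ∣ h'.coeff 0 → ¬ RxP q h h' :=
  fun h hh h' hh' hp hR =>
    hM q.minFac q (pq_of hq) h4 _ _ _ _ (tr_two hC hq.one_lt.le (mem_two hh hR.1))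
      (tr_two hC hq.one_lt.le (mem_two hh' hR.2.1)) hp hR.2.2

end

end Pool.Agent.GT4
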