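import Pool.Agent.GT4.St

/-!
# GT4: the other fields with less than 64 elements
-/

set_option autoImplicit false

namespace Pool.Agent.GT4

open Pool.Agent.GT2 Pool.Agent.GT3

/-- BAD: explicit reflex pairs with a member of `p`-rank one (`q = 2, 4, 5, 8, 9, 13, 16, 17, 25, 29, 32, 37, 41, 49, 53, 61`), for instance `q = 2`: `(A, B) = (-2, -1)`, `(A₁, B₁) = (-1, -4)` with `n = 8`, `m = 17`, `w = 2`; or triples of
ordinary surfaces (`q = 19, 23, 31, 47, 59`), for instance `q = 19`: `(1, -61)` with the partners `(1, -37)` and `(5, -31)`. `¬ PS p N`: give `k` and check `x² - N` modulo `p ^ k` (`decide` in `ZMod (p ^ k)`), or `GT3.t_ODD` if `q` is not a square. -/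
def S_BAD : Prop := ∀ q : ℕ, IsPrimePow q → q < 64 → q ≠ 3 → q ≠ 7 → q ≠ 11 → q ≠ 27 → q ≠ 43 →
  (∃ A B A₁ B₁ : ℤ, Tr q.minFac q A B ∧ Tr q.minFac q A₁ B₁ ∧ (q.minFac : ℤ) ∣ B₁ ∧
    Rx q A B A₁ B₁) ∨
  ∃ A B A₁ B₁ A₂ B₂ : ℤ, Tr q.minFac q A B ∧ Tr q.minFac q A₁ B₁ ∧ Tr q.minFac q A₂ B₂ ∧
    Rx q A B A₁ B₁ ∧ Rx q A B A₂ B₂ ∧ ¬ (B₂ = B₁ ∧ (A₂ = A₁ ∨ A₂ = - A₁))

end Pool.Agent.GT4
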