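import Pool.Agent.GT4.Lnk
import Pool.Agent.GT4.St2

/-!
# GT4: from pairs of integers to polynomials (helper17)
-/

set_option autoImplicit false

open Polynomial

namespace Pool.Agent.GT4

open Pool.Agent.GT2 Pool.Agent.GT3

noncomputable section

theorem mx3' (hC : S_CNV) (hM : S_M3X) {q : ℕ} (hq : IsPrimePow q) (h4 : q % 4 = 3) :
    ∀ h ∈ AlmostAll.All 1 q ∪ T2 q, ∀ h' ∈ AlmostAll.All 1 q ∪ T2 q,
      (q.minFac : ℤ) ∣ h.coeff 0 ∨ (q.minFac : ℤ) ∣ h'.coeff 0 → ¬ RxP q h h' := mx3a hC hM hq h4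

/-- the polynomial `x² + A x + B` -/
def pol (A B : ℤ) : ℤ[X] := X ^ 2 + C A * X + C B

theorem pol_deg (A B : ℤ) : (C A * X + C B : ℤ[X]).degree < 2 := by
  refine lt_of_le_of_lt (degree_add_le _ _) (max_lt ?_ ?_)
  · exact lt_of_le_of_lt (degree_C_mul_X_le A) (by norm_num)
  · exact lt_of_le_of_lt degree_C_le (by norm_num)

theorem pol_monic (A B : ℤ) : (pol A B).Monic := by
  unfold pol
  rw [add_assoc]
  exact monic_X_pow_add (by exact_mod_cast pol_deg A B)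

theorem pol_nd (A B : ℤ) : (pol A B).natDegree = 2 := by
  unfold pol
  rw [add_assoc, natDegree_add_eq_left_of_degree_lt, natDegree_X_pow]
  rw [degree_X_pow]
  exact_mod_cast pol_deg A B

theorem pol_zero (A B : ℤ) : (pol A B).coeff 0 = B := by
  unfold pol
  simp

theorem pol_one (A B : ℤ) : (pol A B).coeff 1 = A := by
  unfold pol
  rw [coeff_add, coeff_add, coeff_X_pow, coeff_C_mul, coeff_X_one, coeff_C, if_neg (by norm_num),
    if_neg (by norm_num)]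
  ring

theorem pol_rw (hR : S_REA) {q : ℕ} (hq : 1 ≤ q) {A B : ℤ} (h : W2 q A B) :
    pol A B ∈ AlmostAll.RW 2 q := by
  refine ⟨pol_monic A B, pol_nd A B, fun z hz => ?_⟩
  have h1 : z ^ 2 + A * z + B = 0 := by
    rw [aeval_two (pol_monic A B) (pol_nd A B), pol_zero, pol_one] at hz
    exact hz
  obtain ⟨h2, h3⟩ := hR q hq A B h z h1
  refine ⟨h2, ?_⟩
  rw [← Real.sqrt_sq (by positivity : (0 : ℝ) ≤ 2 * Real.sqrt q), ← Real.sqrt_sq_eq_abs]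
  refine Real.sqrt_le_sqrt ?_
  rw [mul_pow, Real.sq_sqrt (Nat.cast_nonneg q)]
  linarith

theorem pol_T2 (hR : S_REA) {q : ℕ} (hq : 1 ≤ q) {A B : ℤ} (h : Tr q.minFac q A B) :
    pol A B ∈ AlmostAll.All 1 q ∪ T2 q := by
  refine Or.inr ⟨pol_rw hR hq h.w, ?_⟩
  rw [pol_zero, pol_one]
  exact h.t

theorem pol_rx {q : ℕ} {A B A₁ B₁ : ℤ} (h : Rx q A B A₁ B₁) : RxP q (pol A B) (pol A₁ B₁) := by
  refine ⟨pol_nd A B, pol_nd A₁ B₁, ?_⟩
  rw [pol_zero, pol_zero, pol_one, pol_one]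
  exact h

theorem not_full (hR : S_REA) (hB : S_BAD) {q : ℕ} (hq : IsPrimePow q) (h64 : q < 64)
    (h3 : q ≠ 3) (h7 : q ≠ 7) (h11 : q ≠ 11) (h27 : q ≠ 27) (h43 : q ≠ 43) :
    ¬ GxP q (AlmostAll.All 1 q ∪ T2 q) := by
  intro h
  have hq1 := hq.one_lt.le
  rcases hB q hq h64 h3 h7 h11 h27 h43 with ⟨A, B, A₁, B₁, hT, hT₁, hp, hX⟩ |
    ⟨A, B, A₁, B₁, A₂, B₂, hT, hT₁, hT₂, hX, hX', hn⟩
  · exact h.mx _ (pol_T2 hR hq1 hT) _ (pol_T2 hR hq1 hT₁)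
      (Or.inr (by rw [pol_zero]; exact hp)) (pol_rx hX)
  · refine hn ?_
    have := h.tp _ (pol_T2 hR hq1 hT) _ (pol_T2 hR hq1 hT₁) _ (pol_T2 hR hq1 hT₂) (pol_rx hX)
      (pol_rx hX')
    rwa [pol_zero, pol_zero, pol_one, pol_one] at this

end

end Pool.Agent.GT4
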