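import Pool.Agent.GT3.St

/-!
# GT4: Frobenius eigenvalues of abelian surfaces, the EXACT criterion, statements (architect helper17)

THEOREM. Let `q = p ^ n` and `S` a set of isogeny classes of abelian surfaces over the field with `q` elements. The
eigenvalues have the partner property `AlmostAll.Par` IF AND ONLY IF `S` is good (`Gx`): no reflex pair (`Rx`, exact version) with a member
which is not ordinary, and the reflex partners of a member are twists of each other. If not, there are explicit exotic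
Tate classes (of degree 6).

Positive direction: GT3 with `Rx` instead of `Rf`. Negative direction: the reflex condition gives back the Galois configuration `GT3.Cf`
(`CFX`), then the slopes satisfy an explicit relation (`MXG`, `TRR`), and Kronecker's theorem gives a multiplicative relation.

Each statement `S_XXX` is a module: `theorem t_XXX : S_XXX` (or `M_XXX : S_YYY → ... → S_XXX`) in
`Pool/Agent/GT4/XXX.lean`, import `Pool.Agent.GT4.St` (modules of GT2, GT3 may be imported), auxiliary lemmas in namespace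
`Pool.Agent.GT4.XXXAux`. Notation as in GT2/St.lean, GT3/St.lean: `ā = q / a`, `t = a + ā`, `r = 2 t + A`, `u = A² - 2 B - 8 q`, index 1 for
`A₁, B₁, a₁`.
-/

set_option autoImplicit false

open Polynomial

namespace Pool.Agent.GT4

open Pool.Agent.GT2 Pool.Agent.GT3

noncomputable section

/-- reflex pairs, exact version -/
def Rx (q : ℕ) (A B A₁ B₁ : ℤ) : Prop :=
  Gn q A B ∧ Gn q A₁ B₁ ∧ ∃ n m w : ℤ, n ^ 2 = DD A B * DP q A₁ B₁ ∧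
    m ^ 2 = DP q A B * DD A₁ B₁ ∧
    (A ^ 2 - 2 * B - 8 * q) * (A₁ ^ 2 - 2 * B₁ - 8 * q) + 2 * A * n + 2 * A₁ * m = w ^ 2 ∧
    (w = 0 → IsSquare (-(DD A B * A₁ * m)))

/-- good sets, exact version -/
structure Gx (p q : ℕ) (S : ℤ → ℤ → Prop) : Prop where
  mx : ∀ A B A₁ B₁, S A B → S A₁ B₁ → (p : ℤ) ∣ B ∨ (p : ℤ) ∣ B₁ → ¬ Rx q A B A₁ B₁
  tp : ∀ A B A₁ B₁ A₂ B₂, S A B → S A₁ B₁ → S A₂ B₂ → Rx q A B A₁ B₁ → Rx q A B A₂ B₂ →
    B₂ = B₁ ∧ (A₂ = A₁ ∨ A₂ = - A₁)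

/-! ### the positive direction -/

/-- REFX (170 lines): `GT2.S_REF` with the exact conclusion. PROOF. The proof of `GT2.REF` (copy it). There `y = (a - ā) w₀`, `σ` with `σ r = -r`, `y + σ y` is fixed by all and its square is the integer
`u u₁ - 2 A n₀ + 2 A₁ m'`, where `n₀ = r δ₁` and `y * σ y = A₁ m'`, `m'² = m²`; so `y + σ y = w` is an integer (`int_of_fixed`); `n := - n₀`, `m := m'`. If `w = 0` then `σ y = - y`, `y² = - A₁ m'`, and `r y` is fixed by all (the elements fixing `r` fix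
`y`, the others change the sign of both), `(r y)² = - DD A B * A₁ * m'`: `sq_of_fixed`. -/
def S_REFX : Prop := ∀ (L : Type) [Field L] [NumberField L] [IsGalois ℚ L] (q : ℕ) (_ : 1 ≤ q)
  (A B A₁ B₁ : ℤ) (a a₁ : L), Cf q A B A₁ B₁ a a₁ →
  ∃ n m w : ℤ, n ^ 2 = DD A B * DP q A₁ B₁ ∧ m ^ 2 = DP q A B * DD A₁ B₁ ∧
    (A ^ 2 - 2 * B - 8 * q) * (A₁ ^ 2 - 2 * B₁ - 8 * q) + 2 * A * n + 2 * A₁ * m = w ^ 2 ∧
    (w = 0 → IsSquare (-(DD A B * A₁ * m)))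

def M_REFX : Prop := S_ROT → S_SWP → S_CHR → S_REFX

/-- PRX (220 lines): `GT3.PRT3` with `Rx`, `Gx` in place of `Rf`, `Gd`. PROOF. The same; whenever `ORT3` gives `Rf ∧ Cf`, `REFX` gives `Rx` (`Gn` from `Rf`). `mx` excludes the non-ordinary members directly (`MIX` and `INT3` are not needed). -/
def S_PRX : Prop := ∀ (v : AbsoluteValue Qb ℝ) (p q : ℕ), Pq p q →
  IsNonarchimedean v → v (p : Qb) < 1 → ∀ S : ℤ → ℤ → Prop, (∀ A B, S A B → Tr p q A B) →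
  Gx p q S →
  ∀ (x : Qb) (l : List Qb), (∀ y ∈ x :: l, ∃ A B, S A B ∧ Rt q A B y) →
  (∀ σ : Qb ≃ₐ[ℚ] Qb, ((x :: l).map fun y => F q v (σ y)).sum = 0) → Odd l.length →
  ∃ y ∈ l, ∀ σ : Qb ≃ₐ[ℚ] Qb, F q v (σ y) = - F q v (σ x)

def M_PRX : Prop := S_LOC3 → S_ORT3 → S_REFX → S_RFX → S_CMB3 → S_LFN → S_PRX

/-- PAX (150 lines): `GT3.PAR3` with `Gx`. -/
def S_PAX : Prop := ∀ (p q : ℕ), Pq p q → ∀ S : ℤ → ℤ → Prop, (∀ A B, S A B → Tr p q A B) →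
  Gx p q S → AlmostAll.Par q (AdS q S)

def M_PAX : Prop := S_PRX → S_UNT3 → S_EXV → S_PAX

/-! ### reflex pairs and the Galois configuration -/

/-- RXS (80 lines), symmetry. PROOF. Exchange `n` and `m`, the same `w`. If `w = 0`: put `P = DD A B * DD A₁ B₁`. `u² = A² DD A B + 4 DP q A B` (identity), the same for index 1, `u u₁ = - 2 (A n + A₁ m)`; squaring:
`A² A₁² P + 16 DP DP₁ = 8 A A₁ n m`; times `P` (`DP DP₁ P = n² m²`): `(A A₁ P - 4 n m)² = 0`, so `4 n m = A A₁ P`. Hence `(DD A₁ m) (DD₁ A n) = (2 n m)²`. With `- DD A₁ m = s²`: `s ≠ 0` (`A₁ ≠ 0`, otherwise `DP₁` is a square; `m ≠ 0`), so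
`- DD₁ A n * s² = (2 n m)²` and `- DD₁ A n` is a square (`s ∣ 2 n m` as `s² ∣ (2 n m)²`). -/
def S_RXS : Prop := ∀ (q : ℕ) (A B A₁ B₁ : ℤ), Rx q A B A₁ B₁ → Rx q A₁ B₁ A B

/-- CFH (180 lines), from the integers to the Galois group. PROOF. `L` is Galois and `DD₁` is not a square, so there is `σ₁` with `σ₁ r₁ = - r₁`, `x = σ₁ a₁`, `x + q/x = - A₁ - t₁`. `δ₁ = (a₁ - ā₁)(x - x̄)`, `δ₁² = DP₁`; `(r δ₁)² = n²`; replacing `x` by `x̄` we may assume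
`r δ₁ = - n`. `w₀ = (a₁ - ā₁) + (x - x̄)`, `w₀² = u₁ + 2 δ₁`; `y₀ = (a - ā) w₀`, `(a - ā)² = (u - A r)/2`. So `y₀² = α + β r` with `α = (u u₁ + 2 A n)/2`, `β = -(2 u n / DD + A u₁)/2` (rational numbers, `δ₁ = - n r / DD`, `r² = DD`), and
`α² - β² DD = ((u² - A² DD)/4)(u₁² - 4 DP₁) = DP A₁² DD₁ = (A₁ m)²`. `2 α + 2 A₁ m = w²`. If `w ≠ 0`: `y₀² = (w/2 + (β/w) r)²`. If `w = 0`: `α = - A₁ m`, `β = 0`, `(y₀ r)² = DD α = s²`. In both cases every `τ` with `τ r = r` fixes `y₀`.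
Let `τ a = a`. Then `τ r = r`, `τ y₀ = y₀`, `a - ā ≠ 0` (`DP ≠ 0`), so `τ w₀ = w₀`, and `τ δ₁ = δ₁`. So `s₁ = a₁ - ā₁`, `s₂ = x - x̄` satisfy `{τ s₁, τ s₂} = {s₁, s₂}` (same sum and product). If `τ a₁ = ā₁` then `τ s₁ = - s₁`, so `- s₁ = s₁` (impossible, `DP₁ ≠ 0`) or `- s₁ = s₂`, then
`s₁² = s₂²`, `t₁² = t₁'²`, `t₁ ≠ t₁'`, so `A₁ = 0` and `DP₁ = (B₁ + 4 q)²` is a square, a contradiction. Second claim: if all `τ` fixing `a` fix `a₁`, `SQF` says that `DP DP₁` is a square; `DD DP₁ = n²`, so `DD DP` is a square (`DP₁ ≠ 0`), against `Gn`. -/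
def S_CFH : Prop := ∀ (L : Type) [Field L] [NumberField L] [IsGalois ℚ L] (q : ℕ) (_ : 1 ≤ q)
  (A B A₁ B₁ : ℤ) (a a₁ : L), Rt q A B a → Rt q A₁ B₁ a₁ → Rx q A B A₁ B₁ →
  (∃ c : L ≃ₐ[ℚ] L, c a = (q : L) / a ∧ c a₁ = (q : L) / a₁) →
  (∀ τ : L ≃ₐ[ℚ] L, τ a = a → τ a₁ ≠ (q : L) / a₁) ∧ ∃ τ : L ≃ₐ[ℚ] L, τ a = a ∧ τ a₁ ≠ a₁

def M_CFH : Prop := S_SQF → S_CFH

/-- CFX (50 lines). PROOF. `c` from `CON`; `CFH` for `(a, a₁)` and, with `RXS`, for `(a₁, a)`. -/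
def S_CFX : Prop := ∀ (L : Type) [Field L] [NumberField L] [IsGalois ℚ L] (q : ℕ) (_ : 1 ≤ q)
  (A B A₁ B₁ : ℤ) (a a₁ : L), W2 q A B → W2 q A₁ B₁ → Rt q A B a → Rt q A₁ B₁ a₁ →
  Rx q A B A₁ B₁ → Cf q A B A₁ B₁ a a₁

def M_CFX : Prop := S_CON → S_RXS → S_CFH → S_CFX

/-! ### mixed pairs -/

/-- PSM (90 lines), `p`-adic squares. PROOF. Take `k > v_p (M)`: `v_p (x²) = v_p (M)` is even, `M = p ^ (2 j) M'`, `M'` prime to `p` and a `p`-adic square (divide `x` by `p ^ j`). `M N = z²` gives `p ^ j ∣ z`, `M' N = z'²`. For `p ^ k ∣ x² - M'`, `x y ≡ 1` modulo `p ^ k`: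
`(z' y)² = M' N y² ≡ N`. -/
def S_PSM : Prop := ∀ (p : ℕ) (_ : p.Prime) (M N : ℤ), M ≠ 0 → PS p M → IsSquare (M * N) → PS p N

/-- DOM (200 lines), a dominant embedding makes `r` rational over `ℚ_p`. PROOF. `T k = ∑ σ, σ (y ^ k)` and `R k = ∑ σ, σ (r y ^ k)` are fixed and integral, so integers. `s ≥ 1` = the number of the `σ` with `σ y = y ∧ σ r = r`, `M < v y` the maximum of the other `v (σ y)` (or `0`). `T k = s y ^ k + E k`, `R k = s r y ^ k + E' k` with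
`v (E k), v (E' k) ≤ M ^ k` (`v r ≤ 1`, `v (σ r) ≤ 1` as `σ r = ± r`). `v (s) > 0`. For large `k`: `v (T k) = v s * v y ^ k`. `v (r T k - R k) ≤ M ^ k`. So `v (N - (R k / T k)²) = v (r - R k / T k) * v (r + R k / T k) ≤ (M / v y) ^ k / v s` times a constant, which tends to `0`. Given `K` choose `k` such that this is `≤ v p ^ K`; `v (R k / T k) ≤ 1`
(as `v N ≤ 1` and the difference is small); cancel `p`: `R k / T k = R' / T'` with `p ∤ T'`; `T' X ≡ R'` modulo `p ^ K` has a solution `X`, and `v (X² - N) ≤ v p ^ K`, so `p ^ K ∣ X² - N` (an integer `m` with `v m ≤ v p ^ K` is divisible by `p ^ K`). -/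
def S_DOM : Prop := ∀ (L : Type) [Field L] [NumberField L] [IsGalois ℚ L] (v : AbsoluteValue L ℝ)
  (p : ℕ), p.Prime → IsNonarchimedean v → v (p : L) < 1 → ∀ (r y : L) (N : ℤ), r ^ 2 = (N : L) →
  IsIntegral ℤ y → y ≠ 0 →
  (∀ σ : L ≃ₐ[ℚ] L, (σ y = y ∧ σ r = r) ∨ v (σ y) < v y) → PS p N

/-- MXG (150 lines), mixed pairs. PROOF. `f σ = F (σ a) = ± 1`, `h σ = F (σ a₁) + F (σ x) = ± 1` (`LOC3`: exactly one of `v (σ t₁)`, `v (σ t₁')` is `1`, as `t₁ + t₁' = - A₁`, `t₁ t₁' = B₁`). `f`, `h` do not change under `σ ↦ σ * τ`, `τ` in the stabiliser of `a`, and change the sign under `σ ↦ σ * c`; so `f h` is constant on the `σ` with `σ r = r` and on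
the `σ` with `σ r = - r`. If these two constants are equal we are done. Otherwise replace `a` by `ā` and `(a₁, x)` by `(ā₁, x̄)` such that `f 1 = h 1 = 1`. `y = a a₁ x`: `v (σ y) = v q ^ (3/2 - (f σ + h σ)/2)` (`F z = 1 - 2 log v z / log v q`; compare logarithms), so `v y = v q ^ (1/2)`; for `σ a = a`: `σ y = y`, `σ r = r`; for
`σ a = ā`: `f = h = -1`; for `σ r = -r`: `f h = - 1`; so `v (σ y) < v y`. `DOM` (`r² = DD`, `y` is integral) gives `PS p (DD A B)`, and `PSM` gives `PS p (DP q A₁ B₁)`; but `DP q A₁ B₁` is not `0` (`Cf.dp₁`), so it is not a `p`-adic square (`O1`). -/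
def S_MXG : Prop := ∀ (L : Type) [Field L] [NumberField L] [IsGalois ℚ L]
  (v : AbsoluteValue L ℝ) (p q : ℕ), Vq L p q v → ∀ (A B A₁ B₁ : ℤ) (a a₁ x : L),
  Cf q A B A₁ B₁ a a₁ → ¬ (p : ℤ) ∣ B → O1 p q A₁ B₁ → IsSquare (DD A B * DP q A₁ B₁) →
  Rt q A₁ B₁ x → x + (q : L) / x = - A₁ - (a₁ + q / a₁) →
  (∀ τ : L ≃ₐ[ℚ] L, τ a = a → (τ a₁ = a₁ ∧ τ x = x) ∨ (τ a₁ = x ∧ τ x = a₁)) →
  (∀ σ : L ≃ₐ[ℚ] L, F q v (σ a₁) + F q v (σ x) = F q v (σ a)) ∨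
    (∀ σ : L ≃ₐ[ℚ] L, F q v (σ a₁) + F q v (σ x) = - F q v (σ a))

def M_MXG : Prop := S_LOC3 → S_PSM → S_DOM → S_MXG

/-- M3X (100 lines): no mixed exact pairs for `q ≡ 3` modulo `4`. PROOF. `v` from `EXV`, roots `a`, `a₁` in `Qb`, `L` from `LFN`, `i` the inclusion, `Cf` from `CFX`. By `Gn` no member is `O2`. If `p ∣ B` and `p ∣ B₁`: `INT3` (4) contradicts `n² = DD DP₁`. If only `p ∣ B₁`: `MIX`. If only `p ∣ B`: `RXS` and `MIX`. -/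
def S_M3X : Prop := ∀ (p q : ℕ), Pq p q → q % 4 = 3 → ∀ A B A₁ B₁ : ℤ, Tr p q A B →
  Tr p q A₁ B₁ → (p : ℤ) ∣ B ∨ (p : ℤ) ∣ B₁ → ¬ Rx q A B A₁ B₁

def M_M3X : Prop := S_INT3 → S_EXV → S_LFN → S_CFX → S_RXS → S_MIX → S_M3X

/-- NMX (200 lines), mixed pairs destroy the partner property. PROOF. `v` from `EXV`, roots `a`, `a₁` in `Qb`, `L` from `LFN` (`NumberField L`), `i` the inclusion, `Cf` from `CFX`, `x` from `SWA`. `DD A B * DP q A₁ B₁ = n²`. `MXG` for `v.comp i` : replacing `a` by `ā` in the second case,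
`F (σ a₁) + F (σ x) = F (σ a)` for all `σ`. `MXU`: `((a₁ x)²) ^ N = (q a²) ^ N`. Let `ι : Qb →+* ℂ`; `z = ι ā`, `l = [ι ā, ι a₁, ι a₁, ι x, ι x]`, `j = 3`: `(z l.prod) ^ N = (ā² (a₁ x)²) ^ N = (ā² q a²) ^ N = (q ^ 3) ^ N`. `Par` would give `y ∈ {ā, a₁, x}` with `(ā y) ^ M = q ^ M`, so `F (σ ā) + F (σ y) = 0`, i.e.
`F (σ y) = F (σ a)` for all `σ`. `y = ā`: `F (a) = 0`, but it is `± 1`. `y = a₁`: `F (σ x) = 0` for all `σ`, in particular for the swap `τ` (`τ x = a₁`) `F a₁ = 0`, so `F a = 0`. `y = x`: the same. -/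
def S_NMX : Prop := ∀ (p q : ℕ), Pq p q → ∀ S : ℤ → ℤ → Prop, ∀ A B A₁ B₁ : ℤ,
  Tr p q A B → Tr p q A₁ B₁ → S A B → S A₁ B₁ → Rx q A B A₁ B₁ → ¬ (p : ℤ) ∣ B →
  O1 p q A₁ B₁ → ¬ AlmostAll.Par q (AdS q S)

def M_NMX : Prop := S_LOC3 → S_EXV → S_LFN → S_CFX → S_SWA → S_MXG → S_MXU → S_NMX

/-! ### triples -/

/-- ROU (100 lines), roots of unity in a dihedral CM field; compare `GT3.MXB`. PROOF. Automorphisms commute on roots of unity, so the `σ` which fix `u` are a normal subgroup containing the stabiliser of `a`. With `SWA`: `τ a = a`, `τ b = b̄`, and `τ' a = b`, `τ' b = a`: `τ'' = τ' * τ * τ'⁻¹` maps `a` to `ā` and fixes `u`; the last hypothesis for `c = τ''`: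
`u = τ'' u = u⁻¹`. -/
def S_ROU : Prop := ∀ (L : Type) [Field L] [NumberField L] [IsGalois ℚ L] (q : ℕ) (_ : 1 ≤ q)
  (A B A₁ B₁ : ℤ) (a a₁ u : L) (N : ℕ), Cf q A B A₁ B₁ a a₁ → 1 ≤ N → u ^ N = 1 →
  (∀ τ : L ≃ₐ[ℚ] L, τ a = a → τ u = u) → (∀ c : L ≃ₐ[ℚ] L, c a = (q : L) / a → c u = u⁻¹) →
  u ^ 2 = 1

def M_ROU : Prop := S_SWA → S_ROU

/-- TST (150 lines), two partners with the same stabiliser. PROOF. `b`, `x₁` from `SWA` for `(a, a₁)`; `M_b` = the `τ` with (`τ a = a`, `τ b = b`) or (`τ a = b`, `τ b = a`). CLAIM: `τ a₁ = a₁` iff `τ ∈ M_b`. `⇒` is in `SWA`. `⇐`: if `τ` fixes `a`, `b` and `τ a₁ = x₁`: with `τ₀` (`τ₀ a = a`, `τ₀ a₁ = x₁`, `τ₀ b = b̄`), `τ₀⁻¹ τ` fixes `a` and `a₁`,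
so `b`, so `τ b = b̄`, a contradiction. If `τ` exchanges `a`, `b`: with `τ₁` (`τ₁ a₁ = a₁`, `τ₁ a = b`, `τ₁ b = a`), `τ₁⁻¹ τ` fixes `a`, `b`, so `a₁`. For `(a, a₂)`: `b₂`, `x₂`, and `b₂ ∈ {b, b̄}` (`b₂ + q/b₂ = b + q/b`). If `b₂ = b`: `a₂' = a₂`. If `b₂ = b̄`: `a₂' = x₂ = τ₀ a₂` with `τ₀ a = a`, `τ₀ b₂ = b̄₂ = b` : `τ x₂ = x₂` iff
`τ₀⁻¹ τ τ₀ ∈ M_{b₂}` iff `τ ∈ M_b`. `Cf` for `x₂`: conjugate all conditions with `τ₀` (`τ₀ a = a`). -/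
def S_TST : Prop := ∀ (L : Type) [Field L] [NumberField L] [IsGalois ℚ L] (q : ℕ) (_ : 1 ≤ q)
  (A B A₁ B₁ A₂ B₂ : ℤ) (a a₁ a₂ : L), Cf q A B A₁ B₁ a a₁ → Cf q A B A₂ B₂ a a₂ →
  ∃ a₂' : L, Cf q A B A₂ B₂ a a₂' ∧ ∀ τ : L ≃ₐ[ℚ] L, τ a₁ = a₁ ↔ τ a₂' = a₂'

def M_TST : Prop := S_SWA → S_TST

/-- TOR (150 lines), different partners are orthogonal. PROOF. `SAM3` for `(a₁, a₂)` (`c` from `Cf`: it maps `a₁` to `ā₁`; take `c` from `CON` for both) and `v.comp i`: equal, opposite, or orthogonal. Opposite: replace `a₂` by `ā₂` (the same stabiliser). Equal: for `σ : Qb ≃ₐ[ℚ] Qb` the slopes of `i a₁` and `i ā₂` are opposite (`σ i = i τ`), `UNT3`: `(a₁ ā₂) ^ N = q ^ N`,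
`u = a₁ / a₂`, `u ^ N = 1`. `ROU` for `Cf q A₁ B₁ A B a₁ a` (symmetric) and `u`: `u² = 1` (an automorphism `c'` with `c' a₁ = ā₁`: `c⁻¹ c'` fixes `a₁`, so `a₂`, so `c' a₂ = ā₂`, `c' u = ā₁ / ā₂ = u⁻¹`). So `a₂ = ± a₁`, `t₂ = ± t₁`. `t₁` is not rational (`DD₁` is not a square), `t₁² + A₁ t₁ + B₁ = 0`, `t₁² ± A₂ t₁ + B₂ = 0`: `A₂ = ± A₁`, `B₂ = B₁`. -/
def S_TOR : Prop := ∀ (L : Type) [Field L] [NumberField L] [IsGalois ℚ L] (i : L →+* Qb)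
  (v : AbsoluteValue Qb ℝ) (p q : ℕ), Pq p q → IsNonarchimedean v → v (p : Qb) < 1 →
  ∀ (A B A₁ B₁ A₂ B₂ : ℤ) (a a₁ a₂ : L), Tr p q A B → Tr p q A₁ B₁ → Tr p q A₂ B₂ →
  Cf q A B A₁ B₁ a a₁ → Cf q A B A₂ B₂ a a₂ → (∀ τ : L ≃ₐ[ℚ] L, τ a₁ = a₁ ↔ τ a₂ = a₂) →
  ¬ (B₂ = B₁ ∧ (A₂ = A₁ ∨ A₂ = - A₁)) →
  ∑ σ : L ≃ₐ[ℚ] L, F q v (i (σ a₁)) * F q v (i (σ a₂)) = 0

def M_TOR : Prop := S_LOC3 → S_CON → S_SAM3 → S_UNT3 → S_ROU → S_TOR

/-- TRR (180 lines), the relation of the slopes. PROOF. `c` from `CON` (for all three). `b`, `x₁`, `τ₀` (`τ₀ a = a`, `τ₀ a₁ = x₁`, `τ₀ x₁ = a₁`, `τ₀ b = b̄`) and `τ₁` (`τ₁ a₁ = a₁`, `τ₁ x₁ = x̄₁`) from `SWA` for `(a, a₁)`; `x₂` from `SWA` for `(a, a₂)`; `τ₀` does not fix `a₁`, so not `a₂`, so it exchanges `a₂` and `x₂`. Write `f, g₁, g₁', g₂, g₂'` for the functions `F (σ ·)` of `a, a₁, x₁, a₂, x₂`, all `± 1`.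
(1) `g₁ g₂` does not change under `σ ↦ σ τ`, `τ` in the stabiliser of `a₁` (it fixes `a₂`), nor under `c`, so under all `τ` with `τ r₁ = r₁`; its sum is `0`, so it has opposite values on the two cosets (`σ ↦ σ τ₀` is a bijection between them: `τ₀ r₁ = - r₁`); so `g₁' g₂' (σ) = g₁ g₂ (σ τ₀) = - g₁ g₂ (σ)`. Hence exactly one of `g₁ + g₁'`, `g₂ + g₂'` is zero for each `σ`.
(2) `Q = g₁ g₁'` does not change under the stabiliser of `a` nor under `c`, so only depends on the sign of `σ r / r`; its sum is `0` (`τ₁`), so both values occur: `Q = η` for `σ r = r`, `Q = - η` for `σ r = - r`. (3) `f (g₁ + g₁')` does not change under the stabiliser of `a` and `c`, so on the coset with `Q = 1` it is a constant `2 ε₁`; in the same way `f (g₂ + g₂') = 2 ε₂` on the coset with `Q = - 1`.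
So `2 f = ε₁ (g₁ + g₁') + ε₂ (g₂ + g₂')`. If `ε₁ = 1` take `y₁ = a₁`, `z₁ = x₁`, else `ā₁`, `x̄₁`; the same for `ε₂`. -/
def S_TRR : Prop := ∀ (L : Type) [Field L] [NumberField L] [IsGalois ℚ L]
  (v : AbsoluteValue L ℝ) (p q : ℕ), Vq L p q v →
  ∀ (A B A₁ B₁ A₂ B₂ : ℤ) (a a₁ a₂ : L), W2 q A B → W2 q A₁ B₁ → W2 q A₂ B₂ →
  Cf q A B A₁ B₁ a a₁ → Cf q A B A₂ B₂ a a₂ →
  (∀ τ : L ≃ₐ[ℚ] L, τ a₁ = a₁ ↔ τ a₂ = a₂) → ¬ (p : ℤ) ∣ B → ¬ (p : ℤ) ∣ B₁ → ¬ (p : ℤ) ∣ B₂ →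
  ∑ σ : L ≃ₐ[ℚ] L, F q v (σ a₁) * F q v (σ a₂) = 0 →
  ∃ y₁ z₁ y₂ z₂ : L, Rt q A₁ B₁ y₁ ∧ Rt q A₁ B₁ z₁ ∧ Rt q A₂ B₂ y₂ ∧ Rt q A₂ B₂ z₂ ∧
    ∀ σ : L ≃ₐ[ℚ] L, 2 * F q v (σ a) =
      F q v (σ y₁) + F q v (σ z₁) + F q v (σ y₂) + F q v (σ z₂)

def M_TRR : Prop := S_LOC3 → S_CON → S_SWA → S_TRR

/-- UNL (50 lines), a list: `GT3.UNTAux.uni`, `wn_root` (in `GT3/UNB.lean`); the product of `l.prod` and `(l.map (q / ·)).prod` is `q ^ l.length`. -/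
def S_UNL : Prop := ∀ (v : AbsoluteValue Qb ℝ) (p q : ℕ), Pq p q →
  IsNonarchimedean v → v (p : Qb) < 1 → ∀ l : List Qb,
  (∀ y ∈ l, ∃ A B, W2 q A B ∧ Rt q A B y) →
  (∀ σ : Qb ≃ₐ[ℚ] Qb, (l.map fun y => F q v (σ y)).sum = 0) →
  ∃ N : ℕ, 1 ≤ N ∧ l.prod ^ (2 * N) = ((q : Qb) ^ l.length) ^ N

def M_UNL : Prop := S_REA → S_UNL

/-- NTR (200 lines), triples destroy the partner property. PROOF. `v` from `EXV`, roots `a`, `a₁`, `a₂` in `Qb`, `L` from `LFN`, `i` the inclusion, `Cf` from `CFX`, `a₂'` from `TST`, `TOR`, `TRR` (for `v.comp i`). The slopes of the list `[ā, ā, y₁, z₁, y₂, z₂]` have the sum `0` (`F ā = - F a`; `σ i = i τ`), `UNL`: `(ā² y₁ z₁ y₂ z₂) ^ (2 N) = (q ^ 6) ^ N`. With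
`ι : Qb →+* ℂ`: `z = ι ā`, `l = [ι ā, ι y₁, ι z₁, ι y₂, ι z₂]`, `j = 3`, exponent `2 N`. `Par` would give `y` in the list with `(ā y) ^ M = q ^ M`, so `F (σ y) = F (σ a)` for all `σ`. `y = ā`: impossible (`± 1`). `y` a root for `A₁, B₁` (or `A₂, B₂`): `Cf q A B A₁ B₁ a y` (`CFX`), and `RFX` (`le`): `|2 ⟨f, g⟩| ≤ ⟨f, f⟩`, but `g = f` and `⟨f, f⟩ > 0`. -/
def S_NTR : Prop := ∀ (p q : ℕ), Pq p q → ∀ S : ℤ → ℤ → Prop, ∀ A B A₁ B₁ A₂ B₂ : ℤ,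
  Tr p q A B → Tr p q A₁ B₁ → Tr p q A₂ B₂ → S A B → S A₁ B₁ → S A₂ B₂ →
  Rx q A B A₁ B₁ → Rx q A B A₂ B₂ → ¬ (p : ℤ) ∣ B → ¬ (p : ℤ) ∣ B₁ → ¬ (p : ℤ) ∣ B₂ →
  ¬ (B₂ = B₁ ∧ (A₂ = A₁ ∨ A₂ = - A₁)) → ¬ AlmostAll.Par q (AdS q S)

def M_NTR : Prop := S_LOC3 → S_EXV → S_LFN → S_CFX → S_TST → S_TOR → S_TRR → S_RFX → S_UNL → S_NTR

/-- NEG (80 lines). PROOF. If `mx` fails: `Rx q A B A₁ B₁`, `p ∣ B` or `p ∣ B₁`. By `Gn` neither is `O2`. If `p ∣ B` and `p ∣ B₁`: both `O1`, `DP q A₁ B₁` is not `0` (not a square), so not a `p`-adic square, `INT3` (4) contradicts `n² = DD DP₁`. If only `p ∣ B₁`: `NMX`; if only `p ∣ B`: `RXS`, `NMX`. If `tp` fails: if one of the three is divisible by `p`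
then `mx` fails (for the pair `(A, B)`, `(A₁, B₁)` or `(A, B)`, `(A₂, B₂)`) and we are done; else `NTR`. -/
def S_NEG : Prop := ∀ (p q : ℕ), Pq p q → ∀ S : ℤ → ℤ → Prop, (∀ A B, S A B → Tr p q A B) →
  AlmostAll.Par q (AdS q S) → Gx p q S

def M_NEG : Prop := S_INT3 → S_RXS → S_NMX → S_NTR → S_NEG

/-! ### exterior algebra -/

/-- NGE (170 lines), the exotic class. PROOF. `V = Fin (2 * j) → ℂ`, `F` = the diagonal endomorphism with the entries of `z :: l` (`μ k = (z :: l).get ..`), `e k` the standard basis. `F` is semisimple (`Module.End.IsSemisimple` of a diagonalisable endomorphism: e.g. its minimal polynomial divides the squarefree product of `X - μ` over the distinct values, or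
`isSemisimple_of_squarefree_aeval_eq_zero`); the roots of the characteristic polynomial are eigenvalues (`Module.End.hasEigenvalue_iff_isRoot_charpoly`), so some `μ k`. `x = e 0 ∧ ... ∧ e (2 j - 1)` (`exteriorPower` or the product of the `ι (e k)`), `x ≠ 0`, `x ∈ ⋀^(2 j)`, `map (F ^ N) x = (∏ μ) ^ N x = q ^ (j N) x`. CLAIM: every `y ∈ ⋀^2 V` with `map (F ^ M) y = q ^ M y`, `M ≥ 1`,
lies in the range of `ExteriorAlgebra.map W.subtype`, `W` = the span of the `e k`, `k ≠ 0`: `y` is a combination of the `e k ∧ e m`, `k < m` (a basis), `map (F ^ M)` multiplies it with `(μ k μ m) ^ M`, and for `k = 0` this is not `q ^ M` by hypothesis, so the coefficient is zero. Let `P : V → V` be the projection to `W` with kernel `e 0`. `ExteriorAlgebra.map P` is an algebra homomorphism and fixes the range of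
`map W.subtype`, so the whole subalgebra generated by these `y` (the elements fixed by an algebra homomorphism are a subalgebra). But `map P x = 0`. So `x` is not in the subalgebra. (It is enough to use the projection `P` itself: show `map P y = y` for these `y`.) -/
def S_NGE : Prop := ∀ (q : ℕ) (z : ℂ) (l : List ℂ) (j N : ℕ), 1 ≤ q → 1 ≤ N →
  l.length + 1 = 2 * j → (z * l.prod) ^ N = ((q : ℂ) ^ j) ^ N →
  (∀ y ∈ l, ∀ M : ℕ, 1 ≤ M → (z * y) ^ M ≠ (q : ℂ) ^ M) →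
  ∃ f : Module.End ℂ (Fin (2 * j) → ℂ), f.IsSemisimple ∧
    (∀ μ : ℂ, f.charpoly.IsRoot μ → μ ∈ z :: l) ∧
    ∃ x : ExteriorAlgebra ℂ (Fin (2 * j) → ℂ), x ∈ ⋀[ℂ]^(2 * j) (Fin (2 * j) → ℂ) ∧
      ExteriorAlgebra.map (f ^ N) x = (q : ℂ) ^ (j * N) • x ∧
      x ∉ Algebra.adjoin ℂ {y : ExteriorAlgebra ℂ (Fin (2 * j) → ℂ) |
        y ∈ ⋀[ℂ]^(2 * 1) (Fin (2 * j) → ℂ) ∧ ∃ M : ℕ, 1 ≤ M ∧
          ExteriorAlgebra.map (f ^ M) y = (q : ℂ) ^ (1 * M) • y}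

end

end Pool.Agent.GT4
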