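import Pool.Agent.GT4.St
import Pool.Agent.GT3.UNB

/-!
# GT4: slopes with sum zero give a multiplicative relation, lists
-/

set_option autoImplicit false

namespace Pool.Agent.GT4

open Pool.Agent.GT2 Pool.Agent.GT3

noncomputable section

open Pool.Agent.GT3.UNTAux in
theorem t_UNL : M_UNL := by
  intro hREA v p q hpq hna hlt l hl h
  obtain ⟨n, hn, hqn⟩ := hpq.pw
  have hq : IsPrimePow q := by
    rw [hqn]
    exact hpq.pr.isPrimePow.pow (by omega)
  have hmin : q.minFac = p := by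
    rw [hqn]
    exact hpq.pr.pow_minFac (by omega)
  have hv : Pool.Agent.TJ4.Ab q v := ⟨hna, by rw [hmin]; exact hlt⟩
  have hq1 : 1 ≤ q := hq.pos
  have hw : ∀ a ∈ l, Wn q a := by
    intro a ha
    obtain ⟨A, B, hW, hR⟩ := hl a ha
    exact wn_root hREA hq1 hW hR
  obtain ⟨N, hN, h1⟩ := uni Pool.Agent.TJ4.t_SLP Pool.Agent.TJ4.t_LOC q v hq hv l hw
    fun σ => h σ
  refine ⟨N, hN, ?_⟩
  have h2 := prod_mul (q := q) l fun a ha => (hw a ha).ne
  calc l.prod ^ (2 * N) = l.prod ^ N * l.prod ^ N := by ring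
    _ = l.prod ^ N * ((l.map fun a => (q : Qb) / a).prod) ^ N := by rw [← h1]
    _ = ((q : Qb) ^ l.length) ^ N := by rw [← mul_pow, h2]

end

end Pool.Agent.GT4
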